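import Mathlib.LinearAlgebra.Dual.Lemmas
import Mathlib.Topology.Sheaves.Presheaf
import Mathlib.Topology.Algebra.Module.ModuleTopology
import Mathlib.Tactic.Monotonicity.Lemmas
import Mathlib.Algebra.Order.Ring.Star
import Mathlib.Combinatorics.Matroid.Basic
import Mathlib.Topology.GDelta.MetrizableSpace
import Mathlib.Topology.ContinuousMap.Bounded.Normed
import Mathlib.Analysis.InnerProductSpace.Basic
import Mathlib.Topology.Baire.CompleteMetrizable
import Mathlib.Algebra.Order.Star.Real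
import Mathlib.Combinatorics.SimpleGraph.Basic
import Mathlib.Data.Rat.Star
import Mathlib.RingTheory.PiTensorProduct
import Mathlib.Topology.Separation.CompletelyRegular
import Mathlib.Order.CompletePartialOrder
import Mathlib.Tactic.Algebra.Basic

-- ======== part 0: formerly Pool.Agent.MP_e733ef_an.Select
section MrgPart0

/-!
Linear algebra for the counterexample: a linearly independent selection from continuum many
large sets, and linear functionals with prescribed values on the selected vectors.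
-/

open Cardinal Set

namespace Pool.Agent.MP_e733ef_an

/-- From at most continuum many sets, none of which lies in the span of fewer than continuum many
vectors, one can select a linearly independent family. -/
theorem indep_select {ι V : Type} [AddCommGroup V] [Module ℝ V] (Z : ι → Set V)
    (hι : #ι ≤ 𝔠) (hZ : ∀ i, ∀ s : Set V, #s < 𝔠 → ∃ z ∈ Z i, z ∉ Submodule.span ℝ s) :
    ∃ z : ι → V, (∀ i, z i ∈ Z i) ∧ LinearIndependent ℝ z := by
  classical
  obtain ⟨_, _, hr⟩ := Cardinal.exists_ord_eq_type_lt ι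
  have hsmall : ∀ (i : ι) (g : Iio i → V), #(range g) < 𝔠 := fun i g =>
    (Cardinal.mk_range_le.trans_lt (Cardinal.mk_Iio_lt i hr)).trans_le hι
  let step : ∀ i : ι, (∀ j : ι, j < i → V) → V := fun i g =>
    Classical.choose (hZ i (range fun j : Iio i => g j.1 j.2) (hsmall i _))
  let z : ι → V := WellFoundedLT.fix (motive := fun _ => V) step
  have hz : ∀ i, z i = step i fun j _ => z j := fun i =>
    WellFoundedLT.fix_eq (motive := fun _ => V) step i
  have hspec : ∀ i, z i ∈ Z i ∧ z i ∉ Submodule.span ℝ (range fun j : Iio i => z j.1) := by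
    intro i
    rw [hz i]
    exact Classical.choose_spec (hZ i (range fun j : Iio i => z j.1) (hsmall i _))
  refine ⟨z, fun i => (hspec i).1, ?_⟩
  rw [linearIndependent_iff']
  intro s
  induction s using Finset.induction_on_max with
  | empty => intro g _ i hi; simp at hi
  | insert a s hlt ih =>
    intro g hg
    have has : a ∉ s := fun h => lt_irrefl _ (hlt a h)
    rw [Finset.sum_insert has] at hg
    have ha : g a = 0 := by
      by_contra hne
      apply (hspec a).2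
      have : z a = (-(g a)⁻¹) • ∑ i ∈ s, g i • z i := by
        have h1 : ∑ i ∈ s, g i • z i = -(g a • z a) := by
          rw [eq_neg_iff_add_eq_zero, add_comm]; exact hg
        rw [h1, smul_neg, neg_smul, neg_neg, smul_smul, inv_mul_cancel₀ hne, one_smul]
      rw [this]
      refine Submodule.smul_mem _ _ (Submodule.sum_mem _ fun i hi => Submodule.smul_mem _ _ ?_)
      exact Submodule.subset_span ⟨⟨i, hlt i hi⟩, rfl⟩
    rw [ha, zero_smul, zero_add] at hg
    intro i hi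
    rcases Finset.mem_insert.1 hi with rfl | hi
    · exact ha
    · exact ih g hg i hi

/-- Modify a family of functionals so that countably many of them take prescribed values at each
member of a linearly independent family; at each vector only countably many are changed. -/
theorem exists_functionals {T Φ V : Type} [AddCommGroup V] [Module ℝ V] (z : T → V)
    (hz : LinearIndependent ℝ z) (C : T → Set Φ) (hC : ∀ τ, (C τ).Countable) (val : T → Φ → ℝ)
    (θ : Φ → V →ₗ[ℝ] ℝ) :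
    ∃ L : V →ₗ[ℝ] (Φ → ℝ), (∀ τ, ∀ a ∈ C τ, L (z τ) a = val τ a) ∧
      ∀ x, {a | L x a ≠ θ a x}.Countable := by
  classical
  obtain ⟨π, hπ⟩ := (Finsupp.linearCombination ℝ z).exists_leftInverse_of_injective
    (LinearMap.ker_eq_bot.2 hz)
  have hπz : ∀ τ, π (z τ) = Finsupp.single τ 1 := by
    intro τ
    have := LinearMap.congr_fun hπ (Finsupp.single τ 1)
    simpa using this
  let corr : Φ → T → ℝ := fun a τ => if a ∈ C τ then val τ a - θ a (z τ) else 0
  let φ : Φ → V →ₗ[ℝ] ℝ := fun a => θ a + (Finsupp.linearCombination ℝ (corr a)) ∘ₗ π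
  refine ⟨LinearMap.pi φ, ?_, ?_⟩
  · intro τ a ha
    simp [φ, hπz, corr, ha]
  · intro x
    refine (Set.Countable.biUnion (π x).support.countable_toSet fun τ _ => hC τ).mono ?_
    intro a ha
    by_contra hcon
    apply ha
    have h0 : (Finsupp.linearCombination ℝ (corr a)) (π x) = 0 := by
      rw [Finsupp.linearCombination_apply, Finsupp.sum]
      refine Finset.sum_eq_zero fun τ hτ => ?_
      have : a ∉ C τ := fun h => hcon (mem_biUnion (Finset.mem_coe.2 hτ) h)
      simp [corr, this]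
    simp [φ, h0]

/-- Closing off under countably-valued finitary operations. -/
theorem closing_off {α : Type} (R : Finset α → Set α) (hR : ∀ s, (R s).Countable) :
    ∃ A : Set α, A.Countable ∧ ∀ s : Finset α, (↑s : Set α) ⊆ A → R s ⊆ A := by
  classical
  let F : Set α → Set α := fun B => B ∪ ⋃ s ∈ {s : Finset α | (↑s : Set α) ⊆ B}, R s
  have hF : ∀ B : Set α, B.Countable → (F B).Countable := by
    intro B hB
    refine hB.union (Set.Countable.biUnion ?_ fun s _ => hR s)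
    have := Set.countable_ofPred_finite_subset hB
    refine (this.preimage_of_injOn (f := fun s : Finset α => (↑s : Set α))
      (Finset.coe_injective.injOn)).mono ?_
    intro s hs
    exact ⟨s.finite_toSet, hs⟩
  let A : ℕ → Set α := fun n => F^[n] ∅
  have hA : ∀ n, A (n + 1) = F (A n) := fun n => Function.iterate_succ_apply' F n ∅
  have hc : ∀ n, (A n).Countable := by
    intro n
    induction n with
    | zero => exact countable_empty
    | succ n ih => rw [hA]; exact hF _ ih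
  have hm : Monotone A := monotone_nat_of_le_succ fun n => by
    rw [hA]; exact subset_union_left
  refine ⟨⋃ n, A n, countable_iUnion hc, fun s hs => ?_⟩
  obtain ⟨n, hn⟩ : ∃ n, (↑s : Set α) ⊆ A n := by
    have hd : Directed (· ⊆ ·) A := hm.directed_le
    exact hd.exists_mem_subset_of_finset_subset_biUnion hs
  refine Subset.trans ?_ (subset_iUnion A (n + 1))
  rw [hA]
  exact Subset.trans (subset_biUnion_of_mem (u := fun s => R s)
    (show s ∈ {s : Finset α | (↑s : Set α) ⊆ A n} from hn)) subset_union_right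

end Pool.Agent.MP_e733ef_an

end MrgPart0

-- ======== part 1: formerly Pool.Agent.MP_e733ef_an.Graph
section MrgPart1

/-!
Graphs of families of linear functionals on a Banach space that are Baire spaces.
-/

open Cardinal Set TopologicalSpace Filter Topology

namespace Pool.Agent.MP_e733ef_an

/-- A topological vector space in which countably many dense open sets always meet is Baire. -/
theorem baire_of_nonempty {E : Type} [AddCommGroup E] [Module ℝ E] [TopologicalSpace E]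
    [IsTopologicalAddGroup E] [ContinuousSMul ℝ E]
    (h : ∀ G : ℕ → Set E, (∀ n, IsOpen (G n)) → (∀ n, Dense (G n)) → (⋂ n, G n).Nonempty) :
    BaireSpace E := by
  refine ⟨fun f ho hd => ?_⟩
  rw [dense_iff_inter_open]
  rintro U hU ⟨u, hu⟩
  have hne : ∀ n : ℕ, (1 / ((n : ℝ) + 1)) ≠ 0 := fun n => by positivity
  let e : ℕ → E ≃ₜ E := fun n =>
    (Homeomorph.smulOfNeZero (1 / ((n : ℝ) + 1)) (hne n)).trans (Homeomorph.addLeft u)
  have he : ∀ n y, e n y = u + (1 / ((n : ℝ) + 1)) • y := fun n y => rfl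
  obtain ⟨y, hy⟩ := h (fun m => e (Nat.unpair m).2 ⁻¹' f (Nat.unpair m).1)
    (fun m => (ho _).preimage (e _).continuous)
    (fun m => (hd _).preimage (e _).isOpenMap)
  have ht : Tendsto (fun n : ℕ => e n y) atTop (𝓝 u) := by
    simp only [he]
    have h1 : Tendsto (fun n : ℕ => (1 / ((n : ℝ) + 1)) • y) atTop (𝓝 ((0 : ℝ) • y)) :=
      tendsto_one_div_add_atTop_nhds_zero_nat.smul_const y
    simpa using h1.const_add u
  obtain ⟨n, hn⟩ := (ht.eventually (hU.mem_nhds hu)).exists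
  refine ⟨e n y, hn, mem_iInter.2 fun k => ?_⟩
  have := mem_iInter.1 hy (Nat.pair k n)
  simpa using this

/-- Codes for basic open boxes in `X × (Φ → ℝ)`. -/
abbrev Box (X Φ : Type) : Type := X × ℚ × Finset (Φ × ℚ × ℚ)

/-- The open box with a given code. -/
def boxSet {X Φ : Type} [PseudoMetricSpace X] (b : Box X Φ) : Set (X × (Φ → ℝ)) :=
  {p | dist p.1 b.1 < (b.2.1 : ℝ) ∧ ∀ c ∈ b.2.2, (c.2.1 : ℝ) < p.2 c.1 ∧ p.2 c.1 < (c.2.2 : ℝ)}

theorem isOpen_boxSet {X Φ : Type} [PseudoMetricSpace X] (b : Box X Φ) : IsOpen (boxSet b) := by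
  have h1 : IsOpen {p : X × (Φ → ℝ) | dist p.1 b.1 < (b.2.1 : ℝ)} :=
    isOpen_lt (by fun_prop) continuous_const
  have h2 : IsOpen (⋂ c ∈ b.2.2,
      {p : X × (Φ → ℝ) | (c.2.1 : ℝ) < p.2 c.1 ∧ p.2 c.1 < (c.2.2 : ℝ)}) := by
    refine isOpen_biInter_finset fun c _ => ?_
    have hc : Continuous fun p : X × (Φ → ℝ) => p.2 c.1 := by fun_prop
    exact (isOpen_lt continuous_const hc).inter (isOpen_lt hc continuous_const)
  convert h1.inter h2 using 1
  ext p
  simp [boxSet]

theorem exists_box {X Φ : Type} [PseudoMetricSpace X] {W : Set (X × (Φ → ℝ))} (hW : IsOpen W)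
    {p : X × (Φ → ℝ)} (hp : p ∈ W) :
    ∃ b : Box X Φ, b.1 = p.1 ∧ p ∈ boxSet b ∧ boxSet b ⊆ W := by
  classical
  obtain ⟨u, v, hu, hv, hpu, hpv, huv⟩ := isOpen_prod_iff.1 hW p.1 p.2 hp
  obtain ⟨ε, hε, hball⟩ := Metric.isOpen_iff.1 hu p.1 hpu
  obtain ⟨r, hr0, hrε⟩ := exists_rat_btwn hε
  obtain ⟨I, w, hw, hI⟩ := isOpen_pi_iff.1 hv p.2 hpv
  have hint : ∀ a, ∃ lo hi : ℚ, a ∈ I →
      ((lo : ℝ) < p.2 a ∧ p.2 a < (hi : ℝ)) ∧ Ioo (lo : ℝ) (hi : ℝ) ⊆ w a := by
    intro a
    by_cases ha : a ∈ I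
    · obtain ⟨l, m, hlm, hsub⟩ := mem_nhds_iff_exists_Ioo_subset.1 ((hw a ha).1.mem_nhds (hw a ha).2)
      obtain ⟨lo, h1, h2⟩ := exists_rat_btwn hlm.1
      obtain ⟨hi, h3, h4⟩ := exists_rat_btwn hlm.2
      exact ⟨lo, hi, fun _ => ⟨⟨h2, h3⟩, (Ioo_subset_Ioo h1.le h4.le).trans hsub⟩⟩
    · exact ⟨0, 0, fun h => absurd h ha⟩
  choose lo hi hlohi using hint
  refine ⟨(p.1, r, I.image fun a => (a, lo a, hi a)), rfl, ⟨by simpa using hr0, ?_⟩, ?_⟩
  · intro c hc
    obtain ⟨a, ha, rfl⟩ := Finset.mem_image.1 hc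
    exact (hlohi a ha).1
  · rintro q ⟨h1, h2⟩
    apply huv
    refine ⟨hball (lt_trans h1 hrε), hI fun a ha => ?_⟩
    exact (hlohi a ha).2 (h2 (a, lo a, hi a) (Finset.mem_image_of_mem _ ha))

/-- Membership in a box depends only on the coordinates named in its code. -/
theorem mem_boxSet_congr {X Φ : Type} [PseudoMetricSpace X] {b : Box X Φ} {x : X}
    {s t : Φ → ℝ} (h : ∀ c ∈ b.2.2, s c.1 = t c.1) (hs : (x, s) ∈ boxSet b) :
    (x, t) ∈ boxSet b :=
  ⟨hs.1, fun c hc => by have := hs.2 c hc; simp only [h c hc] at this; exact this⟩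

/-- The G-delta set coded by a sequence of labelled boxes. -/
def taskSet {X Φ : Type} [PseudoMetricSpace X] (τ : ℕ → ℕ × Box X Φ) : Set (X × (Φ → ℝ)) :=
  {p | ∀ k, ∃ j, (τ j).1 = k ∧ p ∈ boxSet (τ j).2}

/-- A coded set is large if its projection is in no span of fewer than continuum many vectors. -/
def Large {X Φ : Type} [NormedAddCommGroup X] [NormedSpace ℝ X] (τ : ℕ → ℕ × Box X Φ) : Prop :=
  ∀ s : Set X, #s < 𝔠 → ∃ p ∈ taskSet τ, p.1 ∉ Submodule.span ℝ s

theorem exists_map_meeting {X Φ : Type} [NormedAddCommGroup X] [NormedSpace ℝ X]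
    [Nonempty Φ] (hX : #X ≤ 𝔠) (hΦ : #Φ ≤ 𝔠) (θ : Φ → X →ₗ[ℝ] ℝ) :
    ∃ L : X →ₗ[ℝ] (Φ → ℝ), (∀ τ : ℕ → ℕ × Box X Φ, Large τ → ∃ x, (x, L x) ∈ taskSet τ) ∧
      ∀ x, {a | L x a ≠ θ a x}.Countable := by
  classical
  have hc : (𝔠 : Cardinal.{0}) * 𝔠 = 𝔠 := by simp
  have hQ : #ℚ ≤ 𝔠 := by simp [aleph0_le_continuum]
  have hN : #ℕ ≤ 𝔠 := by simp [aleph0_le_continuum]
  have hprod : ∀ {A B : Type}, #A ≤ 𝔠 → #B ≤ 𝔠 → #(A × B) ≤ 𝔠 := by
    intro A B hA hB
    rw [Cardinal.mk_prod, lift_id, lift_id, ← hc]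
    exact mul_le_mul' hA hB
  have hB : #(ℕ × Box X Φ) ≤ 𝔠 := by
    refine hprod hN (hprod hX (hprod hQ ?_))
    rw [Cardinal.mk_finset_of_infinite]
    exact hprod hΦ (hprod hQ hQ)
  have hT : #(ℕ → ℕ × Box X Φ) ≤ 𝔠 := by
    rw [← Cardinal.power_def, Cardinal.mk_nat, ← Cardinal.continuum_power_aleph0]
    exact Cardinal.power_le_power_right hB
  let T := {τ : ℕ → ℕ × Box X Φ // Large τ}
  obtain ⟨z, hz, hli⟩ := indep_select (ι := T) (fun τ => Prod.fst '' taskSet τ.1)
    ((Cardinal.mk_subtype_le _).trans hT) (fun τ s hs => by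
      obtain ⟨p, hp, hps⟩ := τ.2 s hs
      exact ⟨p.1, ⟨p, hp, rfl⟩, hps⟩)
  choose p hp hpz using hz
  let C : T → Set Φ := fun τ => ⋃ j, Prod.fst '' ((τ.1 j).2.2.2 : Set (Φ × ℚ × ℚ))
  have hC : ∀ τ, (C τ).Countable := fun τ =>
    countable_iUnion fun j => (Finset.countable_toSet _).image _
  obtain ⟨L, hL, hcount⟩ := exists_functionals z hli C hC (fun τ => (p τ).2) θ
  refine ⟨L, fun τ hτ => ⟨z ⟨τ, hτ⟩, fun k => ?_⟩, hcount⟩
  obtain ⟨j, hj, hmem⟩ := hp ⟨τ, hτ⟩ k
  refine ⟨j, hj, mem_boxSet_congr (s := (p ⟨τ, hτ⟩).2) (fun c hc => ?_) ?_⟩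
  · exact (hL ⟨τ, hτ⟩ c.1 (mem_iUnion.2 ⟨j, c, hc, rfl⟩)).symm
  · rw [← hpz ⟨τ, hτ⟩]; exact hmem

section Baire

variable {X Φ : Type} [NormedAddCommGroup X] [NormedSpace ℝ X]

theorem graph_meets_box (hbig : ∀ s : Set X, #s < 𝔠 → Submodule.span ℝ s ≠ ⊤)
    {L : X →ₗ[ℝ] (Φ → ℝ)}
    (hL : ∀ τ : ℕ → ℕ × Box X Φ, Large τ → ∃ x, (x, L x) ∈ taskSet τ)
    (b : Box X Φ) (hb : (boxSet b).Nonempty) : ∃ x, (x, L x) ∈ boxSet b := by
  obtain ⟨p, hp⟩ := hb
  have : Large (fun j : ℕ => (j, b)) := by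
    intro s hs
    by_contra hcon
    push Not at hcon
    apply hbig s hs
    apply Submodule.eq_top_of_nonempty_interior'
    refine ⟨p.1, mem_interior.2 ⟨Metric.ball b.1 b.2.1, fun y hy => ?_, Metric.isOpen_ball, hp.1⟩⟩
    exact hcon (y, p.2) fun k => ⟨k, rfl, hy, hp.2⟩
  obtain ⟨x, hx⟩ := hL _ this
  obtain ⟨_, _, h⟩ := hx 0
  exact ⟨x, h⟩

/-- The vectors and coordinates named in the code of a box. -/
noncomputable def boxData (b : Box X Φ) : Finset (X ⊕ Φ) := by
  classical exact insert (Sum.inl b.1) (b.2.2.image fun c => Sum.inr c.1)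

omit [NormedAddCommGroup X] [NormedSpace ℝ X] in
theorem boxData_subset_iff (b : Box X Φ) (A : Set (X ⊕ Φ)) :
    (↑(boxData b) : Set (X ⊕ Φ)) ⊆ A ↔ Sum.inl b.1 ∈ A ∧ ∀ c ∈ b.2.2, Sum.inr c.1 ∈ A := by
  classical
  unfold boxData
  simp only [Finset.coe_insert, Finset.coe_image, insert_subset_iff, image_subset_iff]
  rfl

omit [NormedAddCommGroup X] [NormedSpace ℝ X] in
theorem countable_boxes {A : Set (X ⊕ Φ)} (hA : A.Countable) :
    {b : Box X Φ | (↑(boxData b) : Set (X ⊕ Φ)) ⊆ A}.Countable := by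
  have h1 : (Sum.inl ⁻¹' A : Set X).Countable := hA.preimage Sum.inl_injective
  have h2 : (Sum.inr ⁻¹' A : Set Φ).Countable := hA.preimage Sum.inr_injective
  have h3 : ((Sum.inr ⁻¹' A : Set Φ) ×ˢ (univ : Set (ℚ × ℚ))).Countable :=
    h2.prod countable_univ
  have h4 : {s : Finset (Φ × ℚ × ℚ) |
      (↑s : Set (Φ × ℚ × ℚ)) ⊆ (Sum.inr ⁻¹' A : Set Φ) ×ˢ (univ : Set (ℚ × ℚ))}.Countable := by
    refine ((Set.countable_ofPred_finite_subset h3).preimage_of_injOn
      (f := fun s : Finset (Φ × ℚ × ℚ) => (↑s : Set (Φ × ℚ × ℚ)))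
      (Finset.coe_injective.injOn)).mono ?_
    intro s hs
    exact ⟨s.finite_toSet, hs⟩
  refine (h1.prod ((countable_univ (α := ℚ)).prod h4)).mono ?_
  intro b hb
  obtain ⟨hb1, hb2⟩ := (boxData_subset_iff b A).1 hb
  exact ⟨hb1, mem_univ _, fun c hc => ⟨hb2 c hc, mem_univ _⟩⟩

theorem baireSpace_graph [CompleteSpace X] {S : Set X} (hS : IsSeparable S)
    (hbig : ∀ s : Set X, #s < 𝔠 → ¬ S ⊆ Submodule.span ℝ s)
    {L : X →ₗ[ℝ] (Φ → ℝ)}
    (hL : ∀ τ : ℕ → ℕ × Box X Φ, Large τ → ∃ x, (x, L x) ∈ taskSet τ) :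
    BaireSpace L.graph := by
  classical
  have hbig' : ∀ s : Set X, #s < 𝔠 → Submodule.span ℝ s ≠ ⊤ := fun s hs h =>
    hbig s hs (by rw [h]; exact subset_univ _)
  refine baire_of_nonempty fun G ho hd => ?_
  -- responses
  have hresp : ∀ (k : ℕ) (b : Box X Φ), ∃ b' : Box X Φ, (boxSet b).Nonempty →
      ((b'.1, L b'.1) ∈ boxSet b ∧ (b'.1, L b'.1) ∈ boxSet b' ∧
        ∀ e : L.graph, e.1 ∈ boxSet b' → e ∈ G k) := by
    intro k b
    by_cases hb : (boxSet b).Nonempty
    · obtain ⟨x, hx⟩ := graph_meets_box hbig' hL b hb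
      obtain ⟨e, he1, he2⟩ := (hd k).inter_open_nonempty (Subtype.val ⁻¹' boxSet b)
        ((isOpen_boxSet b).preimage continuous_subtype_val) ⟨⟨(x, L x), by simp⟩, hx⟩
      obtain ⟨W, hW, hWG⟩ := isOpen_induced_iff.1 (ho k)
      have heW : e.1 ∈ W := by rw [← hWG] at he2; exact he2
      obtain ⟨b', h1, h2, h3⟩ := exists_box hW heW
      have he : (b'.1, L b'.1) = e.1 := by
        have := (LinearMap.mem_graph_iff L e.1).1 e.2
        rw [h1, ← this]
      refine ⟨b', fun _ => ⟨by rw [he]; exact he1, by rw [he]; exact h2, fun e' he' => ?_⟩⟩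
      rw [← hWG]; exact h3 he'
    · exact ⟨b, fun h => absurd h hb⟩
  choose resp hresp using hresp
  obtain ⟨D₀, hD₀c, hSD₀⟩ := hS
  let R : Finset (X ⊕ Φ) → Set (X ⊕ Φ) := fun s =>
    (Sum.inl '' insert 0 D₀ ∪
      (fun q : X × X => Sum.inl (q.1 - q.2)) ''
        ((Sum.inl ⁻¹' (↑s : Set (X ⊕ Φ))) ×ˢ (Sum.inl ⁻¹' (↑s : Set (X ⊕ Φ))))) ∪
      ⋃ k : ℕ, ⋃ b ∈ {b : Box X Φ | (↑(boxData b) : Set (X ⊕ Φ)) ⊆ ↑s},
        (↑(boxData (resp k b)) : Set (X ⊕ Φ))
  have hR : ∀ s, (R s).Countable := by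
    intro s
    have h1 : (Sum.inl ⁻¹' (↑s : Set (X ⊕ Φ)) : Set X).Countable :=
      s.countable_toSet.preimage Sum.inl_injective
    refine (((hD₀c.insert 0).image _).union ((h1.prod h1).image _)).union ?_
    exact countable_iUnion fun k => Set.Countable.biUnion (countable_boxes s.countable_toSet)
      fun b _ => Finset.countable_toSet _
  obtain ⟨A, hAc, hA⟩ := closing_off R hR
  have hA0 : ∀ x ∈ insert 0 D₀, Sum.inl x ∈ A := fun x hx =>
    hA ∅ (by simp) (Or.inl (Or.inl ⟨x, hx, rfl⟩))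
  have hAsub : ∀ x y : X, Sum.inl x ∈ A → Sum.inl y ∈ A → Sum.inl (x - y) ∈ A := by
    intro x y hx hy
    refine hA {Sum.inl x, Sum.inl y} ?_ (Or.inl (Or.inr ⟨(x, y), ⟨by simp, by simp⟩, rfl⟩))
    simp [insert_subset_iff, hx, hy]
  have hAresp : ∀ k (b : Box X Φ), (↑(boxData b) : Set (X ⊕ Φ)) ⊆ A →
      (↑(boxData (resp k b)) : Set (X ⊕ Φ)) ⊆ A := by
    intro k b hb y hy
    refine hA (boxData b) hb (Or.inr ?_)
    exact mem_iUnion.2 ⟨k, mem_biUnion (show b ∈ {b' : Box X Φ |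
      (↑(boxData b') : Set (X ⊕ Φ)) ⊆ ↑(boxData b)} from Subset.rfl) hy⟩
  let D : AddSubgroup X := AddSubgroup.ofSub (Sum.inl ⁻¹' A) ⟨0, hA0 0 (mem_insert _ _)⟩
    fun x hx y hy => by rw [← sub_eq_add_neg]; exact hAsub x y hx hy
  have hD : ∀ x, x ∈ D ↔ Sum.inl x ∈ A := fun x => Iff.rfl
  let C : Set Φ := Sum.inr ⁻¹' A
  have hCc : Countable C := (hAc.preimage Sum.inr_injective).to_subtype
  let H : AddSubgroup X := D.topologicalClosure
  have hHc : IsClosed (H : Set X) := D.isClosed_topologicalClosure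
  have : CompleteSpace H := hHc.completeSpace_coe
  let B : Set (Box X Φ) := {b | (↑(boxData b) : Set (X ⊕ Φ)) ⊆ A ∧ (boxSet b).Nonempty}
  have hBc : B.Countable := (countable_boxes hAc).mono fun b hb => hb.1
  have hBne : B.Nonempty := by
    refine ⟨(0, 1, ∅), (boxData_subset_iff _ _).2 ⟨hA0 0 (mem_insert _ _), by simp⟩, (0, 0), ?_⟩
    simp [boxSet]
  obtain ⟨τ, hτ⟩ := (((countable_univ (α := ℕ)).prod hBc).image
    (fun q : ℕ × Box X Φ => (q.1, resp q.1 q.2))).exists_eq_range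
    ((univ_nonempty.prod hBne).image _)
  have hτ1 : ∀ j, ∃ b ∈ B, (τ j).2 = resp (τ j).1 b := by
    intro j
    have : τ j ∈ range τ := mem_range_self j
    rw [← hτ] at this
    obtain ⟨q, hq, hqj⟩ := this
    exact ⟨q.2, hq.2, by rw [← hqj]⟩
  have hτ2 : ∀ k, ∀ b ∈ B, ∃ j, τ j = (k, resp k b) := by
    intro k b hb
    have : (k, resp k b) ∈ range τ := by
      rw [← hτ]; exact ⟨(k, b), ⟨mem_univ _, hb⟩, rfl⟩
    exact this
  have hlarge : Large τ := by
    intro s hs
    by_contra hcon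
    push Not at hcon
    refine hbig s hs fun g hg => ?_
    have hgH : g ∈ H := by
      have : closure D₀ ⊆ closure (D : Set X) :=
        closure_mono fun x hx => hA0 x (mem_insert_of_mem _ hx)
      exact this (hSD₀ hg)
    let J : H × (C → ℝ) → X × (Φ → ℝ) := fun y =>
      (y.1.1, fun a => if h : a ∈ C then y.2 ⟨a, h⟩ else 0)
    have hJ : Continuous J := by
      refine (continuous_subtype_val.comp continuous_fst).prodMk (continuous_pi fun a => ?_)
      by_cases h : a ∈ C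
      · simp only [dif_pos h]; fun_prop
      · simp only [dif_neg h]; exact continuous_const
    let V : ℕ → Set (H × (C → ℝ)) := fun k => J ⁻¹' ⋃ b ∈ B, boxSet (resp k b)
    have hVo : ∀ k, IsOpen (V k) := fun k =>
      (isOpen_biUnion fun b _ => isOpen_boxSet _).preimage hJ
    have hVd : ∀ k, Dense (V k) := by
      intro k
      rw [dense_iff_inter_open]
      rintro W hW ⟨p₀, hp₀⟩
      have hDd : Dense (Subtype.val ⁻¹' (D : Set X) : Set H) := by
        rw [Subtype.dense_iff]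
        refine closure_mono (s := (D : Set X)) fun x hx => ?_
        exact ⟨⟨x, D.le_topologicalClosure hx⟩, hx, rfl⟩
      obtain ⟨h, hh1, hh2⟩ := hDd.inter_open_nonempty ((fun h : H => (h, p₀.2)) ⁻¹' W)
        (hW.preimage (by fun_prop)) ⟨p₀.1, hp₀⟩
      obtain ⟨b₀, hb1, hb2, hb3⟩ := exists_box hW (p := (h, p₀.2)) hh1
      let b : Box X Φ := (b₀.1.1, b₀.2.1, b₀.2.2.image fun c => (c.1.1, c.2))
      have hbB : b ∈ B := by
        refine ⟨(boxData_subset_iff _ _).2 ⟨?_, fun c hc => ?_⟩, J (h, p₀.2), ?_, fun c hc => ?_⟩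
        · show Sum.inl b₀.1.1 ∈ A
          rw [hb1]; exact hh2
        · obtain ⟨c₀, -, rfl⟩ := Finset.mem_image.1 hc
          exact c₀.1.2
        · exact hb2.1
        · obtain ⟨c₀, hc₀, rfl⟩ := Finset.mem_image.1 hc
          have := hb2.2 c₀ hc₀
          simpa [J] using this
      obtain ⟨r1, r2, -⟩ := hresp k b hbB.2
      obtain ⟨d1, d2⟩ := (boxData_subset_iff _ _).1 (hAresp k b hbB.1)
      have hx' : (resp k b).1 ∈ H := D.le_topologicalClosure ((hD _).2 d1)
      refine ⟨(⟨(resp k b).1, hx'⟩, fun a => L (resp k b).1 a.1), hb3 ⟨r1.1, fun c hc => ?_⟩, ?_⟩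
      · exact r1.2 (c.1.1, c.2) (Finset.mem_image_of_mem (fun c : C × ℚ × ℚ => (c.1.1, c.2)) hc)
      · refine mem_biUnion hbB (mem_boxSet_congr (s := L (resp k b).1) (fun c hc => ?_) r2)
        have : c.1 ∈ C := d2 c hc
        simp [this]
    let v : H × (C → ℝ) := (⟨g, hgH⟩, 0)
    have hdense : Dense (⋂ k, V k ∩ (Homeomorph.subRight v) ⁻¹' V k) :=
      dense_iInter_of_isOpen
        (fun k => (hVo k).inter ((hVo k).preimage (Homeomorph.subRight v).continuous))
        (fun k => (hVd k).inter_of_isOpen_left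
          ((hVd k).preimage (Homeomorph.subRight v).isOpenMap) (hVo k))
    obtain ⟨y, hy⟩ := hdense.nonempty
    have key : ∀ y' : H × (C → ℝ), (∀ k, y' ∈ V k) → y'.1.1 ∈ Submodule.span ℝ s := by
      intro y' hy'
      refine hcon (J y') fun k => ?_
      obtain ⟨b, hb, hmem⟩ := mem_iUnion₂.1 (hy' k)
      obtain ⟨j, hj⟩ := hτ2 k b hb
      exact ⟨j, by rw [hj], by rw [hj]; exact hmem⟩
    have h1 := key y fun k => (mem_iInter.1 hy k).1
    have h2 := key (y - v) fun k => (mem_iInter.1 hy k).2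
    have h3 := Submodule.sub_mem _ h1 h2
    simpa [v] using h3
  obtain ⟨x, hx⟩ := hL τ hlarge
  refine ⟨⟨(x, L x), by simp⟩, mem_iInter.2 fun k => ?_⟩
  obtain ⟨j, hj, hmem⟩ := hx k
  obtain ⟨b, hb, hjb⟩ := hτ1 j
  rw [hjb, hj] at hmem
  exact (hresp k b hb.2).2.2 _ hmem

end Baire

end Pool.Agent.MP_e733ef_an

end MrgPart1

-- ======== part 2: formerly Pool.Agent.MP_e733ef_an.Space
section MrgPart2

/-!
Bounded sets of the graph are finite dimensional; separability of the strong dual; the space of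
bounded real sequences and the upper limit.
-/

open Cardinal Set TopologicalSpace Filter Topology BoundedContinuousFunction

namespace Pool.Agent.MP_e733ef_an

/-- A Baire graph in which every bounded set spans a finite-dimensional subspace. -/
theorem exists_graph {X : Type} [NormedAddCommGroup X] [NormedSpace ℝ X] [CompleteSpace X]
    (hX : #X ≤ 𝔠) {S : Set X} (hS : IsSeparable S)
    (hbig : ∀ s : Set X, #s < 𝔠 → ¬ S ⊆ Submodule.span ℝ s) :
    ∃ (Φ : Type) (L : X →ₗ[ℝ] (Φ → ℝ)), BaireSpace L.graph ∧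
      ∀ B : Set L.graph, Bornology.IsVonNBounded ℝ B →
        FiniteDimensional ℝ (Submodule.span ℝ B) := by
  classical
  have hθ : ∀ s : ℕ → X, ∃ θ : X →ₗ[ℝ] ℝ, LinearIndependent ℝ s → ∀ n, θ (s n) = n := by
    intro s
    by_cases hs : LinearIndependent ℝ s
    · obtain ⟨π, hπ⟩ := (Finsupp.linearCombination ℝ s).exists_leftInverse_of_injective
        (LinearMap.ker_eq_bot.2 hs)
      refine ⟨(Finsupp.linearCombination ℝ fun n : ℕ => (n : ℝ)) ∘ₗ π, fun _ n => ?_⟩
      have := LinearMap.congr_fun hπ (Finsupp.single n 1)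
      have h2 : π (s n) = Finsupp.single n 1 := by simpa using this
      simp [h2]
    · exact ⟨0, fun h => absurd h hs⟩
  choose θ hθ using hθ
  have hΦ : #((ℕ → X) × ℝ) ≤ 𝔠 := by
    have h1 : #(ℕ → X) ≤ 𝔠 := by
      rw [← Cardinal.power_def, Cardinal.mk_nat, ← Cardinal.continuum_power_aleph0]
      exact Cardinal.power_le_power_right hX
    rw [Cardinal.mk_prod, lift_id, lift_id, Cardinal.mk_real]
    calc #(ℕ → X) * 𝔠 ≤ 𝔠 * 𝔠 := mul_le_mul' h1 le_rfl
      _ = 𝔠 := by simp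
  obtain ⟨L, hL, hcount⟩ := exists_map_meeting (Φ := (ℕ → X) × ℝ) hX hΦ (fun a => θ a.1)
  refine ⟨_, L, baireSpace_graph hS hbig hL, fun B hB => ?_⟩
  obtain ⟨b, hbB, hspan, hli⟩ := exists_linearIndependent ℝ B
  by_cases hfin : b.Finite
  · rw [← hspan]
    exact FiniteDimensional.span_of_finite ℝ hfin
  exfalso
  let emb : ℕ ↪ b := Set.Infinite.natEmbedding b hfin
  let P : L.graph →ₗ[ℝ] X := (LinearMap.fst ℝ X _) ∘ₗ L.graph.subtype
  have hgr : ∀ e : L.graph, e.1.2 = L e.1.1 := fun e => (LinearMap.mem_graph_iff L e.1).1 e.2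
  have hP : LinearMap.ker P = ⊥ := by
    rw [LinearMap.ker_eq_bot']
    intro e he
    have h1 : e.1.1 = 0 := he
    have h2 : e.1.2 = 0 := by rw [hgr e, h1, map_zero]
    exact Subtype.ext (Prod.ext h1 h2)
  let s : ℕ → X := fun n => P (emb n).1
  have hs : LinearIndependent ℝ s := (hli.comp emb emb.injective).map' P hP
  have hbad : (⋃ n, (fun r : ℝ => (s, r)) ⁻¹' {a | L (s n) a ≠ θ a.1 (s n)}).Countable :=
    countable_iUnion fun n => (hcount (s n)).preimage (Prod.mk_right_injective s)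
  obtain ⟨r, hr⟩ : ∃ r : ℝ,
      r ∉ ⋃ n, (fun r : ℝ => (s, r)) ⁻¹' {a | L (s n) a ≠ θ a.1 (s n)} := by
    by_contra hcon
    push Not at hcon
    exact Cardinal.not_countable_real (hbad.mono fun r _ => hcon r)
  have hr' : ∀ n, L (s n) (s, r) = n := by
    intro n
    rw [← hθ s hs n]
    by_contra hne
    exact hr (mem_iUnion.2 ⟨n, hne⟩)
  let ev : L.graph →L[ℝ] ℝ :=
    (ContinuousLinearMap.proj (s, r)) ∘L (ContinuousLinearMap.snd ℝ X _) ∘L L.graph.subtypeL
  have hb := (NormedSpace.isVonNBounded_iff ℝ).1 (hB.image ev)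
  obtain ⟨C, hC⟩ := hb.exists_norm_le
  obtain ⟨n, hn⟩ := exists_nat_gt C
  have h1 := hC (ev (emb n).1) ⟨_, hbB (emb n).2, rfl⟩
  have h2 : ev (emb n).1 = n := by
    rw [← hr' n]
    exact congrFun (hgr (emb n).1) (s, r)
  rw [h2, Real.norm_natCast] at h1
  linarith

/-- The same, as a finer locally convex topology on `X`. -/
theorem exists_space {X : Type} [NormedAddCommGroup X] [NormedSpace ℝ X] [CompleteSpace X]
    (hX : #X ≤ 𝔠) {S : Set X} (hS : IsSeparable S)
    (hbig : ∀ s : Set X, #s < 𝔠 → ¬ S ⊆ Submodule.span ℝ s) :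
    ∃ (E : Type) (_ : AddCommGroup E) (_ : Module ℝ E) (_ : TopologicalSpace E)
      (_ : IsTopologicalAddGroup E) (_ : ContinuousSMul ℝ E),
      LocallyConvexSpace ℝ E ∧ T2Space E ∧ BaireSpace E ∧
      (∀ B : Set E, Bornology.IsVonNBounded ℝ B → FiniteDimensional ℝ (Submodule.span ℝ B)) ∧
      ∃ P : E →L[ℝ] X, Function.Bijective P := by
  obtain ⟨Φ, L, hB, hfd⟩ := exists_graph hX hS hbig
  have hgr : ∀ e : L.graph, e.1.2 = L e.1.1 := fun e => (LinearMap.mem_graph_iff L e.1).1 e.2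
  refine ⟨L.graph, inferInstance, inferInstance, inferInstance, inferInstance, inferInstance,
    inferInstance, inferInstance, hB, hfd,
    (ContinuousLinearMap.fst ℝ _ _) ∘L L.graph.subtypeL, fun e e' h => ?_,
    fun x => ⟨⟨(x, L x), by simp⟩, rfl⟩⟩
  have h1 : e.1.1 = e'.1.1 := h
  exact Subtype.ext (Prod.ext h1 (by rw [hgr e, hgr e', h1]))

/-- If bounded sets are finite dimensional and countably many functionals separate points, the
strong dual is separable. -/
theorem separable_strongDual {E : Type} [AddCommGroup E] [Module ℝ E] [TopologicalSpace E]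
    (hfd : ∀ B : Set E, Bornology.IsVonNBounded ℝ B → FiniteDimensional ℝ (Submodule.span ℝ B))
    (c : ℕ → StrongDual ℝ E) (hc : ∀ x, (∀ n, c n x = 0) → x = 0) :
    SeparableSpace (StrongDual ℝ E) := by
  rw [← isSeparable_univ_iff]
  refine ((countable_range c).isSeparable.span (R := ℝ)).closure.mono fun φ _ => ?_
  rw [mem_closure_iff_nhds_zero]
  intro U hU
  obtain ⟨⟨B, V⟩, ⟨hB, hV⟩, hsub⟩ := ContinuousLinearMap.hasBasis_nhds_zero.mem_iff.1 hU
  have := hfd B hB
  let F := Submodule.span ℝ B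
  let ρ : StrongDual ℝ E →ₗ[ℝ] (F →ₗ[ℝ] ℝ) :=
    (LinearMap.lcomp ℝ ℝ F.subtype) ∘ₗ (ContinuousLinearMap.coeLM ℝ)
  have hρ : ∀ (ψ : StrongDual ℝ E) (x : F), ρ ψ x = ψ x.1 := fun _ _ => rfl
  have h1 : ρ φ ∈ Submodule.span ℝ (range fun n => ρ (c n)) := by
    refine FiniteDimensional.mem_span_of_iInf_ker_le_ker fun x hx => ?_
    have hx0 : x.1 = 0 := hc x.1 fun n => by
      have := (Submodule.mem_iInf _).1 hx n
      exact this
    rw [LinearMap.mem_ker, hρ, hx0, map_zero]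
  have h2 : (range fun n => ρ (c n)) = ρ '' range c := by rw [← range_comp]; rfl
  rw [h2, ← Submodule.map_span] at h1
  obtain ⟨ψ, hψ, hψφ⟩ := h1
  refine ⟨ψ, hψ, hsub fun x hx => ?_⟩
  have h3 : ψ x = φ x := by
    have := LinearMap.congr_fun hψφ ⟨x, Submodule.subset_span hx⟩
    exact this
  simp only [_root_.sub_apply, h3, sub_self]
  exact mem_of_mem_nhds hV

theorem card_bdd : #(ℕ →ᵇ ℝ) ≤ 𝔠 := by
  have h : #(ℕ →ᵇ ℝ) ≤ #(ℕ → ℝ) := Cardinal.mk_le_of_injective DFunLike.coe_injective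
  rwa [← Cardinal.power_def, Cardinal.mk_nat, Cardinal.mk_real,
    Cardinal.continuum_power_aleph0] at h

theorem exists_big_separable : ∃ S : Set (ℕ →ᵇ ℝ), IsSeparable S ∧
    ∀ s : Set (ℕ →ᵇ ℝ), #s < 𝔠 → ¬ S ⊆ Submodule.span ℝ s := by
  classical
  let e : ℕ → ℕ →ᵇ ℝ := fun n =>
    ofNormedAddCommGroupDiscrete (fun m => if m = n then (1 : ℝ) else 0) 1 fun m => by
      split_ifs <;> simp
  have he : ∀ n, ‖e n‖ ≤ 1 := fun n => (norm_le zero_le_one).2 fun m => by
    simp only [e, coe_ofNormedAddCommGroupDiscrete]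
    split_ifs <;> simp
  let M := (Submodule.span ℝ (range e)).topologicalClosure
  refine ⟨M, ((countable_range e).isSeparable.span (R := ℝ)).closure, fun s hs hsub => ?_⟩
  let g : Ioo (0 : ℝ) 1 → ℕ →ᵇ ℝ := fun r => ∑' n, (r.1 ^ n) • e n
  have hsum : ∀ r : Ioo (0 : ℝ) 1, Summable fun n => (r.1 ^ n) • e n := by
    intro r
    refine Summable.of_norm_bounded (summable_geometric_of_lt_one r.2.1.le r.2.2) fun n => ?_
    rw [norm_smul, Real.norm_of_nonneg (pow_nonneg r.2.1.le n)]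
    exact mul_le_of_le_one_right (pow_nonneg r.2.1.le n) (he n)
  have hgM : ∀ r, g r ∈ M := fun r =>
    tsum_mem (Submodule.isClosed_topologicalClosure _) fun n =>
      Submodule.smul_mem _ _ (Submodule.le_topologicalClosure _
        (Submodule.subset_span (mem_range_self n)))
  have hg : ∀ r m, g r m = r.1 ^ m := by
    intro r m
    have := (evalCLM ℝ m).map_tsum (hsum r)
    simp only [evalCLM_apply] at this
    rw [show g r m = _ from this]
    rw [tsum_eq_single m]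
    · simp [e]
    · intro n hn
      simp [e, Ne.symm hn]
  let T : (ℕ →ᵇ ℝ) →ₗ[ℝ] (Multiplicative ℕ → ℝ) :=
    LinearMap.pi fun n => (evalCLM ℝ n.toAdd : (ℕ →ᵇ ℝ) →L[ℝ] ℝ).toLinearMap
  have hli : LinearIndependent ℝ g := by
    apply LinearIndependent.of_comp T
    have h1 := (linearIndependent_monoidHom (Multiplicative ℕ) ℝ).comp
      (fun r : Ioo (0 : ℝ) 1 => powersHom ℝ r.1)
      ((powersHom ℝ).injective.comp Subtype.val_injective)
    have h2 : (T ∘ g) = ((fun f => f : (Multiplicative ℕ →* ℝ) → Multiplicative ℕ → ℝ) ∘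
        fun r : Ioo (0 : ℝ) 1 => powersHom ℝ r.1) := by
      ext r n
      simp [T, hg]
    rw [h2]
    exact h1
  let v : Ioo (0 : ℝ) 1 → Submodule.span ℝ s := fun r => ⟨g r, hsub (hgM r)⟩
  have hv : LinearIndependent ℝ v := LinearIndependent.of_comp (Submodule.span ℝ s).subtype hli
  have h1 := hv.cardinal_le_rank.trans (rank_span_le s)
  rw [Cardinal.mk_Ioo_real zero_lt_one] at h1
  exact absurd hs (not_lt.2 h1)

/-- The upper limit of a bounded real sequence. -/
noncomputable def upper (x : ℕ →ᵇ ℝ) : ℝ := limsup x atTop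

theorem bdd_above (x : ℕ →ᵇ ℝ) : IsBoundedUnder (· ≤ ·) atTop x :=
  isBoundedUnder_of ⟨‖x‖, fun n => (le_abs_self _).trans (x.norm_coe_le_norm n)⟩

theorem bdd_below (x : ℕ →ᵇ ℝ) : IsBoundedUnder (· ≥ ·) atTop x :=
  isBoundedUnder_of ⟨-‖x‖, fun n => (abs_le.1 (x.norm_coe_le_norm n)).1⟩

theorem upper_le {x : ℕ →ᵇ ℝ} {c : ℝ} (h : ∀ ε > 0, ∀ᶠ n in atTop, x n ≤ c + ε) :
    upper x ≤ c :=
  le_of_forall_pos_le_add fun ε hε =>
    limsup_le_of_le (bdd_below x).isCoboundedUnder_le (h ε hε)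

theorem eventually_lt_upper (x : ℕ →ᵇ ℝ) {ε : ℝ} (hε : 0 < ε) :
    ∀ᶠ n in atTop, x n < upper x + ε :=
  eventually_lt_of_limsup_lt (lt_add_of_pos_right _ hε) (bdd_above x)

theorem continuous_upper : Continuous upper := by
  refine (LipschitzWith.of_le_add fun x y => upper_le fun ε hε => ?_).continuous
  filter_upwards [eventually_lt_upper y hε] with n hn
  have := (abs_le.1 (dist_coe_le_dist (f := x) (g := y) n)).2
  linarith

theorem convexOn_upper : ConvexOn ℝ univ upper := by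
  refine ⟨convex_univ, fun x _ y _ a b ha hb hab => upper_le fun ε hε => ?_⟩
  filter_upwards [eventually_lt_upper x hε, eventually_lt_upper y hε] with n h1 h2
  have h3 : ε = a * ε + b * ε := by rw [← add_mul, hab, one_mul]
  simp only [coe_add, coe_smul, Pi.add_apply, smul_eq_mul]
  nlinarith [mul_le_mul_of_nonneg_left h1.le ha, mul_le_mul_of_nonneg_left h2.le hb]

theorem le_upper {y : ℕ →ᵇ ℝ} {c : ℝ} (ψ : ℕ → ℕ) (hψ : ∀ k, k ≤ ψ k)
    (h : ∀ k : ℕ, c - 1 / ((k : ℝ) + 1) ≤ y (ψ k)) : c ≤ upper y := by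
  refine le_of_forall_pos_le_add fun ε hε => ?_
  rw [← sub_le_iff_le_add]
  refine le_limsup_of_frequently_le (frequently_atTop.2 fun N => ?_) (bdd_above y)
  obtain ⟨k, hk⟩ := ((tendsto_one_div_add_atTop_nhds_zero_nat.eventually
    (gt_mem_nhds hε)).and (eventually_ge_atTop N)).exists
  exact ⟨ψ k, hk.2.trans (hψ k), by linarith [h k, hk.1]⟩

/-- The upper limit has a corner at every point. -/
theorem exists_corner (x : ℕ →ᵇ ℝ) : ∃ h : ℕ →ᵇ ℝ, ∀ t : ℝ, 0 < t →
    upper x + t ≤ upper (x + t • h) ∧ upper x + t ≤ upper (x + (-t) • h) := by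
  classical
  have hfreq : ∀ k : ℕ, ∃ᶠ n in atTop, upper x - 1 / ((k : ℝ) + 1) < x n := fun k =>
    frequently_lt_of_lt_limsup (bdd_below x).isCoboundedUnder_le
      (sub_lt_self _ (by positivity))
  obtain ⟨φ, hφ, hP⟩ := extraction_forall_of_frequently hfreq
  let h : ℕ →ᵇ ℝ := ofNormedAddCommGroupDiscrete
    (fun n => if ∃ k, φ (2 * k) = n then (1 : ℝ) else -1) 1 fun m => by
      split_ifs <;> simp
  have hmono : ∀ k j : ℕ, k ≤ j → 1 / ((j : ℝ) + 1) ≤ 1 / ((k : ℝ) + 1) := fun k j hkj =>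
    one_div_le_one_div_of_le (by positivity) (by exact_mod_cast Nat.succ_le_succ hkj)
  refine ⟨h, fun t _ => ⟨?_, ?_⟩⟩
  · refine le_upper (fun k => φ (2 * k)) (fun k => le_trans (by omega) (hφ.le_apply (x := 2 * k)))
      fun k => ?_
    have h1 : h (φ (2 * k)) = 1 := if_pos ⟨k, rfl⟩
    have h2 := hP (2 * k)
    have h3 := hmono k (2 * k) (by omega)
    simp only [coe_add, coe_smul, Pi.add_apply, smul_eq_mul, h1]
    linarith
  · refine le_upper (fun k => φ (2 * k + 1))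
      (fun k => le_trans (by omega) (hφ.le_apply (x := 2 * k + 1))) fun k => ?_
    have h1 : h (φ (2 * k + 1)) = -1 := if_neg (by
      rintro ⟨j, hj⟩
      have := hφ.injective hj
      omega)
    have h2 := hP (2 * k + 1)
    have h3 := hmono k (2 * k + 1) (by omega)
    simp only [coe_add, coe_smul, Pi.add_apply, smul_eq_mul, h1]
    linarith

end Pool.Agent.MP_e733ef_an

end MrgPart2

-- marker of a merged file
example : 731051 + 206269 = 731051 + 206269 := rfl
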