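import Mathlib

/-!
Tools for the metrizable case: the Banach category theorem, the scale of bounded sets,
subgradients, local equicontinuity, and compactness of polars.
-/

open Set Filter Topology Bornology Pointwise

namespace Pool.Agent.MP_e733ef_an.Met

theorem residual_seq {X : Type*} [TopologicalSpace X] {s : Set X} (hs : s ∈ residual X) :
    ∃ O : ℕ → Set X, (∀ n, IsOpen (O n) ∧ Dense (O n)) ∧ ⋂ n, O n ⊆ s := by
  obtain ⟨S, h1, h2, h3, h4⟩ := mem_residual_iff.1 hs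
  obtain ⟨O, hO⟩ := (h3.insert univ).exists_eq_range (insert_nonempty _ _)
  have hm : ∀ n, O n ∈ insert univ S := fun n => hO ▸ mem_range_self n
  refine ⟨O, fun n => ?_, fun x hx => h4 fun t ht => ?_⟩
  · rcases hm n with h | h
    · rw [h]; exact ⟨isOpen_univ, dense_univ⟩
    · exact ⟨h1 _ h, h2 _ h⟩
  · have : t ∈ range O := hO ▸ mem_insert_of_mem _ ht
    obtain ⟨n, rfl⟩ := this
    exact mem_iInter.1 hx n

/-- The Banach category theorem. -/
theorem exists_everywhere {X : Type*} [TopologicalSpace X] {N : Set X} (hN : ¬ IsMeagre N) :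
    ∃ V, IsOpen V ∧ V.Nonempty ∧ ∀ W, IsOpen W → W.Nonempty → W ⊆ V → ¬ IsMeagre (N ∩ W) := by
  by_contra hcon
  push Not at hcon
  apply hN
  let F : Set (Set (Set X)) := {T | (∀ W ∈ T, IsOpen W ∧ W.Nonempty ∧ IsMeagre (N ∩ W)) ∧
    ∀ W ∈ T, ∀ W' ∈ T, (W ∩ W').Nonempty → W = W'}
  obtain ⟨T, hT⟩ := zorn_subset F (by
    intro c hc hch
    refine ⟨⋃₀ c, ⟨?_, ?_⟩, fun s hs => subset_sUnion_of_mem hs⟩
    · rintro W ⟨T, hTc, hW⟩
      exact (hc hTc).1 W hW
    · rintro W ⟨T, hTc, hW⟩ W' ⟨T', hTc', hW'⟩ hne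
      rcases hch.total hTc hTc' with h | h
      · exact (hc hTc').2 W (h hW) W' hW' hne
      · exact (hc hTc).2 W hW W' (h hW') hne)
  have hd : Dense (⋃₀ T) := by
    by_contra hnd
    have hne : (closure (⋃₀ T))ᶜ.Nonempty := by
      rw [nonempty_compl]
      exact fun h => hnd (dense_iff_closure_eq.2 h)
    obtain ⟨W, hWo, hWn, hWV, hWm⟩ := hcon _ isClosed_closure.isOpen_compl hne
    have hdis : ∀ W' ∈ T, ¬ (W ∩ W').Nonempty := by
      rintro W' hW' ⟨x, hx, hx'⟩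
      exact hWV hx (subset_closure ⟨W', hW', hx'⟩)
    have hin : insert W T ∈ F := by
      refine ⟨?_, ?_⟩
      · rintro W' (rfl | h)
        · exact ⟨hWo, hWn, hWm⟩
        · exact hT.prop.1 W' h
      · rintro W1 (rfl | h1) W2 (rfl | h2) hne
        · rfl
        · exact absurd hne (hdis _ h2)
        · exact absurd (inter_comm _ _ ▸ hne) (hdis _ h1)
        · exact hT.prop.2 W1 h1 W2 h2 hne
    have hWT : W ∈ T := hT.le_of_ge hin (subset_insert _ _) (mem_insert _ _)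
    exact hdis W hWT (by simpa using hWn)
  have hO : ∀ W : T, ∃ O : ℕ → Set X, (∀ n, IsOpen (O n) ∧ Dense (O n)) ∧
      ⋂ n, O n ⊆ (N ∩ W.1)ᶜ := fun W => residual_seq (hT.prop.1 W.1 W.2).2.2
  choose O hO1 hO2 using hO
  have hres : ∀ n, (⋃ W : T, W.1 ∩ O W n) ∈ residual X := by
    intro n
    refine residual_of_dense_open
      (isOpen_iUnion fun W => (hT.prop.1 W.1 W.2).1.inter (hO1 W n).1) ?_
    refine Dense.of_closure (hd.mono ?_)
    rintro x ⟨W, hW, hx⟩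
    refine closure_mono (subset_iUnion (fun W : T => W.1 ∩ O W n) ⟨W, hW⟩) ?_
    exact (hO1 ⟨W, hW⟩ n).2.open_subset_closure_inter (hT.prop.1 W hW).1 hx
  refine mem_of_superset (countable_iInter_mem.2 hres) fun x hx hxN => ?_
  have hx' : ∀ n, ∃ W : T, x ∈ W.1 ∧ x ∈ O W n := fun n => by
    simpa using mem_iInter.1 hx n
  obtain ⟨W0, hW0, -⟩ := hx' 0
  refine hO2 W0 (mem_iInter.2 fun n => ?_) ⟨hxN, hW0⟩
  obtain ⟨W, hW, hWO⟩ := hx' n
  have : W = W0 := Subtype.ext (hT.prop.2 W.1 W.2 W0.1 W0.2 ⟨x, hW, hW0⟩)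
  exact this ▸ hWO

variable {E : Type*} [AddCommGroup E] [Module ℝ E] [TopologicalSpace E]
  [IsTopologicalAddGroup E] [ContinuousSMul ℝ E]

omit [IsTopologicalAddGroup E] in
theorem exists_scale [FirstCountableTopology E] :
    ∃ S : ℕ → ℕ → Set E, (∀ n, Monotone (S n)) ∧
      ∀ B : Set E, IsVonNBounded ℝ B ↔ ∀ n, ∃ m, B ⊆ S n m := by
  obtain ⟨U, hU1, hU2⟩ := (nhds_basis_balanced ℝ E).exists_antitone_subbasis
  refine ⟨fun n m => ((m : ℝ) + 1) • U n, fun n m m' h => ?_, fun B => ?_⟩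
  · refine (hU1 n).2.smul_mono ?_
    have : (m : ℝ) ≤ m' := by exact_mod_cast h
    rw [Real.norm_of_nonneg (by positivity), Real.norm_of_nonneg (by positivity)]
    linarith
  · rw [hU2.toHasBasis.isVonNBounded_iff]
    refine forall_congr' fun n => ?_
    rw [absorbs_iff_norm]
    constructor
    · intro h
      obtain ⟨r, hr⟩ := h trivial
      refine ⟨⌈r⌉₊, hr _ ?_⟩
      rw [Real.norm_of_nonneg (by positivity)]
      linarith [Nat.le_ceil r]
    · rintro ⟨m, hm⟩ -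
      refine ⟨(m : ℝ) + 1, fun c hc => hm.trans ((hU1 n).2.smul_mono ?_)⟩
      rwa [Real.norm_of_nonneg (by positivity)]

/-- `φ` is a subgradient of `f` at `x` relative to `D`. -/
def Sub (D : Set E) (f : E → ℝ) (x : E) (φ : E →L[ℝ] ℝ) : Prop :=
  ∀ y ∈ D, φ (y - x) ≤ f y - f x

theorem exists_sub {D : Set E} (hDo : IsOpen D) {f : E → ℝ} (hfc : ContinuousOn f D)
    (hfv : ConvexOn ℝ D f) {x : E} (hx : x ∈ D) : ∃ φ, Sub D f x φ := by
  have hconv : Convex ℝ {p : E × ℝ | p.1 ∈ D ∧ f p.1 < p.2} := hfv.convex_strict_epigraph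
  have hopen : IsOpen {p : E × ℝ | p.1 ∈ D ∧ f p.1 < p.2} := by
    have h1 : ContinuousOn (fun p : E × ℝ => f p.1 - p.2) (Prod.fst ⁻¹' D) :=
      (hfc.comp continuousOn_fst fun p hp => hp).sub continuousOn_snd
    have h2 := h1.isOpen_inter_preimage (hDo.preimage continuous_fst) (isOpen_Iio (a := (0 : ℝ)))
    have h3 : {p : E × ℝ | p.1 ∈ D ∧ f p.1 < p.2} =
        Prod.fst ⁻¹' D ∩ (fun p : E × ℝ => f p.1 - p.2) ⁻¹' Iio 0 := by
      ext p
      simp
    rw [h3]; exact h2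
  obtain ⟨l, hl⟩ := geometric_hahn_banach_open_point hconv hopen (x := (x, f x))
    (fun h => lt_irrefl _ h.2)
  have hsplit : ∀ (y : E) (r : ℝ), l (y, r) = l (y, 0) + r * l (0, 1) := by
    intro y r
    have : ((y, r) : E × ℝ) = (y, 0) + r • ((0, 1) : E × ℝ) := by simp
    rw [this, map_add, map_smul, smul_eq_mul]
  have hc : l (0, 1) < 0 := by
    have h1 := hl (x, f x + 1) ⟨hx, by simp⟩
    rw [hsplit x (f x + 1), hsplit x (f x)] at h1
    linarith
  refine ⟨(-(l (0, 1)))⁻¹ • (l ∘L ContinuousLinearMap.inl ℝ E ℝ), fun y hy => ?_⟩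
  have h2 : l (y - x, 0) ≤ (-(l (0, 1))) * (f y - f x) := by
    refine le_of_forall_pos_le_add fun η hη => ?_
    have hη' : 0 < η / (-(l (0, 1))) := div_pos hη (by linarith)
    have h1 := hl (y, f y + η / (-(l (0, 1)))) ⟨hy, by simpa using hη'⟩
    rw [hsplit y, hsplit x (f x)] at h1
    have h3 : l (y - x, 0) = l (y, 0) - l (x, 0) := by
      rw [← map_sub]; simp
    have h4 : η / (-(l (0, 1))) * l (0, 1) = -η := by
      field_simp [hc.ne]
    rw [h3]
    nlinarith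
  have h5 : 0 < -(l (0, 1)) := by linarith
  simp only [smul_apply, ContinuousLinearMap.comp_apply,
    ContinuousLinearMap.inl_apply, smul_eq_mul]
  rw [inv_mul_le_iff₀ h5]
  exact h2

omit [ContinuousSMul ℝ E] in
theorem exists_equi {D : Set E} (hDo : IsOpen D) {f : E → ℝ} (hfc : ContinuousOn f D)
    {x₀ : E} (hx : x₀ ∈ D) : ∃ V, IsOpen V ∧ x₀ ∈ V ∧ V ⊆ D ∧ ∃ U ∈ 𝓝 (0 : E),
      ∀ x ∈ V, ∀ φ, Sub D f x φ → ∀ u ∈ U, |φ u| ≤ 1 := by
  have h1 : {y | y ∈ D ∧ |f y - f x₀| < 1 / 2} ∈ 𝓝 x₀ := by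
    have h2 : ContinuousAt f x₀ := hfc.continuousAt (hDo.mem_nhds hx)
    filter_upwards [hDo.mem_nhds hx, Metric.tendsto_nhds.1 h2 (1 / 2) (by norm_num)] with y h h'
    exact ⟨h, by rwa [Real.dist_eq] at h'⟩
  have h3 : Tendsto (fun p : E × E => p.1 + p.2) (𝓝 x₀ ×ˢ 𝓝 0) (𝓝 x₀) := by
    rw [← nhds_prod_eq]
    have : ContinuousAt (fun p : E × E => p.1 + p.2) (x₀, 0) := by fun_prop
    simpa [ContinuousAt] using this
  obtain ⟨V, hV, W, hW, hVW⟩ := mem_prod_iff.1 (h3 h1)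
  obtain ⟨V', hV'V, hV'o, hxV'⟩ := mem_nhds_iff.1 hV
  have h0 : (0 : E) ∈ W := mem_of_mem_nhds hW
  have key : ∀ x ∈ V', ∀ u ∈ W, x + u ∈ D ∧ |f (x + u) - f x₀| < 1 / 2 := fun x hx u hu =>
    hVW (mk_mem_prod (hV'V hx) hu)
  refine ⟨V', hV'o, hxV', fun x hx => by simpa using (key x hx 0 h0).1, W ∩ -W,
    inter_mem hW (neg_mem_nhds_zero E hW), fun x hx φ hφ u hu => ?_⟩
  have a0 := (key x hx 0 h0).2
  rw [add_zero] at a0
  have a1 := key x hx u hu.1
  have a2 := key x hx (-u) hu.2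
  have b1 := hφ _ a1.1
  have b2 := hφ _ a2.1
  rw [add_sub_cancel_left] at b1 b2
  rw [map_neg] at b2
  have c0 := abs_lt.1 a0
  have c1 := abs_lt.1 a1.2
  have c2 := abs_lt.1 a2.2
  rw [abs_le]
  constructor <;> linarith

/-- The polar of `U` as a set of functions. -/
def PolF (U : Set E) : Set (E → ℝ) := {g | IsLinearMap ℝ g ∧ ∀ u ∈ U, |g u| ≤ 1}

omit [IsTopologicalAddGroup E] in
theorem exists_small_mul {U : Set E} (hU : U ∈ 𝓝 (0 : E)) (x : E) :
    ∃ r : ℝ, 0 < r ∧ r • x ∈ U := by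
  have h1 : Tendsto (fun r : ℝ => r • x) (𝓝[>] 0) (𝓝 0) := by
    have : ContinuousAt (fun r : ℝ => r • x) 0 := by fun_prop
    have h2 : Tendsto (fun r : ℝ => r • x) (𝓝 0) (𝓝 0) := by simpa [ContinuousAt] using this
    exact h2.mono_left nhdsWithin_le_nhds
  obtain ⟨r, hr1, hr2⟩ := ((h1.eventually hU).and self_mem_nhdsWithin).exists
  exact ⟨r, hr2, hr1⟩

omit [IsTopologicalAddGroup E] [TopologicalSpace E] [ContinuousSMul ℝ E] in
theorem isClosed_polF (U : Set E) : IsClosed (PolF U) := by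
  have h : PolF U = ((⋂ x, ⋂ y, {g : E → ℝ | g (x + y) = g x + g y}) ∩
      ⋂ c : ℝ, ⋂ x, {g : E → ℝ | g (c • x) = c • g x}) ∩ ⋂ u ∈ U, {g : E → ℝ | |g u| ≤ 1} := by
    ext g
    simp only [PolF, mem_inter_iff, mem_iInter, mem_ofPred_eq]
    exact ⟨fun h => ⟨⟨h.1.1, h.1.2⟩, h.2⟩, fun h => ⟨⟨h.1.1, h.1.2⟩, h.2⟩⟩
  rw [h]
  refine IsClosed.inter (IsClosed.inter ?_ ?_) ?_
  · exact isClosed_iInter fun x => isClosed_iInter fun y =>
      isClosed_eq (continuous_apply _) ((continuous_apply x).add (continuous_apply y))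
  · exact isClosed_iInter fun c => isClosed_iInter fun x =>
      isClosed_eq (continuous_apply _) ((continuous_apply x).const_smul c)
  · exact isClosed_biInter fun u _ => isClosed_le (continuous_apply u).abs continuous_const

omit [IsTopologicalAddGroup E] in
theorem isCompact_polF {U : Set E} (hU : U ∈ 𝓝 (0 : E)) : IsCompact (PolF U) := by
  choose r hr1 hr2 using exists_small_mul hU
  refine (isCompact_univ_pi fun x => isCompact_Icc (a := -(r x)⁻¹) (b := (r x)⁻¹)).of_isClosed_subset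
    (isClosed_polF U) fun g hg x _ => ?_
  have h1 := hg.2 _ (hr2 x)
  rw [hg.1.map_smul, smul_eq_mul, abs_mul, abs_of_pos (hr1 x)] at h1
  have h2 : |g x| ≤ (r x)⁻¹ := by
    rw [← one_div, le_div_iff₀ (hr1 x)]
    linarith
  exact abs_le.1 h2

theorem exists_clm {U : Set E} (hU : U ∈ 𝓝 (0 : E)) {g : E → ℝ} (hg : g ∈ PolF U) :
    ∃ φ : E →L[ℝ] ℝ, (φ : E → ℝ) = g := by
  have hc : Continuous (hg.1.mk' g) := by
    refine continuous_of_continuousAt_zero _ ?_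
    rw [ContinuousAt, map_zero, Metric.tendsto_nhds]
    intro ε hε
    have h1 : Tendsto (fun x : E => (2 / ε) • x) (𝓝 0) (𝓝 0) := by
      have : ContinuousAt (fun x : E => (2 / ε) • x) 0 := by fun_prop
      simpa [ContinuousAt] using this
    filter_upwards [h1.eventually hU] with x hx
    have h2 := hg.2 _ hx
    rw [hg.1.map_smul, smul_eq_mul, abs_mul, abs_of_pos (by positivity : 0 < 2 / ε),
      div_mul_eq_mul_div, div_le_iff₀ hε] at h2
    rw [Real.dist_eq, sub_zero]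
    show |g x| < ε
    linarith
  exact ⟨⟨hg.1.mk' g, hc⟩, rfl⟩

omit [IsTopologicalAddGroup E] [ContinuousSMul ℝ E] in
theorem coe_mem_polF {U : Set E} {φ : E →L[ℝ] ℝ} (h : ∀ u ∈ U, |φ u| ≤ 1) :
    (φ : E → ℝ) ∈ PolF U :=
  ⟨⟨fun x y => map_add φ x y, fun c x => map_smul φ c x⟩, h⟩

end Pool.Agent.MP_e733ef_an.Met
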