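import Pool.Agent.MP_e733ef_an.MetA

/-!
The Baire tree argument: if the dual is separable in the sup distance of every countable bounded
set, continuous convex functions on a first countable space are Frechet differentiable off a
meagre set.
-/

open Set Filter Topology Bornology Pointwise

namespace Pool.Agent.MP_e733ef_an.Met

variable {E : Type*} [AddCommGroup E] [Module ℝ E] [TopologicalSpace E]
  [IsTopologicalAddGroup E] [ContinuousSMul ℝ E]

/-- Points where the second difference along the bounded set coded by `α` does not fall below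
`ε`. -/
def Bad (S : ℕ → ℕ → Set E) (f : E → ℝ) (ε : ℝ) (α : ℕ → ℕ) : Set E :=
  {x | ∀ δ : ℝ, 0 < δ → ∃ t : ℝ, 0 < t ∧ t < δ ∧ ∃ h, (∀ n, h ∈ S n (α n)) ∧
    ε * t < f (x + t • h) + f (x - t • h) - 2 * f x}

/-- The union of the sets `Bad` over the codes that agree with `a` below `n`. -/
def Cyl (S : ℕ → ℕ → Set E) (f : E → ℝ) (ε : ℝ) (n : ℕ) (a : ℕ → ℕ) : Set E :=
  {x | ∃ α : ℕ → ℕ, (∀ i < n, α i = a i) ∧ x ∈ Bad S f ε α}

omit [ContinuousSMul ℝ E] in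
theorem exists_delta {B : Set E} (hB : IsVonNBounded ℝ B) {V : Set E} (hV : IsOpen V) {x : E}
    (hx : x ∈ V) : ∃ δ : ℝ, 0 < δ ∧ ∀ t : ℝ, |t| < δ → ∀ h ∈ B, x + t • h ∈ V := by
  have h1 : (fun u => x + u) ⁻¹' V ∈ 𝓝 (0 : E) := by
    have : ContinuousAt (fun u : E => x + u) 0 := by fun_prop
    exact this.preimage_mem_nhds (by simpa using hV.mem_nhds hx)
  have h2 := tendsto_smallSets_iff.1 hB.tendsto_smallSets_nhds _ h1
  obtain ⟨δ, hδ, h3⟩ := Metric.eventually_nhds_iff.1 h2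
  refine ⟨δ, hδ, fun t ht h hh => ?_⟩
  exact h3 (by simpa [Real.dist_eq] using ht) (smul_mem_smul_set hh)

omit [ContinuousSMul ℝ E] in
theorem step {S : ℕ → ℕ → Set E}
    (hS : ∀ B : Set E, IsVonNBounded ℝ B ↔ ∀ n, ∃ m, B ⊆ S n m)
    {D : Set E} (hDo : IsOpen D) {f : E → ℝ} (hfc : ContinuousOn f D) {ε : ℝ} (hε : 0 < ε)
    (n : ℕ) (V : Set E) (a : ℕ → ℕ)
    (hinv : IsOpen V ∧ V ⊆ D ∧ ¬ IsMeagre (Cyl S f ε n a ∩ V)) :
    ∃ (a' : ℕ → ℕ) (h : E) (c : ℝ) (W : Bool → Set E), (∀ i < n, a' i = a i) ∧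
      (∀ i ≤ n, h ∈ S i (a' i)) ∧
      (∀ b, W b ⊆ V ∧ IsOpen (W b) ∧ ¬ IsMeagre (Cyl S f ε (n + 1) a' ∩ W b)) ∧
      (∀ y ∈ W true, ∀ φ, Sub D f y φ → c + ε / 4 ≤ φ h) ∧
      (∀ y ∈ W false, ∀ φ, Sub D f y φ → φ h ≤ c - ε / 4) := by
  classical
  obtain ⟨hVo, hVD, hm⟩ := hinv
  have hj : ∃ j, ¬ IsMeagre (Cyl S f ε (n + 1) (Function.update a n j) ∩ V) := by
    by_contra hcon
    push Not at hcon
    refine hm ((isMeagre_iUnion hcon).mono ?_)
    rintro x ⟨⟨α, hα, hx⟩, hxV⟩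
    refine mem_iUnion.2 ⟨α n, ⟨α, fun i hi => ?_, hx⟩, hxV⟩
    rcases Nat.lt_succ_iff_lt_or_eq.1 hi with h | rfl
    · rw [Function.update_of_ne h.ne]; exact hα i h
    · rw [Function.update_self]
  obtain ⟨j, hj⟩ := hj
  set a' := Function.update a n j with ha'
  obtain ⟨V', hV'o, hV'n, hV'⟩ := exists_everywhere hj
  obtain ⟨x, ⟨⟨α, hα, hx⟩, hxV⟩, hxV'⟩ := nonempty_of_not_isMeagre (hV' V' hV'o hV'n Subset.rfl)
  have hB : IsVonNBounded ℝ {h | ∀ n, h ∈ S n (α n)} := (hS _).2 fun n => ⟨α n, fun h hh => hh n⟩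
  obtain ⟨δ, hδ, hδ'⟩ := exists_delta hB (hVo.inter hV'o) (x := x) ⟨hxV, hxV'⟩
  obtain ⟨t, ht0, htδ, h, hh, hosc⟩ := hx δ hδ
  have hp : x + t • h ∈ V ∩ V' := hδ' t (by rwa [abs_of_pos ht0]) h hh
  have hq : x - t • h ∈ V ∩ V' := by
    have := hδ' (-t) (by rwa [abs_neg, abs_of_pos ht0]) h hh
    rwa [neg_smul, ← sub_eq_add_neg] at this
  have hxD : x ∈ D := hVD hxV
  have cx : ContinuousAt f x := hfc.continuousAt (hDo.mem_nhds hxD)
  have hεt : 0 < ε * t / 4 := by positivity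
  -- the upper neighbourhood
  have n1 : {y | y ∈ V ∩ V' ∧ y - t • h ∈ D ∧
      f (x + t • h) - f x - ε * t / 4 < f y - f (y - t • h)} ∈ 𝓝 (x + t • h) := by
    have c1 : ContinuousAt (fun y => y - t • h) (x + t • h) := by fun_prop
    have e1 : x + t • h - t • h = x := add_sub_cancel_right _ _
    have c2 : ContinuousAt (fun y => f (y - t • h)) (x + t • h) :=
      ContinuousAt.comp (f := fun y => y - t • h) (by simpa only [e1] using cx) c1
    have c3 : ContinuousAt (fun y => f y - f (y - t • h)) (x + t • h) :=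
      (hfc.continuousAt (hDo.mem_nhds (hVD hp.1))).sub c2
    refine inter_mem ((hVo.inter hV'o).mem_nhds hp) (inter_mem ?_ ?_)
    · exact c1.preimage_mem_nhds (by simpa only [e1] using hDo.mem_nhds hxD)
    · exact c3.eventually (lt_mem_nhds (by simp only [e1]; linarith))
  have n0 : {y | y ∈ V ∩ V' ∧ y + t • h ∈ D ∧
      f (y + t • h) - f y < f x - f (x - t • h) + ε * t / 4} ∈ 𝓝 (x - t • h) := by
    have c1 : ContinuousAt (fun y => y + t • h) (x - t • h) := by fun_prop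
    have e1 : x - t • h + t • h = x := sub_add_cancel _ _
    have c2 : ContinuousAt (fun y => f (y + t • h)) (x - t • h) :=
      ContinuousAt.comp (f := fun y => y + t • h) (by simpa only [e1] using cx) c1
    have c3 : ContinuousAt (fun y => f (y + t • h) - f y) (x - t • h) :=
      c2.sub (hfc.continuousAt (hDo.mem_nhds (hVD hq.1)))
    refine inter_mem ((hVo.inter hV'o).mem_nhds hq) (inter_mem ?_ ?_)
    · exact c1.preimage_mem_nhds (by simpa only [e1] using hDo.mem_nhds hxD)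
    · exact c3.eventually (gt_mem_nhds (by simp only [e1]; linarith))
  obtain ⟨W1, hW1, hW1o, hW1x⟩ := mem_nhds_iff.1 n1
  obtain ⟨W0, hW0, hW0o, hW0x⟩ := mem_nhds_iff.1 n0
  refine ⟨a', h, (f (x + t • h) - f (x - t • h)) / (2 * t), fun b => if b then W1 else W0,
    fun i hi => by rw [ha', Function.update_of_ne hi.ne], fun i hi => ?_, fun b => ?_, ?_, ?_⟩
  · rw [← hα i (Nat.lt_succ_of_le hi)]; exact hh i
  · cases b
    · refine ⟨fun y hy => (hW0 hy).1.1, hW0o, fun hmg => ?_⟩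
      exact hV' W0 hW0o ⟨_, hW0x⟩ (fun y hy => (hW0 hy).1.2)
        (hmg.mono fun y hy => And.intro hy.1.1 hy.2)
    · refine ⟨fun y hy => (hW1 hy).1.1, hW1o, fun hmg => ?_⟩
      exact hV' W1 hW1o ⟨_, hW1x⟩ (fun y hy => (hW1 hy).1.2)
        (hmg.mono fun y hy => And.intro hy.1.1 hy.2)
  · intro y hy φ hφ
    obtain ⟨-, h2, h3⟩ := hW1 hy
    have h4 := hφ _ h2
    rw [sub_sub_cancel_left, map_neg, map_smul, smul_eq_mul] at h4
    rw [← le_sub_iff_add_le, div_le_iff₀ (by positivity)]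
    nlinarith
  · intro y hy φ hφ
    obtain ⟨-, h2, h3⟩ := hW0 hy
    have h4 := hφ _ h2
    rw [add_sub_cancel_left, map_smul, smul_eq_mul] at h4
    rw [le_sub_iff_add_le, le_div_iff₀ (by positivity)]
    nlinarith

/-- The dual is separable in the sup distance of every countable bounded set. -/
def CSep (E : Type*) [AddCommGroup E] [Module ℝ E] [TopologicalSpace E] : Prop :=
  ∀ B : Set E, B.Countable → IsVonNBounded ℝ B → ∀ ε : ℝ, 0 < ε →
    ∃ C : Set (E →L[ℝ] ℝ), C.Countable ∧ ∀ φ : E →L[ℝ] ℝ, ∃ ψ ∈ C, ∀ x ∈ B, |φ x - ψ x| ≤ ε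

theorem tree {S : ℕ → ℕ → Set E} (hSm : ∀ n, Monotone (S n))
    (hS : ∀ B : Set E, IsVonNBounded ℝ B ↔ ∀ n, ∃ m, B ⊆ S n m) (hC : CSep E)
    {D : Set E} (hDo : IsOpen D) {f : E → ℝ} (hfc : ContinuousOn f D) (hfv : ConvexOn ℝ D f)
    {ε : ℝ} (hε : 0 < ε) {V₀ : Set E} (hV₀ : IsOpen V₀) (hVD : V₀ ⊆ D) {U : Set E}
    (hU : U ∈ 𝓝 (0 : E)) (hUb : ∀ x ∈ V₀, ∀ φ, Sub D f x φ → ∀ u ∈ U, |φ u| ≤ 1) :
    IsMeagre (Cyl S f ε 0 0 ∩ V₀) := by
  classical
  by_contra hm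
  choose! a' h c W h1 h2 h3 h4 h5 using step hS hDo hfc hε
  let node : List Bool → Set E × (ℕ → ℕ) := fun s =>
    List.rec (V₀, 0) (fun b s st => (W s.length st.1 st.2 b, a' s.length st.1 st.2)) s
  have ncons : ∀ b s, node (b :: s) =
      (W s.length (node s).1 (node s).2 b, a' s.length (node s).1 (node s).2) := fun _ _ => rfl
  have hinv : ∀ s, (IsOpen (node s).1 ∧ (node s).1 ⊆ D ∧
      ¬ IsMeagre (Cyl S f ε s.length (node s).2 ∩ (node s).1)) ∧ (node s).1 ⊆ V₀ := by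
    intro s
    induction s with
    | nil => exact ⟨⟨hV₀, hVD, hm⟩, Subset.rfl⟩
    | cons b s ih =>
      obtain ⟨k1, k2, k3⟩ := h3 _ _ _ ih.1 b
      rw [ncons]
      exact ⟨⟨k2, k1.trans ih.1.2.1, k3⟩, k1.trans ih.2⟩
  let H : List Bool → E := fun s => h s.length (node s).1 (node s).2
  have hHb : IsVonNBounded ℝ (range H) := by
    rw [hS]
    intro i
    have hst : ∀ s : List Bool, ∃ s' : List Bool, s'.length ≤ i + 1 ∧
        (node s).2 i = (node s').2 i := by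
      intro s
      induction s with
      | nil => exact ⟨[], by simp, rfl⟩
      | cons b s ih =>
        by_cases hl : s.length ≤ i
        · exact ⟨b :: s, by simpa using hl, rfl⟩
        · obtain ⟨s', k1, k2⟩ := ih
          refine ⟨s', k1, ?_⟩
          rw [ncons, ← k2]
          exact h1 _ _ _ (hinv s).1 i (not_le.1 hl)
    obtain ⟨M, hM⟩ := ((List.finite_length_le Bool (i + 1)).image
      (fun s => (node s).2 i)).bddAbove
    obtain ⟨m, hm'⟩ := (hS _).1 (((List.finite_length_lt Bool i).image H).isVonNBounded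
      (𝕜 := ℝ)) i
    refine ⟨max M m, ?_⟩
    rintro _ ⟨s, rfl⟩
    by_cases hl : s.length < i
    · exact hSm i (le_max_right _ _) (hm' (mem_image_of_mem H hl))
    · have k1 := h2 _ _ _ (hinv s).1 i (not_lt.1 hl)
      obtain ⟨s', k2, k3⟩ := hst (true :: s)
      have k4 : (node (true :: s)).2 i ≤ M := k3 ▸ hM (mem_image_of_mem _ k2)
      exact hSm i (k4.trans (le_max_left _ _)) k1
  obtain ⟨C, hCc, hCd⟩ := hC _ (countable_range H) hHb (ε / 8) (by positivity)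
  obtain ⟨ψ0, hψ0, -⟩ := hCd 0
  obtain ⟨ψ, rfl⟩ := hCc.exists_eq_range ⟨ψ0, hψ0⟩
  let br : ℕ → List Bool := fun j => Nat.rec [] (fun j s =>
    (decide (ψ j (H s) ≤ c s.length (node s).1 (node s).2)) :: s) j
  have brs : ∀ j, br (j + 1) = (decide (ψ j (H (br j)) ≤
      c (br j).length (node (br j)).1 (node (br j)).2)) :: br j := fun _ => rfl
  have hanti : Antitone fun j => (node (br j)).1 := by
    refine antitone_nat_of_succ_le fun j => ?_
    show (node (br (j + 1))).1 ⊆ (node (br j)).1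
    rw [brs, ncons]
    exact (h3 _ _ _ (hinv _).1 _).1
  have hsep : ∀ j, ∀ y ∈ (node (br (j + 1))).1, ∀ φ, Sub D f y φ →
      ε / 4 ≤ |φ (H (br j)) - ψ j (H (br j))| := by
    intro j y hy φ hφ
    rw [brs, ncons] at hy
    by_cases hb : ψ j (H (br j)) ≤ c (br j).length (node (br j)).1 (node (br j)).2
    · rw [decide_eq_true hb] at hy
      have := h4 _ _ _ (hinv _).1 y hy φ hφ
      exact le_abs.2 (Or.inl (by linarith))
    · rw [decide_eq_false hb] at hy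
      have := h5 _ _ _ (hinv _).1 y hy φ hφ
      exact le_abs.2 (Or.inr (by linarith [not_le.1 hb]))
  let F : ℕ → Set (E → ℝ) := fun j =>
    PolF U ∩ ⋂ i < j, {g : E → ℝ | ε / 4 ≤ |g (H (br i)) - ψ i (H (br i))|}
  have hFc : ∀ j, IsClosed (F j) := fun j => (isClosed_polF U).inter
    (isClosed_iInter fun i => isClosed_iInter fun _ =>
      isClosed_le continuous_const ((continuous_apply (H (br i))).sub continuous_const).abs)
  have hFn : ∀ j, (F j).Nonempty := by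
    intro j
    obtain ⟨y, -, hy⟩ := nonempty_of_not_isMeagre (hinv (br j)).1.2.2
    obtain ⟨φ, hφ⟩ := exists_sub hDo hfc hfv ((hinv (br j)).1.2.1 hy)
    refine ⟨φ, coe_mem_polF (hUb y ((hinv (br j)).2 hy) φ hφ), ?_⟩
    exact mem_iInter₂.2 fun i hi => hsep i y (hanti (Nat.succ_le_of_lt hi) hy) φ hφ
  obtain ⟨g, hg⟩ := IsCompact.nonempty_iInter_of_sequence_nonempty_isCompact_isClosed F
    (fun j g hg => ⟨hg.1, mem_iInter₂.2 fun i hi =>
      mem_iInter₂.1 hg.2 i (Nat.lt_succ_of_lt hi)⟩) hFn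
    ((isCompact_polF hU).of_isClosed_subset (hFc 0) inter_subset_left) hFc
  obtain ⟨φ, hφ⟩ := exists_clm hU (mem_iInter.1 hg 0).1
  obtain ⟨_, ⟨i, rfl⟩, hi⟩ := hCd φ
  have k1 := hi _ (mem_range_self (br i))
  have k2 : ε / 4 ≤ |g (H (br i)) - ψ i (H (br i))| :=
    mem_iInter₂.1 (mem_iInter.1 hg (i + 1)).2 i (Nat.lt_succ_self i)
  rw [← hφ] at k2
  linarith

/-- Frechet differentiability along bounded sets. -/
def FDiff (f : E → ℝ) (x₀ : E) : Prop :=
  ∃ φ : E →L[ℝ] ℝ, ∀ B : Set E, IsVonNBounded ℝ B → ∀ ε : ℝ, 0 < ε →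
    ∃ δ : ℝ, 0 < δ ∧ ∀ t : ℝ, 0 < |t| → |t| < δ → ∀ x ∈ B,
      |(f (x₀ + t • x) - f x₀) / t - φ x| < ε

theorem fdiff_of_not_bad {S : ℕ → ℕ → Set E}
    (hS : ∀ B : Set E, IsVonNBounded ℝ B ↔ ∀ n, ∃ m, B ⊆ S n m)
    {D : Set E} (hDo : IsOpen D) {f : E → ℝ} (hfc : ContinuousOn f D) (hfv : ConvexOn ℝ D f)
    {x : E} (hx : x ∈ D) (hb : ∀ k : ℕ, x ∉ Cyl S f (1 / ((k : ℝ) + 1)) 0 0) : FDiff f x := by
  obtain ⟨φ, hφ⟩ := exists_sub hDo hfc hfv hx
  refine ⟨φ, fun B hB ε hε => ?_⟩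
  obtain ⟨k, hk⟩ := exists_nat_one_div_lt hε
  choose α hα using (hS B).1 hB
  have h1 : x ∉ Bad S f (1 / ((k : ℝ) + 1)) α := fun h => hb k ⟨α, by simp, h⟩
  simp only [Bad, mem_ofPred_eq] at h1
  push Not at h1
  obtain ⟨δ, hδ, h1⟩ := h1
  obtain ⟨δ', hδ', h2⟩ := exists_delta hB hDo hx
  refine ⟨min δ δ', lt_min hδ hδ', fun t ht0 ht h hh => ?_⟩
  have a1 := h1 |t| ht0 (ht.trans_le (min_le_left _ _)) h fun n => hα n hh
  have a2 := hφ _ (h2 |t| (by rw [abs_abs]; exact ht.trans_le (min_le_right _ _)) h hh)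
  have a3 := hφ _ (h2 (-|t|) (by rw [abs_neg, abs_abs]; exact ht.trans_le (min_le_right _ _)) h hh)
  rw [add_sub_cancel_left, map_smul, smul_eq_mul] at a2 a3
  rw [neg_smul, ← sub_eq_add_neg] at a3
  have a4 : 1 / ((k : ℝ) + 1) * |t| < ε * |t| := mul_lt_mul_of_pos_right hk ht0
  rcases le_or_gt 0 t with hs | hs
  · rw [abs_of_nonneg hs] at a1 a2 a3 a4 ht0
    have e : (f (x + t • h) - f x) / t - φ h = (f (x + t • h) - f x - t * φ h) / t := by
      field_simp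
    rw [e, abs_div, abs_of_pos ht0, div_lt_iff₀ ht0, abs_lt]
    constructor <;> nlinarith
  · rw [abs_of_neg hs] at a1 a2 a3 a4 ht0
    rw [neg_smul, sub_neg_eq_add] at a1 a3
    have e : (f (x + t • h) - f x) / t - φ h = (f (x + t • h) - f x - t * φ h) / t := by
      field_simp [hs.ne]
    rw [neg_smul] at a2
    rw [e, abs_div, abs_of_neg hs, div_lt_iff₀ ht0, abs_lt]
    constructor <;> nlinarith

theorem asplund_of_csep [FirstCountableTopology E] [BaireSpace E] (hC : CSep E)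
    {D : Set E} (hDo : IsOpen D) {f : E → ℝ} (hfc : ContinuousOn f D) (hfv : ConvexOn ℝ D f) :
    ∃ G : Set E, G ⊆ D ∧ IsGδ G ∧ D ⊆ closure G ∧ ∀ x ∈ G, FDiff f x := by
  obtain ⟨S, hSm, hS⟩ := exists_scale (E := E)
  have hm : ∀ k : ℕ, IsMeagre (Cyl S f (1 / ((k : ℝ) + 1)) 0 0 ∩ D) := by
    intro k
    by_contra hcon
    obtain ⟨V, hVo, hVn, hV⟩ := exists_everywhere hcon
    obtain ⟨x, ⟨-, hxD⟩, hxV⟩ := nonempty_of_not_isMeagre (hV V hVo hVn Subset.rfl)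
    obtain ⟨V₀, h1, h2, h3, U, hU, h4⟩ := exists_equi hDo hfc hxD
    have h5 := tree hSm hS hC hDo hfc hfv (ε := 1 / ((k : ℝ) + 1)) (by positivity) h1 h3 hU h4
    exact hV (V ∩ V₀) (hVo.inter h1) ⟨x, hxV, h2⟩ inter_subset_left
      (h5.mono fun y hy => And.intro hy.1.1 hy.2.2)
  obtain ⟨T, hT1, hT2, hT3⟩ := mem_residual.1 (isMeagre_iUnion hm)
  refine ⟨D ∩ T, inter_subset_left, hDo.isGδ.inter hT2, hT3.open_subset_closure_inter hDo,
    fun x hx => fdiff_of_not_bad hS hDo hfc hfv hx.1 fun k hk => ?_⟩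
  exact hT1 hx.2 (mem_iUnion.2 ⟨k, hk, hx.1⟩)

end Pool.Agent.MP_e733ef_an.Met
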