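import Pool.Agent.MP_e733ef_an.MetB

/-!
From one point of Frechet differentiability to fragmentability, and from fragmentability to
separability on countable bounded sets.
-/

open Set Filter Topology Bornology Pointwise

namespace Pool.Agent.MP_e733ef_an.Met

variable {E : Type*} [AddCommGroup E] [Module ℝ E] [TopologicalSpace E]
  [IsTopologicalAddGroup E] [ContinuousSMul ℝ E]

/-- Equicontinuous sets are fragmented by bounded sets; weak star open sets are traces of open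
sets of the product space. -/
def Frag (E : Type*) [AddCommGroup E] [Module ℝ E] [TopologicalSpace E] : Prop :=
  ∀ U ∈ 𝓝 (0 : E), ∀ A : Set (E →L[ℝ] ℝ), A.Nonempty → (∀ φ ∈ A, ∀ u ∈ U, |φ u| ≤ 1) →
    ∀ B : Set E, IsVonNBounded ℝ B → ∀ ε : ℝ, 0 < ε →
      ∃ O : Set (E → ℝ), IsOpen O ∧ (∃ φ ∈ A, (φ : E → ℝ) ∈ O) ∧
        ∀ φ ∈ A, ∀ ψ ∈ A, (φ : E → ℝ) ∈ O → (ψ : E → ℝ) ∈ O → ∀ x ∈ B, |φ x - ψ x| ≤ ε

theorem frag_of_fdiff
    (h : ∀ f : E → ℝ, Continuous f → ConvexOn ℝ univ f → ∃ x, FDiff f x) : Frag E := by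
  intro U hU A hA hAU B hB ε hε
  have hbd : ∀ x, BddAbove ((fun φ : E →L[ℝ] ℝ => φ x) '' A) := by
    intro x
    obtain ⟨r, hr, hrx⟩ := exists_small_mul hU x
    refine ⟨r⁻¹, ?_⟩
    rintro _ ⟨φ, hφ, rfl⟩
    have h1 := hAU φ hφ _ hrx
    rw [map_smul, smul_eq_mul] at h1
    show φ x ≤ r⁻¹
    rw [← one_div, le_div_iff₀ hr]
    linarith [(abs_le.1 h1).2]
  let f : E → ℝ := fun x => sSup ((fun φ : E →L[ℝ] ℝ => φ x) '' A)
  have hle : ∀ x, ∀ φ ∈ A, φ x ≤ f x := fun x φ hφ => le_csSup (hbd x) (mem_image_of_mem _ hφ)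
  have hge : ∀ x r, (∀ φ ∈ A, φ x ≤ r) → f x ≤ r := fun x r hr =>
    csSup_le (hA.image _) (by rintro _ ⟨φ, hφ, rfl⟩; exact hr φ hφ)
  have hfv : ConvexOn ℝ univ f := by
    refine ⟨convex_univ, fun x _ y _ a b ha hb _ => hge _ _ fun φ hφ => ?_⟩
    rw [map_add, map_smul, map_smul, smul_eq_mul, smul_eq_mul, smul_eq_mul, smul_eq_mul]
    exact add_le_add (mul_le_mul_of_nonneg_left (hle x φ hφ) ha)
      (mul_le_mul_of_nonneg_left (hle y φ hφ) hb)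
  have hfc : Continuous f := by
    rw [continuous_iff_continuousAt]
    intro x
    rw [ContinuousAt, Metric.tendsto_nhds]
    intro η hη
    have h1 : Tendsto (fun y : E => (2 / η) • (y - x)) (𝓝 x) (𝓝 0) := by
      have : ContinuousAt (fun y : E => (2 / η) • (y - x)) x := by fun_prop
      simpa [ContinuousAt] using this
    filter_upwards [h1.eventually hU] with y hy
    have h2 : ∀ φ ∈ A, |φ y - φ x| ≤ η / 2 := by
      intro φ hφ
      have h3 := hAU φ hφ _ hy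
      rw [map_smul, map_sub, smul_eq_mul, abs_mul, abs_of_pos (by positivity : 0 < 2 / η),
        div_mul_eq_mul_div, div_le_iff₀ hη] at h3
      linarith
    have h4 : f y ≤ f x + η / 2 := hge _ _ fun φ hφ => by
      linarith [(abs_le.1 (h2 φ hφ)).2, hle x φ hφ]
    have h5 : f x ≤ f y + η / 2 := hge _ _ fun φ hφ => by
      linarith [(abs_le.1 (h2 φ hφ)).1, hle y φ hφ]
    rw [Real.dist_eq, abs_lt]
    constructor <;> linarith
  obtain ⟨x, ψ, hψ⟩ := h f hfc hfv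
  obtain ⟨δ, hδ, hd⟩ := hψ B hB (ε / 4) (by positivity)
  have ht : 0 < δ / 2 := by positivity
  set t := δ / 2 with htd
  have htε : 0 < t * (ε / 4) := by positivity
  have key : ∀ φ ∈ A, f x - t * (ε / 4) < φ x → ∀ y ∈ B, |φ y - ψ y| ≤ ε / 2 := by
    intro φ hφ hx y hy
    have a1 := hd t (by rwa [abs_of_pos ht]) (by rw [abs_of_pos ht]; linarith) y hy
    have a2 := hd (-t) (by rwa [abs_neg, abs_of_pos ht])
      (by rw [abs_neg, abs_of_pos ht]; linarith) y hy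
    have b1 := hle (x + t • y) φ hφ
    have b2 := hle (x + (-t) • y) φ hφ
    rw [map_add, map_smul, smul_eq_mul] at b1 b2
    have c1 : (f (x + t • y) - f x) / t < ψ y + ε / 4 := by linarith [(abs_lt.1 a1).2]
    have c2 : (f (x + (-t) • y) - f x) / t < ε / 4 - ψ y := by
      have := (abs_lt.1 a2).1
      rw [div_neg] at this
      linarith
    rw [div_lt_iff₀ ht] at c1 c2
    rw [abs_le]
    constructor
    · by_contra hc
      push Not at hc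
      nlinarith
    · by_contra hc
      push Not at hc
      nlinarith
  refine ⟨{g | f x - t * (ε / 4) < g x}, isOpen_lt continuous_const (continuous_apply x), ?_, ?_⟩
  · obtain ⟨_, ⟨φ, hφ, rfl⟩, h1⟩ := exists_lt_of_lt_csSup (hA.image fun φ : E →L[ℝ] ℝ => φ x)
      (show f x - t * (ε / 4) < f x by linarith)
    exact ⟨φ, hφ, h1⟩
  · intro φ hφ φ' hφ' h1 h2 y hy
    have c1 := abs_le.1 (key φ hφ h1 y hy)
    have c2 := abs_le.1 (key φ' hφ' h2 y hy)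
    rw [abs_le]
    constructor <;> linarith

theorem exists_minimal {X Y : Type*} [TopologicalSpace X] [TopologicalSpace Y] [T1Space Y]
    {p : X → Y} (hp : Continuous p) {K : Set X} (hK : IsCompact K) (hKc : IsClosed K) :
    ∃ K₁, K₁ ⊆ K ∧ IsClosed K₁ ∧ p '' K ⊆ p '' K₁ ∧
      ∀ F, F ⊆ K₁ → IsClosed F → p '' K ⊆ p '' F → K₁ ⊆ F := by
  obtain ⟨K₁, -, hK₁⟩ := zorn_superset_nonempty {F | F ⊆ K ∧ IsClosed F ∧ p '' K ⊆ p '' F} (by
    intro c hc hch hne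
    refine ⟨⋂₀ c, ⟨?_, isClosed_sInter fun F hF => (hc hF).2.1, fun y hy => ?_⟩,
      fun s hs => sInter_subset_of_mem hs⟩
    · obtain ⟨F, hF⟩ := hne
      exact (sInter_subset_of_mem hF).trans (hc hF).1
    · have : Nonempty c := hne.to_subtype
      have hcl : ∀ F : c, IsClosed (F.1 ∩ p ⁻¹' {y}) := fun F =>
        (hc F.2).2.1.inter (isClosed_singleton.preimage hp)
      obtain ⟨x, hx⟩ := IsCompact.nonempty_iInter_of_directed_nonempty_isCompact_isClosed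
        (fun F : c => F.1 ∩ p ⁻¹' {y}) (by
          intro F F'
          rcases hch.total F.2 F'.2 with h | h
          · exact ⟨F, Subset.rfl, inter_subset_inter_left _ h⟩
          · exact ⟨F', inter_subset_inter_left _ h, Subset.rfl⟩)
        (fun F => by
          obtain ⟨x, hx, hxy⟩ := (hc F.2).2.2 hy
          exact ⟨x, hx, hxy⟩)
        (fun F => hK.of_isClosed_subset (hcl F) (inter_subset_left.trans (hc F.2).1)) hcl
      obtain ⟨F0⟩ := this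
      exact ⟨x, fun F hF => (mem_iInter.1 hx ⟨F, hF⟩).1, (mem_iInter.1 hx F0).2⟩)
    K ⟨Subset.rfl, hKc, Subset.rfl⟩
  exact ⟨K₁, hK₁.prop.1, hK₁.prop.2.1, hK₁.prop.2.2, fun F h1 h2 h3 =>
    hK₁.le_of_le ⟨h1.trans hK₁.prop.1, h2, h3⟩ h1⟩

theorem local_sep (hF : Frag E) {U : Set E} (hU : U ∈ 𝓝 (0 : E)) {B : Set E} (hBc : B.Countable)
    (hB : IsVonNBounded ℝ B) {ε : ℝ} (hε : 0 < ε) :
    ∃ C : Set (E →L[ℝ] ℝ), C.Countable ∧ ∀ φ : E →L[ℝ] ℝ, (∀ u ∈ U, |φ u| ≤ 1) →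
      ∃ ψ ∈ C, ∀ x ∈ B, |φ x - ψ x| ≤ ε := by
  have : Countable B := hBc.to_subtype
  let p : (E → ℝ) → (B → ℝ) := fun g x => g x.1
  have hp : Continuous p := continuous_pi fun x => continuous_apply x.1
  let Small : Set (B → ℝ) → Prop := fun Z => ∃ C : Set (E →L[ℝ] ℝ), C.Countable ∧
    ∀ y ∈ Z, ∃ ψ ∈ C, ∀ x : B, |y x - ψ x.1| ≤ ε
  let L : Set (B → ℝ) := p '' PolF U
  let OO : Set (Set (B → ℝ)) := {O | IsOpen O ∧ Small (L ∩ O)}
  have hOO : Small (L ∩ ⋃₀ OO) := by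
    obtain ⟨T, hTc, hT, hTe⟩ := TopologicalSpace.isOpen_sUnion_countable OO fun O hO => hO.1
    have h1 : ∀ O : T, Small (L ∩ O.1) := fun O => (hT O.2).2
    choose C hC1 hC2 using h1
    have : Countable T := hTc.to_subtype
    refine ⟨⋃ O, C O, countable_iUnion hC1, fun y hy => ?_⟩
    rw [← hTe] at hy
    obtain ⟨O, hO, hyO⟩ := hy.2
    obtain ⟨ψ, h2, h3⟩ := hC2 ⟨O, hO⟩ y ⟨hy.1, hyO⟩
    exact ⟨ψ, mem_iUnion.2 ⟨_, h2⟩, h3⟩
  have hcov : L ⊆ ⋃₀ OO := by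
    by_contra hcon
    obtain ⟨y0, hy0, hy0'⟩ := not_subset.1 hcon
    have hKc : IsClosed (PolF U ∩ p ⁻¹' (⋃₀ OO)ᶜ) := (isClosed_polF U).inter
      ((isOpen_sUnion fun O hO => hO.1).isClosed_compl.preimage hp)
    have hK : IsCompact (PolF U ∩ p ⁻¹' (⋃₀ OO)ᶜ) :=
      (isCompact_polF hU).of_isClosed_subset hKc inter_subset_left
    obtain ⟨K₁, k1, k2, k3, k4⟩ := exists_minimal hp hK hKc
    have hL0 : ∀ y ∈ L, y ∉ ⋃₀ OO → y ∈ p '' (PolF U ∩ p ⁻¹' (⋃₀ OO)ᶜ) := by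
      rintro _ ⟨g, hg, rfl⟩ h
      exact ⟨g, ⟨hg, h⟩, rfl⟩
    obtain ⟨O, hO, ⟨φ0, hφ0, hφ0O⟩, hdiam⟩ := hF U hU {φ | (φ : E → ℝ) ∈ K₁} (by
      obtain ⟨g, hg, -⟩ := k3 (hL0 y0 hy0 hy0')
      obtain ⟨φ, rfl⟩ := exists_clm hU (k1 hg).1
      exact ⟨φ, hg⟩) (fun φ hφ => (k1 hφ).1.2) B hB ε hε
    have hcl : IsClosed (K₁ \ O) := k2.sdiff hO
    have hns : ¬ p '' (PolF U ∩ p ⁻¹' (⋃₀ OO)ᶜ) ⊆ p '' (K₁ \ O) := fun h =>
      (k4 _ sdiff_subset hcl h hφ0).2 hφ0O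
    obtain ⟨_, ⟨g, hg, rfl⟩, hy⟩ := not_subset.1 hns
    have hO' : IsOpen (p '' (K₁ \ O))ᶜ :=
      ((hK.of_isClosed_subset hcl (sdiff_subset.trans k1)).image hp).isClosed.isOpen_compl
    refine hg.2 ⟨_, ⟨hO', ?_⟩, hy⟩
    obtain ⟨C, hC1, hC2⟩ := hOO
    refine ⟨insert φ0 C, hC1.insert _, fun y hy => ?_⟩
    by_cases hyO : y ∈ ⋃₀ OO
    · obtain ⟨ψ, h2, h3⟩ := hC2 y ⟨hy.1, hyO⟩
      exact ⟨ψ, mem_insert_of_mem _ h2, h3⟩
    · obtain ⟨g', hg', rfl⟩ := k3 (hL0 y hy.1 hyO)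
      obtain ⟨φ, rfl⟩ := exists_clm hU (k1 hg').1
      have hφO : (φ : E → ℝ) ∈ O := by
        by_contra hc
        exact hy.2 ⟨φ, ⟨hg', hc⟩, rfl⟩
      exact ⟨φ0, mem_insert _ _, fun x => hdiam φ hg' φ0 hφ0 hφO hφ0O x.1 x.2⟩
  obtain ⟨C, hC1, hC2⟩ := hOO
  refine ⟨C, hC1, fun φ hφ => ?_⟩
  have hm : p φ ∈ L := mem_image_of_mem p (coe_mem_polF hφ)
  obtain ⟨ψ, h2, h3⟩ := hC2 _ ⟨hm, hcov hm⟩
  exact ⟨ψ, h2, fun x hx => h3 ⟨x, hx⟩⟩

theorem csep_of_frag [FirstCountableTopology E] (hF : Frag E) : CSep E := by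
  intro B hBc hB ε hε
  obtain ⟨U, hU⟩ := (𝓝 (0 : E)).exists_antitone_basis
  choose C hC1 hC2 using fun n => local_sep hF (hU.mem n) hBc hB hε
  refine ⟨⋃ n, C n, countable_iUnion hC1, fun φ => ?_⟩
  have h1 : {u | |φ u| ≤ 1} ∈ 𝓝 (0 : E) := by
    have : ContinuousAt (fun u => |φ u|) 0 := by fun_prop
    filter_upwards [this.eventually (gt_mem_nhds (show |φ 0| < 1 by simp))] with u hu
    exact le_of_lt hu
  obtain ⟨n, -, hn⟩ := hU.toHasBasis.mem_iff.1 h1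
  obtain ⟨ψ, h2, h3⟩ := hC2 n φ fun u hu => hn hu
  exact ⟨ψ, mem_iUnion.2 ⟨n, h2⟩, h3⟩

omit [IsTopologicalAddGroup E] [ContinuousSMul ℝ E] in
theorem csep_of_separable [TopologicalSpace.SeparableSpace (StrongDual ℝ E)] : CSep E := by
  intro B _ hB ε hε
  obtain ⟨C, hC1, hC2⟩ := TopologicalSpace.exists_countable_dense (StrongDual ℝ E)
  refine ⟨C, hC1, fun φ => ?_⟩
  have h1 : {χ : StrongDual ℝ E | ∀ x ∈ B, χ x ∈ Metric.closedBall (0 : ℝ) ε} ∈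
      𝓝 (0 : StrongDual ℝ E) :=
    (ContinuousLinearMap.hasBasis_nhds_zero (σ := RingHom.id ℝ) (E := E) (F := ℝ)).mem_of_mem
      (i := (B, Metric.closedBall (0 : ℝ) ε)) ⟨hB, Metric.closedBall_mem_nhds _ hε⟩
  have h2 : (fun ψ : StrongDual ℝ E => φ - ψ) ⁻¹'
      {χ : StrongDual ℝ E | ∀ x ∈ B, χ x ∈ Metric.closedBall (0 : ℝ) ε} ∈ 𝓝 φ := by
    have : ContinuousAt (fun ψ : StrongDual ℝ E => φ - ψ) φ := by fun_prop
    exact this.preimage_mem_nhds (by simpa using h1)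
  obtain ⟨ψ, h3, h4⟩ := hC2.inter_nhds_nonempty h2
  refine ⟨ψ, h3, fun x hx => ?_⟩
  simpa [Real.dist_eq] using h4 x hx

end Pool.Agent.MP_e733ef_an.Met
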