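import Mathlib

/-!
Null families and summable families: uniform boundedness, representation of functionals, and two
lemmas of linear algebra.
-/

open Set Filter Topology
open scoped ZeroAtInfty

namespace Pool.Agent.MP_e733ef_an.Sep

section C0

variable {κ : Type} [TopologicalSpace κ] [DiscreteTopology κ]

/-- A null family as an element of the space of functions vanishing at infinity. -/
def mk0 (ν : κ → ℝ) (h : Tendsto ν cofinite (𝓝 0)) : C₀(κ, ℝ) :=
  ⟨⟨ν, continuous_of_discreteTopology⟩, by rwa [cocompact_eq_cofinite]⟩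

theorem null0 (ν : C₀(κ, ℝ)) : Tendsto ν cofinite (𝓝 0) := by
  rw [← cocompact_eq_cofinite]
  exact zero_at_infty ν

omit [DiscreteTopology κ] in
theorem abs_le0 (ν : C₀(κ, ℝ)) (j : κ) : |ν j| ≤ ‖ν‖ :=
  ν.toBCF.norm_coe_le_norm j

omit [DiscreteTopology κ] in
theorem norm_le0 (ν : C₀(κ, ℝ)) {r : ℝ} (hr : 0 ≤ r) (h : ∀ j, |ν j| ≤ r) : ‖ν‖ ≤ r :=
  (BoundedContinuousFunction.norm_le (f := ν.toBCF) hr).2 h

open Classical in
/-- The unit vectors. -/
noncomputable def e0 (j : κ) : C₀(κ, ℝ) :=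
  mk0 (Pi.single j 1) (tendsto_cofinite_pure_iff.2 (by
    refine (finite_singleton j).subset fun i hi => ?_
    by_contra h
    exact hi (Pi.single_eq_of_ne h _)) |>.mono_right (pure_le_nhds 0))

open Classical in
theorem sum_e0 (F : Finset κ) (a : κ → ℝ) (i : κ) :
    (∑ j ∈ F, a j • e0 j) i = if i ∈ F then a i else 0 := by
  have h1 : (∑ j ∈ F, a j • e0 j) i = ∑ j ∈ F, a j * (Pi.single j 1 : κ → ℝ) i := by
    induction F using Finset.induction_on with
    | empty => rfl
    | insert j F hj ih =>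
      rw [Finset.sum_insert hj, Finset.sum_insert hj, ZeroAtInftyContinuousMap.add_apply, ih]
      rfl
  rw [h1]
  simp [Pi.single_apply]

theorem hasSum_e0 (ν : C₀(κ, ℝ)) : HasSum (fun j => ν j • e0 j) ν := by
  classical
  rw [HasSum, SummationFilter.unconditional_filter, Metric.tendsto_nhds]
  intro ε hε
  have h1 : {j | ¬ |ν j| < ε / 2}.Finite := by
    have := Metric.tendsto_nhds.1 (null0 ν) (ε / 2) (by positivity)
    simpa [Real.dist_eq, eventually_cofinite] using this
  filter_upwards [eventually_ge_atTop h1.toFinset] with F hF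
  rw [dist_eq_norm]
  refine (norm_le0 _ (by positivity : 0 ≤ ε / 2) fun i => ?_).trans_lt (by linarith)
  rw [ZeroAtInftyContinuousMap.sub_apply, sum_e0]
  split_ifs with hi
  · simpa using (by positivity : 0 ≤ ε / 2)
  · rw [zero_sub, abs_neg]
    by_contra hc
    exact hi (hF (h1.mem_toFinset.2 fun h => hc h.le))

theorem dual0 (Λ : C₀(κ, ℝ) →L[ℝ] ℝ) : Summable (fun j => |Λ (e0 j)|) ∧
    ∑' j, |Λ (e0 j)| ≤ ‖Λ‖ ∧ ∀ ν : C₀(κ, ℝ), Λ ν = ∑' j, Λ (e0 j) * ν j := by
  classical
  have h1 : ∀ F : Finset κ, ∑ j ∈ F, |Λ (e0 j)| ≤ ‖Λ‖ := by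
    intro F
    have h2 : ∑ j ∈ F, |Λ (e0 j)| = Λ (∑ j ∈ F, (SignType.sign (Λ (e0 j)) : ℝ) • e0 j) := by
      rw [map_sum]
      refine Finset.sum_congr rfl fun j _ => ?_
      rw [map_smul, smul_eq_mul, sign_mul_self]
    have h3 : ‖∑ j ∈ F, (SignType.sign (Λ (e0 j)) : ℝ) • e0 j‖ ≤ 1 := by
      refine norm_le0 _ zero_le_one fun i => ?_
      rw [sum_e0]
      split_ifs
      · rcases SignType.trichotomy (SignType.sign (Λ (e0 i))) with h | h | h <;> simp [h]
      · simp
    rw [h2]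
    exact (le_abs_self _).trans ((Λ.le_opNorm _).trans
      (mul_le_of_le_one_right (norm_nonneg _) h3))
  have hs : Summable fun j => |Λ (e0 j)| := summable_of_sum_le (fun _ => abs_nonneg _) h1
  refine ⟨hs, hs.tsum_le_of_sum_le h1, fun ν => ?_⟩
  have := (Λ.hasSum (hasSum_e0 ν)).tsum_eq
  rw [← this]
  exact tsum_congr fun j => by rw [map_smul, smul_eq_mul, mul_comm]

end C0

theorem summable_pair {κ : Type} {c ν : κ → ℝ} (hc : Summable fun j => |c j|) {r : ℝ}
    (hν : ∀ j, c j ≠ 0 → |ν j| ≤ r) : Summable (fun j => c j * ν j) ∧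
      |∑' j, c j * ν j| ≤ (∑' j, |c j|) * r := by
  have h1 : ∀ j, ‖c j * ν j‖ ≤ |c j| * r := by
    intro j
    by_cases h : c j = 0
    · simp [h]
    · rw [Real.norm_eq_abs, abs_mul]
      exact mul_le_mul_of_nonneg_left (hν j h) (abs_nonneg _)
  refine ⟨Summable.of_norm_bounded (hc.mul_right r) h1, ?_⟩
  rw [← tsum_mul_right]
  exact tsum_of_norm_bounded (hc.mul_right r).hasSum h1

/-- Uniform boundedness for the pairing of summable families with null families. -/
theorem unif_bound {κ : Type} (M : Set (κ → ℝ)) (hM : ∀ c ∈ M, Summable fun j => |c j|)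
    (hb : ∀ ν : κ → ℝ, Tendsto ν cofinite (𝓝 0) → ∃ C, ∀ c ∈ M, |∑' j, c j * ν j| ≤ C) :
    ∃ C, ∀ c ∈ M, ∑' j, |c j| ≤ C := by
  classical
  let _ : TopologicalSpace κ := ⊥
  have : DiscreteTopology κ := ⟨rfl⟩
  have hp := fun (c : M) (ν : C₀(κ, ℝ)) => summable_pair (hM c.1 c.2) fun j _ => abs_le0 ν j
  let g : M → C₀(κ, ℝ) →L[ℝ] ℝ := fun c => LinearMap.mkContinuous
    { toFun := fun ν => ∑' j, c.1 j * ν j
      map_add' := fun ν ν' => by
        rw [← (hp c ν).1.tsum_add (hp c ν').1]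
        exact tsum_congr fun j => by rw [ZeroAtInftyContinuousMap.add_apply, mul_add]
      map_smul' := fun a ν => by
        rw [RingHom.id_apply, smul_eq_mul, ← tsum_mul_left]
        exact tsum_congr fun j => by
          rw [ZeroAtInftyContinuousMap.smul_apply, smul_eq_mul, mul_left_comm] }
    (∑' j, |c.1 j|) fun ν => (hp c ν).2
  obtain ⟨C, hC⟩ := banach_steinhaus (g := g) fun ν => by
    obtain ⟨C, hC⟩ := hb ν (null0 ν)
    exact ⟨C, fun c => hC c.1 c.2⟩
  refine ⟨C, fun c hc => le_trans (le_of_eq ?_) ((dual0 (g ⟨c, hc⟩)).2.1.trans (hC _))⟩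
  refine tsum_congr fun j => ?_
  congr 1
  show c j = ∑' i, c i * (Pi.single j 1 : κ → ℝ) i
  rw [tsum_eq_single j fun i hi => by rw [Pi.single_eq_of_ne hi, mul_zero]]
  simp

/-- A functional dominated by the sup norm of a null family is given by a summable family. -/
theorem repr_dual {κ A : Type} [AddCommGroup A] [Module ℝ A] (ρ : A →ₗ[ℝ] (κ → ℝ))
    (hρ : ∀ a, Tendsto (ρ a) cofinite (𝓝 0)) (Λ : A →ₗ[ℝ] ℝ) {K : ℝ}
    (hK : ∀ a r, 0 ≤ r → (∀ j, |ρ a j| ≤ r) → |Λ a| ≤ K * r) :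
    ∃ c : κ → ℝ, Summable (fun j => |c j|) ∧ ∀ a, Λ a = ∑' j, c j * ρ a j := by
  let _ : TopologicalSpace κ := ⊥
  have : DiscreteTopology κ := ⟨rfl⟩
  let R : A →ₗ[ℝ] C₀(κ, ℝ) :=
    { toFun := fun a => mk0 (ρ a) (hρ a)
      map_add' := fun a b => by ext j; exact congrFun (map_add ρ a b) j
      map_smul' := fun r a => by ext j; exact congrFun (map_smul ρ r a) j }
  have hb : ∀ a, |Λ a| ≤ K * ‖R a‖ := fun a => hK a _ (norm_nonneg _) fun j => abs_le0 (R a) j
  have hker : LinearMap.ker R ≤ LinearMap.ker Λ := fun a ha => by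
    have := hb a
    rw [LinearMap.mem_ker.1 ha, norm_zero, mul_zero] at this
    exact abs_nonpos_iff.1 this
  let l : LinearMap.range R →ₗ[ℝ] ℝ :=
    ((LinearMap.ker R).liftQ Λ hker) ∘ₗ R.quotKerEquivRange.symm.toLinearMap
  have hl : ∀ a, l ⟨R a, LinearMap.mem_range_self R a⟩ = Λ a := fun a => by
    simp only [l, LinearMap.comp_apply, LinearEquiv.coe_coe]
    rw [LinearMap.quotKerEquivRange_symm_apply_image]
    rfl
  obtain ⟨g, hg, -⟩ := exists_extension_norm_eq (LinearMap.range R) (l.mkContinuous K (by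
    rintro ⟨_, a, rfl⟩
    rw [hl]
    exact hb a))
  refine ⟨fun j => g (e0 j), (dual0 g).1, fun a => ?_⟩
  rw [← hl a]
  exact (hg ⟨R a, LinearMap.mem_range_self R a⟩).symm.trans ((dual0 g).2.2 (R a))

/-- If every linear functional is bounded on a set, the set spans a finite-dimensional space. -/
theorem finite_span {V : Type} [AddCommGroup V] [Module ℝ V] (M : Set V)
    (h : ∀ l : V →ₗ[ℝ] ℝ, ∃ C, ∀ x ∈ M, |l x| ≤ C) :
    FiniteDimensional ℝ (Submodule.span ℝ M) := by
  obtain ⟨b, hbM, hspan, hli⟩ := exists_linearIndependent ℝ M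
  by_cases hfin : b.Finite
  · rw [← hspan]
    exact FiniteDimensional.span_of_finite ℝ hfin
  exfalso
  let emb : ℕ ↪ b := Set.Infinite.natEmbedding b hfin
  have hs : LinearIndependent ℝ fun n => (emb n).1 := hli.comp emb emb.injective
  obtain ⟨π, hπ⟩ := (Finsupp.linearCombination ℝ fun n => (emb n).1).exists_leftInverse_of_injective
    (LinearMap.ker_eq_bot.2 hs)
  obtain ⟨C, hC⟩ := h ((Finsupp.linearCombination ℝ fun n : ℕ => (n : ℝ)) ∘ₗ π)
  obtain ⟨n, hn⟩ := exists_nat_gt C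
  have h1 := hC _ (hbM (emb n).2)
  have h2 : π (emb n).1 = Finsupp.single n 1 := by
    simpa using LinearMap.congr_fun hπ (Finsupp.single n 1)
  simp [h2] at h1
  linarith

/-- Geometric sequences with ratios above `ρ` are independent modulo sequences of growth `ρ`. -/
theorem geom_indep {ρ : ℝ} (hρ : 0 < ρ) (F : Finset ℝ) (hF : ∀ r ∈ F, ρ < r) (a : ℝ → ℝ) (C : ℝ)
    (h : ∀ᶠ k : ℕ in atTop, |∑ r ∈ F, a r * r ^ k| ≤ C * ρ ^ k) : ∀ r ∈ F, a r = 0 := by
  induction F using Finset.induction_on_max with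
  | empty => simp
  | insert R F hlt ih =>
    have hRF : R ∉ F := fun h => lt_irrefl _ (hlt R h)
    have hR : ρ < R := hF R (Finset.mem_insert_self _ _)
    have hR0 : 0 < R := hρ.trans hR
    have h1 : Tendsto (fun k : ℕ => (∑ r ∈ insert R F, a r * r ^ k) / R ^ k) atTop (𝓝 (a R)) := by
      have h2 : Tendsto (fun k : ℕ => a R + ∑ r ∈ F, a r * (r / R) ^ k) atTop
          (𝓝 (a R + ∑ r ∈ F, a r * 0)) := by
        refine tendsto_const_nhds.add (tendsto_finsetSum _ fun r hr => Tendsto.const_mul _ ?_)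
        have hr0 : 0 < r := hρ.trans (hF r (Finset.mem_insert_of_mem hr))
        exact tendsto_pow_atTop_nhds_zero_of_lt_one (by positivity)
          ((div_lt_one hR0).2 (hlt r hr))
      simp only [mul_zero, Finset.sum_const_zero, add_zero] at h2
      refine h2.congr fun k => ?_
      rw [Finset.sum_insert hRF, add_div, Finset.sum_div, mul_div_assoc,
        div_self (pow_pos hR0 k).ne', mul_one]
      congr 1
      exact Finset.sum_congr rfl fun r _ => by rw [div_pow, mul_div_assoc]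
    have h3 : Tendsto (fun k : ℕ => (∑ r ∈ insert R F, a r * r ^ k) / R ^ k) atTop (𝓝 0) := by
      have h4 : Tendsto (fun k : ℕ => C * (ρ / R) ^ k) atTop (𝓝 (C * 0)) :=
        (tendsto_pow_atTop_nhds_zero_of_lt_one (by positivity) ((div_lt_one hR0).2 hR)).const_mul _
      rw [mul_zero] at h4
      refine squeeze_zero_norm' (h.mono fun k hk => ?_) h4
      rw [Real.norm_eq_abs, abs_div, abs_of_pos (pow_pos hR0 k), div_pow, ← mul_div_assoc]
      exact div_le_div_of_nonneg_right hk (pow_pos hR0 k).le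
    have h5 : a R = 0 := tendsto_nhds_unique h1 h3
    intro r hr
    rcases Finset.mem_insert.1 hr with rfl | hr
    · exact h5
    · refine ih (fun r hr => hF r (Finset.mem_insert_of_mem hr)) (h.mono fun k hk => ?_) r hr
      rwa [Finset.sum_insert hRF, h5, zero_mul, zero_add] at hk

end Pool.Agent.MP_e733ef_an.Sep
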