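import Mathlib
import Pool.Agent.MP_e733ef_an.Space

/-!
Baire graphs of families of functionals that are prescribed on a given subspace.
-/

open Cardinal Set TopologicalSpace Filter Topology

namespace Pool.Agent.MP_e733ef_an.Sep

/-- A coded set is large if its projection is not covered by `Z` and fewer than continuum many
vectors. -/
def LargeZ {X Φ : Type} [NormedAddCommGroup X] [NormedSpace ℝ X] (Z : Submodule ℝ X)
    (τ : ℕ → ℕ × Box X Φ) : Prop :=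
  ∀ s : Set X, #s < 𝔠 → ∃ p ∈ taskSet τ, p.1 ∉ Z ⊔ Submodule.span ℝ s

theorem exists_map_meetingZ {X Φ : Type} [NormedAddCommGroup X] [NormedSpace ℝ X]
    [Nonempty Φ] (hX : #X ≤ 𝔠) (hΦ : #Φ ≤ 𝔠) (Z : Submodule ℝ X) (θ : Φ → X →ₗ[ℝ] ℝ) :
    ∃ L : X →ₗ[ℝ] (Φ → ℝ), (∀ τ : ℕ → ℕ × Box X Φ, LargeZ Z τ → ∃ x, (x, L x) ∈ taskSet τ) ∧
      (∀ x, {a | L x a ≠ θ a x}.Countable) ∧ ∀ x ∈ Z, ∀ a, L x a = θ a x := by
  classical
  have hc : (𝔠 : Cardinal.{0}) * 𝔠 = 𝔠 := by simp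
  have hQ : #ℚ ≤ 𝔠 := by simp [aleph0_le_continuum]
  have hN : #ℕ ≤ 𝔠 := by simp [aleph0_le_continuum]
  have hprod : ∀ {A B : Type}, #A ≤ 𝔠 → #B ≤ 𝔠 → #(A × B) ≤ 𝔠 := by
    intro A B hA hB
    rw [Cardinal.mk_prod, lift_id, lift_id, ← hc]
    exact mul_le_mul' hA hB
  have hB : #(ℕ × Box X Φ) ≤ 𝔠 := by
    refine hprod hN (hprod hX (hprod hQ ?_))
    rw [Cardinal.mk_finset_of_infinite]
    exact hprod hΦ (hprod hQ hQ)
  have hT : #(ℕ → ℕ × Box X Φ) ≤ 𝔠 := by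
    rw [← Cardinal.power_def, Cardinal.mk_nat, ← Cardinal.continuum_power_aleph0]
    exact Cardinal.power_le_power_right hB
  let T := {τ : ℕ → ℕ × Box X Φ // LargeZ Z τ}
  obtain ⟨z, hz, hli⟩ := indep_select (ι := T) (V := X ⧸ Z)
    (fun τ => (fun p : X × (Φ → ℝ) => Z.mkQ p.1) '' taskSet τ.1)
    ((Cardinal.mk_subtype_le _).trans hT) (fun τ s hs => by
      obtain ⟨p, hp, hps⟩ := τ.2 (Function.surjInv Z.mkQ_surjective '' s) (mk_image_le.trans_lt hs)
      refine ⟨_, ⟨p, hp, rfl⟩, fun h => hps ?_⟩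
      have h1 : s = Z.mkQ '' (Function.surjInv Z.mkQ_surjective '' s) := by
        rw [← image_comp, (Function.rightInverse_surjInv Z.mkQ_surjective).comp_eq_id, image_id]
      rw [h1, ← Submodule.map_span] at h
      rw [← Submodule.comap_map_mkQ]
      exact h)
  choose p hp hpz using hz
  let C : T → Set Φ := fun τ => ⋃ j, Prod.fst '' ((τ.1 j).2.2.2 : Set (Φ × ℚ × ℚ))
  have hC : ∀ τ, (C τ).Countable := fun τ =>
    countable_iUnion fun j => (Finset.countable_toSet _).image _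
  obtain ⟨L, hL, hcount⟩ := exists_functionals z hli C hC
    (fun τ a => (p τ).2 a - θ a (p τ).1) (fun _ => 0)
  refine ⟨LinearMap.pi θ + L ∘ₗ Z.mkQ, fun τ hτ => ⟨(p ⟨τ, hτ⟩).1, fun k => ?_⟩, fun x => ?_,
    fun x hx a => ?_⟩
  · obtain ⟨j, hj, hmem⟩ := hp ⟨τ, hτ⟩ k
    refine ⟨j, hj, mem_boxSet_congr (s := (p ⟨τ, hτ⟩).2) (fun c hc => ?_) hmem⟩
    have h1 := hL ⟨τ, hτ⟩ c.1 (mem_iUnion.2 ⟨j, c, hc, rfl⟩)
    rw [← hpz ⟨τ, hτ⟩] at h1
    show _ = θ c.1 (p ⟨τ, hτ⟩).1 + L (Z.mkQ (p ⟨τ, hτ⟩).1) c.1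
    rw [h1]; ring
  · refine (hcount (Z.mkQ x)).mono fun a ha => ?_
    intro h
    refine ha ?_
    show θ a x + L (Z.mkQ x) a = θ a x
    rw [h]; simp
  · show θ a x + L (Z.mkQ x) a = θ a x
    rw [Submodule.mkQ_apply, (Submodule.Quotient.mk_eq_zero Z).2 hx, map_zero]; simp

section Baire

variable {X Φ : Type} [NormedAddCommGroup X] [NormedSpace ℝ X]

theorem graph_meets_boxZ {Z : Submodule ℝ X}
    (hbig : ∀ s : Set X, #s < 𝔠 → Z ⊔ Submodule.span ℝ s ≠ ⊤)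
    {L : X →ₗ[ℝ] (Φ → ℝ)}
    (hL : ∀ τ : ℕ → ℕ × Box X Φ, LargeZ Z τ → ∃ x, (x, L x) ∈ taskSet τ)
    (b : Box X Φ) (hb : (boxSet b).Nonempty) : ∃ x, (x, L x) ∈ boxSet b := by
  obtain ⟨p, hp⟩ := hb
  have : LargeZ Z (fun j : ℕ => (j, b)) := by
    intro s hs
    by_contra hcon
    push Not at hcon
    apply hbig s hs
    apply Submodule.eq_top_of_nonempty_interior'
    refine ⟨p.1, mem_interior.2 ⟨Metric.ball b.1 b.2.1, fun y hy => ?_, Metric.isOpen_ball, hp.1⟩⟩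
    exact hcon (y, p.2) fun k => ⟨k, rfl, hy, hp.2⟩
  obtain ⟨x, hx⟩ := hL _ this
  obtain ⟨_, _, h⟩ := hx 0
  exact ⟨x, h⟩

theorem baireSpace_graphZ [CompleteSpace X] {Z : Submodule ℝ X} {S : Set X} (hS : IsSeparable S)
    (hbig : ∀ s : Set X, #s < 𝔠 → ¬ S ⊆ (Z ⊔ Submodule.span ℝ s : Submodule ℝ X))
    {L : X →ₗ[ℝ] (Φ → ℝ)}
    (hL : ∀ τ : ℕ → ℕ × Box X Φ, LargeZ Z τ → ∃ x, (x, L x) ∈ taskSet τ) :
    BaireSpace L.graph := by
  classical
  have hbig' : ∀ s : Set X, #s < 𝔠 → Z ⊔ Submodule.span ℝ s ≠ ⊤ := fun s hs h =>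
    hbig s hs (by rw [h]; exact subset_univ _)
  refine baire_of_nonempty fun G ho hd => ?_
  -- responses
  have hresp : ∀ (k : ℕ) (b : Box X Φ), ∃ b' : Box X Φ, (boxSet b).Nonempty →
      ((b'.1, L b'.1) ∈ boxSet b ∧ (b'.1, L b'.1) ∈ boxSet b' ∧
        ∀ e : L.graph, e.1 ∈ boxSet b' → e ∈ G k) := by
    intro k b
    by_cases hb : (boxSet b).Nonempty
    · obtain ⟨x, hx⟩ := graph_meets_boxZ hbig' hL b hb
      obtain ⟨e, he1, he2⟩ := (hd k).inter_open_nonempty (Subtype.val ⁻¹' boxSet b)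
        ((isOpen_boxSet b).preimage continuous_subtype_val) ⟨⟨(x, L x), by simp⟩, hx⟩
      obtain ⟨W, hW, hWG⟩ := isOpen_induced_iff.1 (ho k)
      have heW : e.1 ∈ W := by rw [← hWG] at he2; exact he2
      obtain ⟨b', h1, h2, h3⟩ := exists_box hW heW
      have he : (b'.1, L b'.1) = e.1 := by
        have := (LinearMap.mem_graph_iff L e.1).1 e.2
        rw [h1, ← this]
      refine ⟨b', fun _ => ⟨by rw [he]; exact he1, by rw [he]; exact h2, fun e' he' => ?_⟩⟩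
      rw [← hWG]; exact h3 he'
    · exact ⟨b, fun h => absurd h hb⟩
  choose resp hresp using hresp
  obtain ⟨D₀, hD₀c, hSD₀⟩ := hS
  let R : Finset (X ⊕ Φ) → Set (X ⊕ Φ) := fun s =>
    (Sum.inl '' insert 0 D₀ ∪
      (fun q : X × X => Sum.inl (q.1 - q.2)) ''
        ((Sum.inl ⁻¹' (↑s : Set (X ⊕ Φ))) ×ˢ (Sum.inl ⁻¹' (↑s : Set (X ⊕ Φ))))) ∪
      ⋃ k : ℕ, ⋃ b ∈ {b : Box X Φ | (↑(boxData b) : Set (X ⊕ Φ)) ⊆ ↑s},
        (↑(boxData (resp k b)) : Set (X ⊕ Φ))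
  have hR : ∀ s, (R s).Countable := by
    intro s
    have h1 : (Sum.inl ⁻¹' (↑s : Set (X ⊕ Φ)) : Set X).Countable :=
      s.countable_toSet.preimage Sum.inl_injective
    refine (((hD₀c.insert 0).image _).union ((h1.prod h1).image _)).union ?_
    exact countable_iUnion fun k => Set.Countable.biUnion (countable_boxes s.countable_toSet)
      fun b _ => Finset.countable_toSet _
  obtain ⟨A, hAc, hA⟩ := closing_off R hR
  have hA0 : ∀ x ∈ insert 0 D₀, Sum.inl x ∈ A := fun x hx =>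
    hA ∅ (by simp) (Or.inl (Or.inl ⟨x, hx, rfl⟩))
  have hAsub : ∀ x y : X, Sum.inl x ∈ A → Sum.inl y ∈ A → Sum.inl (x - y) ∈ A := by
    intro x y hx hy
    refine hA {Sum.inl x, Sum.inl y} ?_ (Or.inl (Or.inr ⟨(x, y), ⟨by simp, by simp⟩, rfl⟩))
    simp [insert_subset_iff, hx, hy]
  have hAresp : ∀ k (b : Box X Φ), (↑(boxData b) : Set (X ⊕ Φ)) ⊆ A →
      (↑(boxData (resp k b)) : Set (X ⊕ Φ)) ⊆ A := by
    intro k b hb y hy
    refine hA (boxData b) hb (Or.inr ?_)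
    exact mem_iUnion.2 ⟨k, mem_biUnion (show b ∈ {b' : Box X Φ |
      (↑(boxData b') : Set (X ⊕ Φ)) ⊆ ↑(boxData b)} from Subset.rfl) hy⟩
  let D : AddSubgroup X := AddSubgroup.ofSub (Sum.inl ⁻¹' A) ⟨0, hA0 0 (mem_insert _ _)⟩
    fun x hx y hy => by rw [← sub_eq_add_neg]; exact hAsub x y hx hy
  have hD : ∀ x, x ∈ D ↔ Sum.inl x ∈ A := fun x => Iff.rfl
  let C : Set Φ := Sum.inr ⁻¹' A
  have hCc : Countable C := (hAc.preimage Sum.inr_injective).to_subtype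
  let H : AddSubgroup X := D.topologicalClosure
  have hHc : IsClosed (H : Set X) := D.isClosed_topologicalClosure
  have : CompleteSpace H := hHc.completeSpace_coe
  let B : Set (Box X Φ) := {b | (↑(boxData b) : Set (X ⊕ Φ)) ⊆ A ∧ (boxSet b).Nonempty}
  have hBc : B.Countable := (countable_boxes hAc).mono fun b hb => hb.1
  have hBne : B.Nonempty := by
    refine ⟨(0, 1, ∅), (boxData_subset_iff _ _).2 ⟨hA0 0 (mem_insert _ _), by simp⟩, (0, 0), ?_⟩
    simp [boxSet]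
  obtain ⟨τ, hτ⟩ := (((countable_univ (α := ℕ)).prod hBc).image
    (fun q : ℕ × Box X Φ => (q.1, resp q.1 q.2))).exists_eq_range
    ((univ_nonempty.prod hBne).image _)
  have hτ1 : ∀ j, ∃ b ∈ B, (τ j).2 = resp (τ j).1 b := by
    intro j
    have : τ j ∈ range τ := mem_range_self j
    rw [← hτ] at this
    obtain ⟨q, hq, hqj⟩ := this
    exact ⟨q.2, hq.2, by rw [← hqj]⟩
  have hτ2 : ∀ k, ∀ b ∈ B, ∃ j, τ j = (k, resp k b) := by
    intro k b hb
    have : (k, resp k b) ∈ range τ := by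
      rw [← hτ]; exact ⟨(k, b), ⟨mem_univ _, hb⟩, rfl⟩
    exact this
  have hlarge : LargeZ Z τ := by
    intro s hs
    by_contra hcon
    push Not at hcon
    refine hbig s hs fun g hg => ?_
    have hgH : g ∈ H := by
      have : closure D₀ ⊆ closure (D : Set X) :=
        closure_mono fun x hx => hA0 x (mem_insert_of_mem _ hx)
      exact this (hSD₀ hg)
    let J : H × (C → ℝ) → X × (Φ → ℝ) := fun y =>
      (y.1.1, fun a => if h : a ∈ C then y.2 ⟨a, h⟩ else 0)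
    have hJ : Continuous J := by
      refine (continuous_subtype_val.comp continuous_fst).prodMk (continuous_pi fun a => ?_)
      by_cases h : a ∈ C
      · simp only [dif_pos h]; fun_prop
      · simp only [dif_neg h]; exact continuous_const
    let V : ℕ → Set (H × (C → ℝ)) := fun k => J ⁻¹' ⋃ b ∈ B, boxSet (resp k b)
    have hVo : ∀ k, IsOpen (V k) := fun k =>
      (isOpen_biUnion fun b _ => isOpen_boxSet _).preimage hJ
    have hVd : ∀ k, Dense (V k) := by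
      intro k
      rw [dense_iff_inter_open]
      rintro W hW ⟨p₀, hp₀⟩
      have hDd : Dense (Subtype.val ⁻¹' (D : Set X) : Set H) := by
        rw [Subtype.dense_iff]
        refine closure_mono (s := (D : Set X)) fun x hx => ?_
        exact ⟨⟨x, D.le_topologicalClosure hx⟩, hx, rfl⟩
      obtain ⟨h, hh1, hh2⟩ := hDd.inter_open_nonempty ((fun h : H => (h, p₀.2)) ⁻¹' W)
        (hW.preimage (by fun_prop)) ⟨p₀.1, hp₀⟩
      obtain ⟨b₀, hb1, hb2, hb3⟩ := exists_box hW (p := (h, p₀.2)) hh1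
      let b : Box X Φ := (b₀.1.1, b₀.2.1, b₀.2.2.image fun c => (c.1.1, c.2))
      have hbB : b ∈ B := by
        refine ⟨(boxData_subset_iff _ _).2 ⟨?_, fun c hc => ?_⟩, J (h, p₀.2), ?_, fun c hc => ?_⟩
        · show Sum.inl b₀.1.1 ∈ A
          rw [hb1]; exact hh2
        · obtain ⟨c₀, -, rfl⟩ := Finset.mem_image.1 hc
          exact c₀.1.2
        · exact hb2.1
        · obtain ⟨c₀, hc₀, rfl⟩ := Finset.mem_image.1 hc
          have := hb2.2 c₀ hc₀
          simpa [J] using this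
      obtain ⟨r1, r2, -⟩ := hresp k b hbB.2
      obtain ⟨d1, d2⟩ := (boxData_subset_iff _ _).1 (hAresp k b hbB.1)
      have hx' : (resp k b).1 ∈ H := D.le_topologicalClosure ((hD _).2 d1)
      refine ⟨(⟨(resp k b).1, hx'⟩, fun a => L (resp k b).1 a.1), hb3 ⟨r1.1, fun c hc => ?_⟩, ?_⟩
      · exact r1.2 (c.1.1, c.2) (Finset.mem_image_of_mem (fun c : C × ℚ × ℚ => (c.1.1, c.2)) hc)
      · refine mem_biUnion hbB (mem_boxSet_congr (s := L (resp k b).1) (fun c hc => ?_) r2)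
        have : c.1 ∈ C := d2 c hc
        simp [this]
    let v : H × (C → ℝ) := (⟨g, hgH⟩, 0)
    have hdense : Dense (⋂ k, V k ∩ (Homeomorph.subRight v) ⁻¹' V k) :=
      dense_iInter_of_isOpen
        (fun k => (hVo k).inter ((hVo k).preimage (Homeomorph.subRight v).continuous))
        (fun k => (hVd k).inter_of_isOpen_left
          ((hVd k).preimage (Homeomorph.subRight v).isOpenMap) (hVo k))
    obtain ⟨y, hy⟩ := hdense.nonempty
    have key : ∀ y' : H × (C → ℝ), (∀ k, y' ∈ V k) → y'.1.1 ∈ Z ⊔ Submodule.span ℝ s := by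
      intro y' hy'
      refine hcon (J y') fun k => ?_
      obtain ⟨b, hb, hmem⟩ := mem_iUnion₂.1 (hy' k)
      obtain ⟨j, hj⟩ := hτ2 k b hb
      exact ⟨j, by rw [hj], by rw [hj]; exact hmem⟩
    have h1 := key y fun k => (mem_iInter.1 hy k).1
    have h2 := key (y - v) fun k => (mem_iInter.1 hy k).2
    have h3 := Submodule.sub_mem _ h1 h2
    simpa [v] using h3
  obtain ⟨x, hx⟩ := hL τ hlarge
  refine ⟨⟨(x, L x), by simp⟩, mem_iInter.2 fun k => ?_⟩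
  obtain ⟨j, hj, hmem⟩ := hx k
  obtain ⟨b, hb, hjb⟩ := hτ1 j
  rw [hjb, hj] at hmem
  exact (hresp k b hb.2).2.2 _ hmem

end Baire

end Pool.Agent.MP_e733ef_an.Sep
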