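import Mathlib
import Pool.Agent.MP_e733ef_an.SepA

/-!
General lemmas on locally convex spaces, strong duals and graphs of families of functionals.
-/

open Cardinal Set TopologicalSpace Filter Topology

namespace Pool.Agent.MP_e733ef_an.Sep

/-- A countable set that is annihilated only by the zero functional makes the space separable. -/
theorem separable_of_dual {V : Type} [AddCommGroup V] [Module ℝ V] [TopologicalSpace V]
    [IsTopologicalAddGroup V] [ContinuousSMul ℝ V] [LocallyConvexSpace ℝ V] (S : Set V)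
    (hS : S.Countable) (h : ∀ g : V →L[ℝ] ℝ, (∀ x ∈ S, g x = 0) → g = 0) : SeparableSpace V := by
  rw [← isSeparable_univ_iff]
  refine (hS.isSeparable.span (R := ℝ)).closure.mono fun x _ => ?_
  by_contra hx
  let W := (Submodule.span ℝ S).topologicalClosure
  obtain ⟨g, u, h1, h2⟩ := geometric_hahn_banach_point_closed W.convex
    (Submodule.isClosed_topologicalClosure _) hx
  have h0 : u < 0 := by simpa using h2 0 W.zero_mem
  have h3 : g = 0 := h g fun y hy => by
    by_contra hne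
    have hyW : y ∈ W := Submodule.le_topologicalClosure _ (Submodule.subset_span hy)
    have := h2 _ (W.smul_mem (u / g y) hyW)
    rw [map_smul, smul_eq_mul, div_mul_cancel₀ _ hne] at this
    exact lt_irrefl _ this
  rw [h3] at h1
  simp at h1
  linarith

/-- A functional on the strong dual is dominated by the sup norm over a bounded set. -/
theorem strong_bound {E : Type} [AddCommGroup E] [Module ℝ E] [TopologicalSpace E]
    (Λ : StrongDual ℝ E →L[ℝ] ℝ) : ∃ (B : Set E) (K : ℝ), Bornology.IsVonNBounded ℝ B ∧ 0 ≤ K ∧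
      ∀ (φ : StrongDual ℝ E) (r : ℝ), 0 ≤ r → (∀ x ∈ B, |φ x| ≤ r) → |Λ φ| ≤ K * r := by
  have h1 : Λ ⁻¹' Metric.ball 0 1 ∈ 𝓝 (0 : StrongDual ℝ E) :=
    Λ.continuous.continuousAt.preimage_mem_nhds (by
      rw [map_zero]; exact Metric.ball_mem_nhds _ one_pos)
  obtain ⟨⟨B, V⟩, ⟨hB, hV⟩, hsub⟩ := ContinuousLinearMap.hasBasis_nhds_zero.mem_iff.1 h1
  obtain ⟨δ, hδ, hδV⟩ := Metric.nhds_basis_closedBall.mem_iff.1 hV
  have h2 : ∀ (φ : StrongDual ℝ E) (r : ℝ), 0 < r → (∀ x ∈ B, |φ x| ≤ r) → |Λ φ| ≤ δ⁻¹ * r := by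
    intro φ r hr hφ
    have h3 : (δ / r) • φ ∈ Λ ⁻¹' Metric.ball 0 1 := hsub fun x hx => hδV (by
      rw [mem_closedBall_zero_iff, _root_.smul_apply, smul_eq_mul, Real.norm_eq_abs,
        abs_mul, abs_of_pos (by positivity : 0 < δ / r), div_mul_eq_mul_div, div_le_iff₀ hr]
      exact mul_le_mul_of_nonneg_left (hφ x hx) hδ.le)
    rw [mem_preimage, mem_ball_zero_iff, map_smul, smul_eq_mul, Real.norm_eq_abs, abs_mul,
      abs_of_pos (by positivity : 0 < δ / r), div_mul_eq_mul_div, div_lt_one hr] at h3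
    rw [le_inv_mul_iff₀ hδ]
    exact h3.le
  refine ⟨B, δ⁻¹, hB, by positivity, fun φ r hr hφ => ?_⟩
  refine le_of_forall_pos_le_add fun ε hε => ?_
  have := h2 φ (r + δ * ε) (by positivity) fun x hx =>
    (hφ x hx).trans (le_add_of_nonneg_right (by positivity))
  rwa [mul_add, ← mul_assoc, inv_mul_cancel₀ hδ.ne', one_mul] at this

/-- If every linear functional is bounded on a set, the set lies in a finite-dimensional box. -/
theorem finite_box {V : Type} [AddCommGroup V] [Module ℝ V] (M : Set V)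
    (h : ∀ l : V →ₗ[ℝ] ℝ, ∃ C, ∀ x ∈ M, |l x| ≤ C) :
    ∃ (m : ℕ) (f : Fin m → V) (C : ℝ), 0 ≤ C ∧ ∀ x ∈ M, ∃ a : Fin m → ℝ, ∑ i, |a i| ≤ C ∧
      x = ∑ i, a i • f i := by
  have := finite_span M h
  let W := Submodule.span ℝ M
  let b := Module.finBasis ℝ W
  choose l hl using fun i => (b.coord i).exists_extend
  choose C hC using fun i => h (l i)
  refine ⟨_, fun i => (b i).1, ∑ i, |C i|, Finset.sum_nonneg fun _ _ => abs_nonneg _,
    fun x hx => ⟨fun i => l i x, Finset.sum_le_sum fun i _ => (hC i x hx).trans (le_abs_self _), ?_⟩⟩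
  have h1 := congrArg W.subtype (b.sum_repr ⟨x, Submodule.subset_span hx⟩)
  rw [map_sum] at h1
  refine h1.symm.trans (Finset.sum_congr rfl fun i _ => ?_)
  rw [map_smul]
  congr 1
  exact (LinearMap.congr_fun (hl i) ⟨x, Submodule.subset_span hx⟩).symm

/-- Continuum many independent vectors are not spanned by fewer than continuum many vectors. -/
theorem exists_notMem_span {V : Type} [AddCommGroup V] [Module ℝ V] (v : ℝ → V) {p q : ℝ}
    (hpq : p < q) (hv : ∀ (F : Finset ℝ) (a : ℝ → ℝ), (∀ r ∈ F, r ∈ Ioo p q) →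
      ∑ r ∈ F, a r • v r = 0 → ∀ r ∈ F, a r = 0) (s : Set V) (hs : #s < 𝔠) :
    ∃ r ∈ Ioo p q, v r ∉ Submodule.span ℝ s := by
  by_contra hcon
  push Not at hcon
  have hli : LinearIndepOn ℝ v (Ioo p q) := by
    rw [linearIndepOn_iff]
    intro l hl h0
    ext r
    by_contra hr
    exact hr (hv l.support l (fun r hr => (Finsupp.mem_supported ℝ l).1 hl hr) h0 r
      (Finsupp.mem_support_iff.2 hr))
  let w : Ioo p q → Submodule.span ℝ s := fun r => ⟨v r.1, hcon r.1 r.2⟩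
  have hw : LinearIndependent ℝ w := LinearIndependent.of_comp (Submodule.span ℝ s).subtype hli
  have h1 := hw.cardinal_le_rank.trans (rank_span_le s)
  rw [Cardinal.mk_Ioo_real hpq] at h1
  exact absurd hs (not_lt.2 h1)

section Graph

variable {X Φ : Type} [NormedAddCommGroup X] [NormedSpace ℝ X] (L : X →ₗ[ℝ] (Φ → ℝ))

/-- The point of the graph above a vector. -/
def lift : X →ₗ[ℝ] L.graph :=
  (LinearMap.prod LinearMap.id L).codRestrict L.graph fun x => by simp

/-- The projection of the graph. -/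
def proj : L.graph →L[ℝ] X := (ContinuousLinearMap.fst ℝ _ _) ∘L L.graph.subtypeL

theorem proj_lift (x : X) : proj L (lift L x) = x := rfl

theorem lift_proj (e : L.graph) : lift L (proj L e) = e :=
  Subtype.ext (Prod.ext rfl ((LinearMap.mem_graph_iff L e.1).1 e.2).symm)

/-- The coordinate functionals of the graph. -/
def coord (a : Φ) : L.graph →L[ℝ] ℝ :=
  (ContinuousLinearMap.proj a) ∘L (ContinuousLinearMap.snd ℝ X _) ∘L L.graph.subtypeL

theorem coord_lift (a : Φ) (x : X) : coord L a (lift L x) = L x a := rfl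

/-- The dual of a graph. -/
theorem dual_graph (φ : L.graph →L[ℝ] ℝ) : ∃ (x' : X →L[ℝ] ℝ) (l : Φ →₀ ℝ),
    ∀ x, φ (lift L x) = x' x + ∑ a ∈ l.support, l a * L x a := by
  obtain ⟨g, hg⟩ := StrongDual.exists_extension L.graph φ
  have h1 : (g ∘L ContinuousLinearMap.inr ℝ X (Φ → ℝ)).toLinearMap ∈
      Submodule.span ℝ (range fun a : Φ => (LinearMap.proj a : (Φ → ℝ) →ₗ[ℝ] ℝ)) :=
    (LinearMap.mem_span_iff_continuous _).2 (g ∘L ContinuousLinearMap.inr ℝ X (Φ → ℝ)).continuous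
  obtain ⟨l, hl⟩ := Finsupp.mem_span_range_iff_exists_finsupp.1 h1
  refine ⟨g ∘L ContinuousLinearMap.inl ℝ X (Φ → ℝ), l, fun x => ?_⟩
  have h2 := LinearMap.congr_fun hl (L x)
  rw [Finsupp.sum, LinearMap.sum_apply] at h2
  rw [← hg]
  show g (x, L x) = g (x, 0) + _
  rw [show (x, L x) = (x, 0) + (0, L x) by simp, map_add]
  congr 1
  exact h2.symm

theorem bounded_graph (B : Set X) {C : ℝ} (h1 : ∀ x ∈ B, ‖x‖ ≤ C)
    (h2 : ∀ a, ∃ C, ∀ x ∈ B, |L x a| ≤ C) : Bornology.IsVonNBounded ℝ (lift L '' B) := by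
  have h0 : ∀ C : ℝ, Tendsto (fun n : ℕ => (1 / ((n : ℝ) + 1)) * C) atTop (𝓝 0) := fun C => by
    simpa using (tendsto_one_div_add_atTop_nhds_zero_nat (𝕜 := ℝ)).mul_const C
  have hp : ∀ n : ℕ, 0 < 1 / ((n : ℝ) + 1) := fun n => by positivity
  refine Bornology.isVonNBounded_of_smul_tendsto_zero (l := atTop)
    (ε := fun n : ℕ => 1 / ((n : ℝ) + 1)) (Eventually.of_forall fun n => (hp n).ne') fun y hy => ?_
  choose x hx hxy using hy
  rw [tendsto_subtype_rng]
  refine Tendsto.prodMk_nhds (mx := fun n : ℕ => ((1 / ((n : ℝ) + 1)) • y n).1.1)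
    (my := fun n : ℕ => ((1 / ((n : ℝ) + 1)) • y n).1.2) ?_ (tendsto_pi_nhds.2 fun a => ?_)
  · refine squeeze_zero_norm (fun n => ?_) (h0 C)
    rw [← hxy n]
    show ‖(1 / ((n : ℝ) + 1)) • x n‖ ≤ _
    rw [norm_smul, Real.norm_of_nonneg (hp n).le]
    exact mul_le_mul_of_nonneg_left (h1 _ (hx n)) (hp n).le
  · obtain ⟨C, hC⟩ := h2 a
    refine squeeze_zero_norm (fun n => ?_) (h0 C)
    rw [← hxy n]
    show ‖(1 / ((n : ℝ) + 1)) * L (x n) a‖ ≤ _
    rw [norm_mul, Real.norm_of_nonneg (hp n).le]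
    exact mul_le_mul_of_nonneg_left (hC _ (hx n)) (hp n).le

theorem dual_bounded {E : Type} [AddCommGroup E] [Module ℝ E] [TopologicalSpace E]
    {B : Set E} (hB : Bornology.IsVonNBounded ℝ B) (φ : E →L[ℝ] ℝ) :
    ∃ C, ∀ e ∈ B, |φ e| ≤ C := by
  obtain ⟨C, hC⟩ := ((NormedSpace.isVonNBounded_iff ℝ).1 (hB.image φ)).exists_norm_le
  exact ⟨C, fun e he => hC _ ⟨e, he, rfl⟩⟩

end Graph

end Pool.Agent.MP_e733ef_an.Sep
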