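import Mathlib
import Pool.Agent.MP_e733ef_an.SepC

/-!
Systems of vectors in a Banach space with distinguished weakly null sequences; admissible
functionals and the sets on which all of them are bounded.
-/

open Cardinal Set TopologicalSpace Filter Topology

namespace Pool.Agent.MP_e733ef_an.Sep

/-- Almost covered by finitely many of the distinguished sequences. -/
def Small {ι T : Type} (sib : T → ℕ → ι) (N : Set ι) : Prop :=
  ∃ F : Finset T, (N \ ⋃ t ∈ F, range (sib t)).Finite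

/-- Almost disjoint from each of the distinguished sequences. -/
def Thin {ι T : Type} (sib : T → ℕ → ι) (N : Set ι) : Prop := ∀ t, {n | sib t n ∈ N}.Finite

/-- Null along each of the distinguished sequences. -/
def Adm {ι T : Type} (sib : T → ℕ → ι) (ν : ι → ℝ) : Prop :=
  ∀ t, Tendsto (fun n => ν (sib t n)) cofinite (𝓝 0)

section Ideal

variable {ι T : Type} {sib : T → ℕ → ι}

theorem Small.mono {N N' : Set ι} (h : Small sib N) (hN : N' ⊆ N) : Small sib N' :=
  let ⟨F, hF⟩ := h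
  ⟨F, hF.subset (sdiff_subset_sdiff_left hN)⟩

theorem small_of_finite {N : Set ι} (h : N.Finite) : Small sib N := ⟨∅, h.subset sdiff_subset⟩

theorem Small.union {N N' : Set ι} (h : Small sib N) (h' : Small sib N') : Small sib (N ∪ N') := by
  classical
  obtain ⟨F, hF⟩ := h
  obtain ⟨F', hF'⟩ := h'
  refine ⟨F ∪ F', (hF.union hF').subset ?_⟩
  rintro s ⟨hs | hs, hn⟩
  · exact Or.inl ⟨hs, fun h => hn (biUnion_subset_biUnion_left (by simp) h)⟩
  · exact Or.inr ⟨hs, fun h => hn (biUnion_subset_biUnion_left (by simp) h)⟩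

theorem Small.finite_inter {N N' : Set ι} (h : Small sib N) (h' : Thin sib N') :
    (N ∩ N').Finite := by
  obtain ⟨F, hF⟩ := h
  refine (hF.union (F.finite_toSet.biUnion fun t _ => (h' t).image (sib t))).subset fun s hs => ?_
  by_cases h : s ∈ ⋃ t ∈ F, range (sib t)
  · obtain ⟨t, ht, n, rfl⟩ := mem_iUnion₂.1 h
    exact Or.inr (mem_biUnion ht ⟨n, hs.2, rfl⟩)
  · exact Or.inl ⟨hs.1, h⟩

theorem Adm.finite_large {ν : ι → ℝ} (hν : Adm sib ν) {N : Set ι} (h : Small sib N) {ε : ℝ}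
    (hε : 0 < ε) : {s ∈ N | ¬ |ν s| < ε}.Finite := by
  obtain ⟨F, hF⟩ := h
  have h1 : ∀ t, {n | ¬ |ν (sib t n)| < ε}.Finite := fun t => by
    simpa [Real.dist_eq, eventually_cofinite] using Metric.tendsto_nhds.1 (hν t) ε hε
  refine (hF.union (F.finite_toSet.biUnion fun t _ => (h1 t).image (sib t))).subset fun s hs => ?_
  by_cases h : s ∈ ⋃ t ∈ F, range (sib t)
  · obtain ⟨t, ht, n, rfl⟩ := mem_iUnion₂.1 h
    exact Or.inr (mem_biUnion ht ⟨n, hs.2, rfl⟩)
  · exact Or.inl ⟨hs.1, h⟩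

theorem Adm.bdd {ν : ι → ℝ} (hν : Adm sib ν) {N : Set ι} (h : Small sib N) :
    ∃ r, ∀ s ∈ N, |ν s| ≤ r := by
  obtain ⟨r, hr⟩ := ((hν.finite_large h one_pos).image fun s => |ν s|).bddAbove
  refine ⟨max r 1, fun s hs => ?_⟩
  by_cases h1 : |ν s| < 1
  · exact h1.le.trans (le_max_right _ _)
  · exact (hr ⟨s, ⟨hs, h1⟩, rfl⟩).trans (le_max_left _ _)

theorem Thin.adm {N : Set ι} (h : Thin sib N) {ν : ι → ℝ} (hν : ∀ s, s ∉ N → ν s = 0) :
    Adm sib ν := fun t =>
  (tendsto_cofinite_pure_iff.2 ((h t).subset fun n hn => by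
    by_contra hc
    exact hn (hν _ hc))).mono_right (pure_le_nhds 0)

end Ideal

/-- Absolutely summable families. -/
def L1 (ι : Type) : Submodule ℝ (ι → ℝ) where
  carrier := {c | Summable fun s => |c s|}
  add_mem' := fun {c d} hc hd =>
    Summable.of_nonneg_of_le (fun _ => abs_nonneg _) (fun s => abs_add_le (c s) (d s)) (hc.add hd)
  zero_mem' := by simp
  smul_mem' := fun a c hc => by
    simpa [abs_mul] using Summable.mul_left |a| hc

/-- Absolutely summable families with small support. -/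
def Coef {ι T : Type} (sib : T → ℕ → ι) : Submodule ℝ (ι → ℝ) where
  carrier := {c | c ∈ L1 ι ∧ Small sib (Function.support c)}
  add_mem' := fun {c d} hc hd =>
    ⟨add_mem hc.1 hd.1, (hc.2.union hd.2).mono (Function.support_add c d)⟩
  zero_mem' := ⟨zero_mem _, small_of_finite (by simp)⟩
  smul_mem' := fun a c hc => ⟨(L1 ι).smul_mem a hc.1, hc.2.mono
    (Function.support_const_smul_subset a c)⟩

theorem Adm.summable {ι T : Type} {sib : T → ℕ → ι} {ν : ι → ℝ} (hν : Adm sib ν)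
    (c : Coef sib) : Summable fun s => c.1 s * ν s := by
  obtain ⟨r, hr⟩ := hν.bdd c.2.2
  exact (summable_pair c.2.1 hr).1

/-- The pairing with an admissible family. -/
noncomputable def pairing {ι T : Type} {sib : T → ℕ → ι} {ν : ι → ℝ} (hν : Adm sib ν) :
    Coef sib →ₗ[ℝ] ℝ where
  toFun c := ∑' s, c.1 s * ν s
  map_add' c d := by
    rw [← (hν.summable c).tsum_add (hν.summable d)]
    exact tsum_congr fun s => add_mul _ _ _
  map_smul' a c := by
    rw [RingHom.id_apply, smul_eq_mul, ← tsum_mul_left]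
    exact tsum_congr fun s => mul_assoc _ _ _

/-- The data of the construction. -/
structure Sys (X ι T : Type) [NormedAddCommGroup X] [NormedSpace ℝ X] where
  h : ι → X
  sib : T → ℕ → ι
  ch : ℕ → ι
  sep : ℕ → X →L[ℝ] ℝ
  norm_h : ∀ s, ‖h s‖ ≤ 1
  total : ∀ g : X →L[ℝ] ℝ, (∀ s, g (h s) = 0) → g = 0
  inj : ∀ c ∈ L1 ι, ∑' s, c s • h s = 0 → c = 0
  sib_inj : ∀ t, Function.Injective (sib t)
  dich : ∀ N, ¬ Small sib N → ∃ N' ⊆ N, N'.Infinite ∧ Thin sib N'
  ch_inj : Function.Injective ch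
  ch_thin : Thin sib (range ch)
  weak : ∀ g : X →L[ℝ] ℝ, Adm sib fun s => g (h s)
  sep_zero : ∀ x, (∀ n, sep n x = 0) → x = 0

namespace Sys

variable {X ι T : Type} [NormedAddCommGroup X] [NormedSpace ℝ X] [CompleteSpace X] (D : Sys X ι T)

theorem summable (c : L1 ι) : Summable fun s => c.1 s • D.h s :=
  Summable.of_norm_bounded c.2 fun s => by
    rw [norm_smul, Real.norm_eq_abs]
    exact mul_le_of_le_one_right (abs_nonneg _) (D.norm_h s)

/-- Summation of an absolutely summable family of coefficients. -/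
noncomputable def J0 : L1 ι →ₗ[ℝ] X where
  toFun c := ∑' s, c.1 s • D.h s
  map_add' c d := by
    rw [← (D.summable c).tsum_add (D.summable d)]
    exact tsum_congr fun s => add_smul _ _ _
  map_smul' a c := by
    rw [RingHom.id_apply, ← (D.summable c).tsum_const_smul]
    exact tsum_congr fun s => mul_smul _ _ _

theorem J0_inj : Function.Injective D.J0 := by
  rw [← LinearMap.ker_eq_bot, LinearMap.ker_eq_bot']
  exact fun c hc => Subtype.ext (D.inj c.1 c.2 hc)

/-- Summation of a family of coefficients with small support. -/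
noncomputable def J : Coef D.sib →ₗ[ℝ] X := D.J0 ∘ₗ Submodule.inclusion fun _ hc => hc.1

theorem J_inj : Function.Injective D.J := D.J0_inj.comp (Submodule.inclusion_injective _)

open Classical in
/-- Unit vectors. -/
noncomputable def unit (s : ι) : Coef D.sib :=
  ⟨Pi.single s 1, summable_of_ne_finset_zero (s := {s}) fun b hb => by
    rw [Pi.single_eq_of_ne (by simpa using hb), abs_zero],
    small_of_finite ((finite_singleton s).subset Pi.support_single_subset)⟩

theorem J_unit (s : ι) : D.J (D.unit s) = D.h s := by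
  classical
  show ∑' i, (D.unit s).1 i • D.h i = _
  rw [tsum_eq_single s fun i hi => by simp [unit, hi]]
  simp [unit]

omit [CompleteSpace X] in
theorem pairing_unit {ν : ι → ℝ} (hν : Adm D.sib ν) (s : ι) : pairing hν (D.unit s) = ν s := by
  classical
  show ∑' i, (D.unit s).1 i * ν i = _
  rw [tsum_eq_single s fun i hi => by simp [unit, hi]]
  simp [unit]

/-- Admissible functionals. -/
def AdmF : Submodule ℝ (X →ₗ[ℝ] ℝ) where
  carrier := {θ | Adm D.sib (fun s => θ (D.h s)) ∧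
    ∀ c : Coef D.sib, θ (D.J c) = ∑' s, c.1 s * θ (D.h s)}
  add_mem' := fun {θ θ'} h h' => ⟨fun t => by simpa using (h.1 t).add (h'.1 t), fun c => by
    rw [LinearMap.add_apply, h.2, h'.2, ← (h.1.summable c).tsum_add (h'.1.summable c)]
    exact tsum_congr fun s => (mul_add _ _ _).symm⟩
  zero_mem' := ⟨fun t => tendsto_const_nhds, fun c => by simp⟩
  smul_mem' := fun a θ h => ⟨fun t => by simpa using (h.1 t).const_mul a, fun c => by
    rw [LinearMap.smul_apply, h.2, smul_eq_mul, ← tsum_mul_left]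
    exact tsum_congr fun s => mul_left_comm _ _ _⟩

theorem admF_congr {θ θ' : X →ₗ[ℝ] ℝ} (h : θ ∈ D.AdmF) (he : ∀ c, θ' (D.J c) = θ (D.J c)) :
    θ' ∈ D.AdmF := by
  have h1 : ∀ s, θ' (D.h s) = θ (D.h s) := fun s => by rw [← D.J_unit, he]
  refine ⟨by simpa only [h1] using h.1, fun c => ?_⟩
  simp only [h1, he]
  exact h.2 c

theorem admF_dual (g : X →L[ℝ] ℝ) : g.toLinearMap ∈ D.AdmF :=
  ⟨D.weak g, fun c => (g.map_tsum (D.summable ⟨c.1, c.2.1⟩)).trans
    (tsum_congr fun _ => g.map_smul _ _)⟩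

theorem exists_pi : ∃ π : X →ₗ[ℝ] Coef D.sib, ∀ c, π (D.J c) = c := by
  obtain ⟨π, hπ⟩ := D.J.exists_leftInverse_of_injective (LinearMap.ker_eq_bot.2 D.J_inj)
  exact ⟨π, LinearMap.congr_fun hπ⟩

theorem admF_ext {π : X →ₗ[ℝ] Coef D.sib} (hπ : ∀ c, π (D.J c) = c) {ν : ι → ℝ}
    (hν : Adm D.sib ν) : pairing hν ∘ₗ π ∈ D.AdmF ∧ ∀ s, (pairing hν ∘ₗ π) (D.h s) = ν s := by
  have h1 : ∀ s, (pairing hν ∘ₗ π) (D.h s) = ν s := fun s => by
    rw [LinearMap.comp_apply, ← D.J_unit, hπ, pairing_unit]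
  refine ⟨⟨by simpa only [h1] using hν, fun c => ?_⟩, h1⟩
  simp only [h1]
  rw [LinearMap.comp_apply, hπ]
  rfl

/-- The sets on which all admissible functionals are bounded. -/
theorem structure_thm [Countable ι] (M : Set X)
    (hM : ∀ θ ∈ D.AdmF, ∃ C, ∀ x ∈ M, |θ x| ≤ C) :
    ∃ (m : ℕ) (f : Fin m → X) (N : Set ι) (C : ℝ), Small D.sib N ∧ 0 ≤ C ∧ ∀ x ∈ M,
      ∀ θ ∈ D.AdmF, ∀ r, 0 ≤ r → (∀ i, |θ (f i)| ≤ r) → (∀ s ∈ N, |θ (D.h s)| ≤ r) →
        |θ x| ≤ C * r := by
  classical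
  obtain ⟨π, hπ⟩ := D.exists_pi
  let Q : X →ₗ[ℝ] X := LinearMap.id - D.J ∘ₗ π
  have hQ : ∀ x, Q x = x - D.J (π x) := fun _ => rfl
  obtain ⟨m, f, C, hC, hf⟩ := finite_box (Q '' M) fun l => by
    obtain ⟨C, hC⟩ := hM (l ∘ₗ Q) (D.admF_congr (zero_mem _) fun c => by simp [hQ, hπ])
    exact ⟨C, by rintro _ ⟨x, hx, rfl⟩; exact hC x hx⟩
  have hb : ∀ ν, Adm D.sib ν → ∃ C, ∀ x ∈ M, |∑' s, (π x).1 s * ν s| ≤ C := fun ν hν =>
    hM _ (D.admF_ext hπ hν).1
  obtain ⟨C', hC'⟩ := unif_bound ((fun x => (π x).1) '' M)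
    (by rintro _ ⟨x, -, rfl⟩; exact (π x).2.1) fun ν hν => by
      obtain ⟨C, hC⟩ := hb ν fun t => hν.comp (D.sib_inj t).tendsto_cofinite
      exact ⟨C, by rintro _ ⟨x, hx, rfl⟩; exact hC x hx⟩
  let N : Set ι := {s | ∃ x ∈ M, (π x).1 s ≠ 0}
  have hN : Small D.sib N := by
    by_contra hcon
    obtain ⟨N', hsub, hinf, hthin⟩ := D.dich N hcon
    obtain ⟨idx, hidx⟩ := Countable.exists_injective_nat ι
    choose! y hy hy0 using fun s (hs : s ∈ N') => hsub hs
    let w : ι → ℝ := fun s => if s ∈ N' then (idx s : ℝ) / (π (y s)).1 s else 0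
    have hs : ∀ x, Summable fun s => |(π x).1 s * w s| := fun x =>
      summable_of_hasFiniteSupport (((π x).2.2.finite_inter hthin).subset fun s hs => by
        have h1 : (π x).1 s * w s ≠ 0 := abs_ne_zero.1 hs
        refine ⟨left_ne_zero_of_mul h1, ?_⟩
        by_contra hc
        exact right_ne_zero_of_mul h1 (if_neg hc))
    obtain ⟨K, hK⟩ := unif_bound ((fun x s => (π x).1 s * w s) '' M)
      (by rintro _ ⟨x, -, rfl⟩; exact hs x) fun ν _ => by
        obtain ⟨C, hC⟩ := hb (fun s => w s * ν s) (hthin.adm fun s hs => by simp [w, hs])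
        refine ⟨C, ?_⟩
        rintro _ ⟨x, hx, rfl⟩
        simpa only [mul_assoc] using hC x hx
    obtain ⟨n, hn⟩ := exists_nat_ge K
    refine hinf (((finite_le_nat n).preimage hidx.injOn).subset fun s hs' => ?_)
    have h1 := ((hs (y s)).le_tsum s fun _ _ => abs_nonneg _).trans (hK _ ⟨y s, hy s hs', rfl⟩)
    simp only [w, if_pos hs'] at h1
    rw [mul_div_cancel₀ _ (hy0 s hs'), Nat.abs_cast] at h1
    exact_mod_cast h1.trans hn
  refine ⟨m, f, N, C + |C'|, hN, by positivity, fun x hx θ hθ r hr h1 h2 => ?_⟩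
  obtain ⟨a, ha, hxa⟩ := hf _ ⟨x, hx, rfl⟩
  have h3 : θ x = ∑ i, a i * θ (f i) + ∑' s, (π x).1 s * θ (D.h s) := by
    rw [← hθ.2, show ∑ i, a i * θ (f i) = θ (Q x) by rw [hxa, map_sum]; simp, hQ, map_sub]
    ring
  have h4 : |∑ i, a i * θ (f i)| ≤ C * r := by
    refine (Finset.abs_sum_le_sum_abs _ _).trans (le_trans ?_ (mul_le_mul_of_nonneg_right ha hr))
    rw [Finset.sum_mul]
    exact Finset.sum_le_sum fun i _ => by
      rw [abs_mul]; exact mul_le_mul_of_nonneg_left (h1 i) (abs_nonneg _)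
  have h5 := (summable_pair (π x).2.1 fun s hs => h2 s ⟨x, hx, hs⟩).2.trans
    (mul_le_mul_of_nonneg_right ((hC' _ ⟨x, hx, rfl⟩).trans (le_abs_self _)) hr)
  rw [h3, add_mul]
  exact (abs_add_le _ _).trans (add_le_add h4 h5)

end Sys

end Pool.Agent.MP_e733ef_an.Sep
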