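import Mathlib
import Pool.Agent.MP_e733ef_an.SepB
import Pool.Agent.MP_e733ef_an.SepD

/-!
The space attached to a system: a separable, semi-reflexive Baire graph.
-/

open Cardinal Set TopologicalSpace Filter Topology

namespace Pool.Agent.MP_e733ef_an.Sep

/-- Bounded families. -/
def Bdd (ι : Type) : Submodule ℝ (ι → ℝ) where
  carrier := {c | ∃ C, ∀ s, |c s| ≤ C}
  add_mem' := fun {c d} ⟨C, hc⟩ ⟨C', hd⟩ =>
    ⟨C + C', fun s => (abs_add_le (c s) (d s)).trans (add_le_add (hc s) (hd s))⟩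
  zero_mem' := ⟨0, by simp⟩
  smul_mem' := fun a c ⟨C, hc⟩ => ⟨|a| * C, fun s => by
    rw [Pi.smul_apply, smul_eq_mul, abs_mul]
    exact mul_le_mul_of_nonneg_left (hc s) (abs_nonneg _)⟩

namespace Sys

variable {X ι T : Type} [NormedAddCommGroup X] [NormedSpace ℝ X] (D : Sys X ι T)

/-- Geometric sequences along the chain. -/
noncomputable def geo (r : ℝ) : ι → ℝ := Function.extend D.ch (fun k => r ^ k) 0

theorem geo_ch (r : ℝ) (k : ℕ) : D.geo r (D.ch k) = r ^ k := D.ch_inj.extend_apply _ _ k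

theorem geo_off (r : ℝ) (s : ι) (hs : s ∉ range D.ch) : D.geo r s = 0 :=
  Function.extend_apply' _ _ s hs

theorem geo_adm (r : ℝ) : Adm D.sib (D.geo r) := D.ch_thin.adm (D.geo_off r)

theorem geo_mem {r : ℝ} (h0 : 0 ≤ r) (h1 : r < 1) : D.geo r ∈ L1 ι := by
  refine (D.ch_inj.summable_iff (f := fun s => |D.geo r s|) fun s hs => by
    rw [D.geo_off r s hs, abs_zero]).1 ?_
  refine (summable_geometric_of_lt_one h0 h1).congr fun k => ?_
  rw [Function.comp_apply, geo_ch, abs_of_nonneg (pow_nonneg h0 k)]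

include D in
theorem card_le : #X ≤ 𝔠 := by
  have h : #X ≤ #(ℕ → ℝ) := Cardinal.mk_le_of_injective (f := fun x n => D.sep n x)
    fun x y hxy => sub_eq_zero.1 (D.sep_zero _ fun n => by
      rw [map_sub, sub_eq_zero]; exact congrFun hxy n)
  rwa [← Cardinal.power_def, Cardinal.mk_nat, Cardinal.mk_real,
    Cardinal.continuum_power_aleph0] at h

variable [CompleteSpace X]

theorem big (s : Set X) (hs : #s < 𝔠) :
    ¬ (Set.univ : Set X) ⊆ (LinearMap.range D.J ⊔ Submodule.span ℝ s : Submodule ℝ X) := by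
  classical
  intro hsub
  let Z := LinearMap.range D.J
  let g : ℝ → L1 ι := fun r => if h : r ∈ Ioo (1 / 2 : ℝ) 1 then
    ⟨D.geo r, D.geo_mem (by linarith [h.1]) h.2⟩ else 0
  obtain ⟨r, -, hr⟩ := exists_notMem_span (fun r => Z.mkQ (D.J0 (g r)))
    (by norm_num : (1 / 2 : ℝ) < 1) (fun F a hF h0 => by
      have h1 : Z.mkQ (D.J0 (∑ r ∈ F, a r • g r)) = 0 := by
        rw [← h0, map_sum, map_sum]
        simp only [map_smul]
      obtain ⟨c, hc⟩ := (Submodule.Quotient.mk_eq_zero Z).1 h1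
      have h2 : c.1 = (∑ r ∈ F, a r • g r).1 := congrArg Subtype.val (D.J0_inj hc)
      refine geom_indep (by norm_num : (0 : ℝ) < 1 / 2) F (fun r hr => (hF r hr).1) a 0 ?_
      rw [← Nat.cofinite_eq_atTop]
      refine ((c.2.2.finite_inter D.ch_thin).preimage D.ch_inj.injOn).subset fun k hk => ?_
      refine ⟨fun h3 => hk ?_, mem_range_self k⟩
      have h4 : ∑ r ∈ F, a r * r ^ k = c.1 (D.ch k) := by
        rw [h2, Submodule.coe_sum, Finset.sum_apply]
        refine Finset.sum_congr rfl fun r hr => ?_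
        simp only [g, dif_pos (hF r hr), Submodule.coe_smul, Pi.smul_apply, geo_ch, smul_eq_mul]
      show |∑ r ∈ F, a r * r ^ k| ≤ _
      rw [h4, h3]
      simp) (Z.mkQ '' s) (mk_image_le.trans_lt hs)
  apply hr
  rw [← Submodule.map_span, ← Submodule.mem_comap, Submodule.comap_map_mkQ]
  exact hsub (mem_univ _)

theorem exists_family : ∃ θ : (ℕ → X) × ℝ → X →ₗ[ℝ] ℝ, (∀ a, θ a ∈ D.AdmF) ∧
    (∀ a, (∃ C, ∀ n, |θ a (a.1 n)| ≤ C) → ∀ θ' ∈ D.AdmF, ∃ C, ∀ n, |θ' (a.1 n)| ≤ C) ∧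
    ∀ (F : Finset ((ℕ → X) × ℝ)) (l : (ℕ → X) × ℝ → ℝ) (C : ℝ),
      (∀ s, |∑ a ∈ F, l a * θ a (D.h s)| ≤ C) → ∀ a ∈ F, l a = 0 := by
  classical
  obtain ⟨π, hπ⟩ := D.exists_pi
  let R : (X →ₗ[ℝ] ℝ) →ₗ[ℝ] ((ι → ℝ) ⧸ Bdd ι) :=
    (Bdd ι).mkQ ∘ₗ LinearMap.pi fun s => LinearMap.applyₗ (D.h s)
  have hR : ∀ θ, R θ = (Bdd ι).mkQ fun s => θ (D.h s) := fun _ => rfl
  have hΦ : #((ℕ → X) × ℝ) ≤ 𝔠 := by
    have h1 : #(ℕ → X) ≤ 𝔠 := by
      rw [← Cardinal.power_def, Cardinal.mk_nat, ← Cardinal.continuum_power_aleph0]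
      exact Cardinal.power_le_power_right D.card_le
    rw [Cardinal.mk_prod, lift_id, lift_id, Cardinal.mk_real]
    calc #(ℕ → X) * 𝔠 ≤ 𝔠 * 𝔠 := mul_le_mul' h1 le_rfl
      _ = 𝔠 := by simp
  obtain ⟨z, hz, hli⟩ := indep_select (ι := (ℕ → X) × ℝ) (fun a => R '' {θ | θ ∈ D.AdmF ∧
      ((∃ C, ∀ n, |θ (a.1 n)| ≤ C) → ∀ θ' ∈ D.AdmF, ∃ C, ∀ n, |θ' (a.1 n)| ≤ C)}) hΦ
    fun a s hs => by
      obtain ⟨r, -, hr⟩ := exists_notMem_span (fun r => (Bdd ι).mkQ (D.geo r)) one_lt_two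
        (fun F b hF h0 => by
          have h1 : (Bdd ι).mkQ (∑ r ∈ F, b r • D.geo r) = 0 := by
            rw [← h0, map_sum]
            simp only [map_smul]
          obtain ⟨C, hC⟩ := (Submodule.Quotient.mk_eq_zero _).1 h1
          refine geom_indep one_pos F (fun r hr => (hF r hr).1) b C
            (Eventually.of_forall fun k => ?_)
          simpa [Finset.sum_apply, geo_ch] using hC (D.ch k)) s hs
      obtain ⟨h1, h2⟩ := D.admF_ext hπ (D.geo_adm r)
      set θ₁ := pairing (D.geo_adm r) ∘ₗ π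
      have h3 : R θ₁ ∉ Submodule.span ℝ s := by rwa [hR, funext h2]
      by_contra hcon
      push Not at hcon
      have h4 : ∀ θ ∈ D.AdmF, R θ ∉ Submodule.span ℝ s → (∃ C, ∀ n, |θ (a.1 n)| ≤ C) ∧
          ¬ ∀ θ' ∈ D.AdmF, ∃ C, ∀ n, |θ' (a.1 n)| ≤ C := fun θ hθ hR =>
        Classical.not_imp.1 fun h => hR (hcon _ ⟨θ, ⟨hθ, h⟩, rfl⟩)
      obtain ⟨⟨C, hC⟩, h5⟩ := h4 θ₁ h1 h3
      refine h5 fun θ' hθ' => ?_
      by_cases h6 : R θ' ∈ Submodule.span ℝ s
      · obtain ⟨⟨C', hC'⟩, -⟩ := h4 (θ' - θ₁) (sub_mem hθ' h1) fun h => h3 (by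
          have := sub_mem h6 h
          rwa [map_sub, sub_sub_cancel] at this)
        refine ⟨C' + C, fun n => ?_⟩
        have := (abs_add_le _ _).trans (add_le_add (hC' n) (hC n))
        rwa [LinearMap.sub_apply, sub_add_cancel] at this
      · exact (h4 θ' hθ' h6).1
  choose θ hθ hθz using hz
  refine ⟨θ, fun a => (hθ a).1, fun a => (hθ a).2, fun F l C hC => ?_⟩
  refine linearIndependent_iff'.1 hli F l ?_
  simp only [← hθz, ← map_smul, ← map_sum]
  rw [hR]
  exact (Submodule.Quotient.mk_eq_zero _).2 ⟨C, fun s => by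
    simpa [LinearMap.sum_apply] using hC s⟩

theorem exists_space [Countable ι] :
    ∃ (E : Type) (_ : AddCommGroup E) (_ : Module ℝ E) (_ : TopologicalSpace E)
      (_ : IsTopologicalAddGroup E) (_ : ContinuousSMul ℝ E),
      LocallyConvexSpace ℝ E ∧ T2Space E ∧ BaireSpace E ∧ SeparableSpace E ∧
      SeparableSpace (StrongDual ℝ E) ∧
      (∀ Λ : StrongDual ℝ (StrongDual ℝ E), ∃ e : E, ∀ φ, Λ φ = φ e) ∧
      ∃ P : E →L[ℝ] X, Function.Injective P ∧ ∀ t, ∃ v : ℕ → E,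
        Bornology.IsVonNBounded ℝ (range v) ∧ ∀ n, P (v n) = D.h (D.sib t n) := by
  classical
  obtain ⟨θ, hθ, hunb, hind⟩ := D.exists_family
  have hΦ : #((ℕ → X) × ℝ) ≤ 𝔠 := by
    have h1 : #(ℕ → X) ≤ 𝔠 := by
      rw [← Cardinal.power_def, Cardinal.mk_nat, ← Cardinal.continuum_power_aleph0]
      exact Cardinal.power_le_power_right D.card_le
    rw [Cardinal.mk_prod, lift_id, lift_id, Cardinal.mk_real]
    calc #(ℕ → X) * 𝔠 ≤ 𝔠 * 𝔠 := mul_le_mul' h1 le_rfl
      _ = 𝔠 := by simp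
  obtain ⟨L, hL, hcount, hZ⟩ := exists_map_meetingZ D.card_le hΦ (LinearMap.range D.J) θ
  have hXs : SeparableSpace X := separable_of_dual (range D.h) (countable_range _)
    fun g hg => D.total g fun s => hg _ (mem_range_self s)
  have hLh : ∀ s a, L (D.h s) a = θ a (D.h s) := fun s => hZ _ ⟨_, D.J_unit s⟩
  -- every continuous functional is admissible
  have hC1 : ∀ φ : L.graph →L[ℝ] ℝ, φ.toLinearMap ∘ₗ lift L ∈ D.AdmF := by
    intro φ
    obtain ⟨x', l, hl⟩ := dual_graph L φ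
    refine D.admF_congr (add_mem (D.admF_dual x') (sum_mem (t := l.support)
      fun a _ => D.AdmF.smul_mem (l a) (hθ a))) fun c => ?_
    refine (hl _).trans ?_
    simp only [hZ _ (LinearMap.mem_range_self D.J c)]
    simp [LinearMap.sum_apply]
  -- every admissible functional is bounded on bounded sets
  have hC2 : ∀ B : Set L.graph, Bornology.IsVonNBounded ℝ B → ∀ θ' ∈ D.AdmF,
      ∃ C, ∀ x ∈ lift L ⁻¹' B, |θ' x| ≤ C := by
    intro B hB θ' hθ'
    by_contra hcon
    push Not at hcon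
    choose s hs hs' using fun n : ℕ => hcon n
    have hbad : (⋃ n, (fun r : ℝ => (s, r)) ⁻¹' {a | L (s n) a ≠ θ a (s n)}).Countable :=
      countable_iUnion fun n => (hcount (s n)).preimage (Prod.mk_right_injective s)
    obtain ⟨r, hr⟩ : ∃ r : ℝ,
        r ∉ ⋃ n, (fun r : ℝ => (s, r)) ⁻¹' {a | L (s n) a ≠ θ a (s n)} := by
      by_contra hcon
      push Not at hcon
      exact Cardinal.not_countable_real (hbad.mono fun r _ => hcon r)
    obtain ⟨C, hC⟩ := dual_bounded hB (coord L (s, r))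
    obtain ⟨C', hC'⟩ := hunb (s, r) ⟨C, fun n => by
      have h1 : L (s n) (s, r) = θ (s, r) (s n) := by
        by_contra hne
        exact hr (mem_iUnion.2 ⟨n, hne⟩)
      rw [← h1]
      exact hC _ (hs n)⟩ θ' hθ'
    obtain ⟨n, hn⟩ := exists_nat_ge C'
    exact absurd ((hC' n).trans hn) (not_le.2 (hs' n))
  -- semi-reflexivity
  have hC4 : ∀ Λ : StrongDual ℝ (StrongDual ℝ L.graph), ∃ e, ∀ φ, Λ φ = φ e := by
    intro Λ
    obtain ⟨B, K, hB, hK, hΛ⟩ := strong_bound Λ
    obtain ⟨m, f, N, C, hN, hC, hst⟩ := D.structure_thm _ (hC2 B hB)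
    let y : Fin m ⊕ ι → L.graph :=
      Sum.elim (fun i => lift L (f i)) fun s => if s ∈ N then lift L (D.h s) else 0
    let ρ : StrongDual ℝ L.graph →ₗ[ℝ] (Fin m ⊕ ι → ℝ) :=
      LinearMap.pi fun j => LinearMap.applyₗ (y j) ∘ₗ ContinuousLinearMap.coeLM ℝ
    have hρ : ∀ φ j, ρ φ j = φ (y j) := fun _ _ => rfl
    obtain ⟨c, hc, hrep⟩ := repr_dual (A := StrongDual ℝ L.graph) (κ := Fin m ⊕ ι) ρ (fun φ => by
      rw [Metric.tendsto_nhds]
      intro ε hε
      rw [eventually_cofinite, ← finite_preimage_inl_and_inr]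
      refine ⟨toFinite _, ((hC1 φ).1.finite_large hN hε).subset fun s hs => ?_⟩
      by_cases h : s ∈ N
      · exact ⟨h, by simpa [hρ, y, h] using hs⟩
      · exact absurd (by simpa [hρ, y, h] using hε) hs) Λ.toLinearMap (K := K * C)
      fun φ r hr hφ => by
        rw [mul_assoc]
        refine hΛ φ _ (by positivity) fun e he => ?_
        rw [← lift_proj L e] at he ⊢
        refine hst _ he _ (hC1 φ) r hr (fun i => hφ (Sum.inl i)) fun s hs => ?_
        simpa [hρ, y, hs] using hφ (Sum.inr s)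
    let c' : Coef D.sib := ⟨fun s => if s ∈ N then c (Sum.inr s) else 0,
      Summable.of_nonneg_of_le (fun _ => abs_nonneg _) (fun s => by
        by_cases h : s ∈ N <;> simp [h]) (hc.comp_injective Sum.inr_injective),
      hN.mono fun s hs => by
        by_contra h
        exact hs (if_neg h)⟩
    refine ⟨lift L (∑ i, c (Sum.inl i) • f i + D.J c'), fun φ => ?_⟩
    have h1 : ∀ s, c (Sum.inr s) * ρ φ (Sum.inr s) = c'.1 s * φ (lift L (D.h s)) := fun s => by
      by_cases h : s ∈ N <;> simp [hρ, y, c', h]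
    refine (hrep φ).trans ?_
    rw [Summable.tsum_sum (f := fun j => c j * ρ φ j) Summable.of_finite
      (((hC1 φ).1.summable c').congr fun s => (h1 s).symm),
      map_add, map_add, tsum_fintype, tsum_congr h1, map_sum, map_sum]
    congr 1
    · exact Finset.sum_congr rfl fun i _ => by rw [map_smul, map_smul]; rfl
    · exact ((hC1 φ).2 c').symm
  have hPinj : Function.Injective (proj L) := fun e e' h => by
    rw [← lift_proj L e, h, lift_proj]
  refine ⟨L.graph, inferInstance, inferInstance, inferInstance, inferInstance, inferInstance,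
    inferInstance, inferInstance,
    baireSpace_graphZ (isSeparable_univ_iff.2 hXs) D.big hL, ?_, ?_, hC4, proj L, hPinj,
    fun t => ⟨fun n => lift L (D.h (D.sib t n)), ?_, fun n => rfl⟩⟩
  · refine separable_of_dual (range fun s => lift L (D.h s)) (countable_range _) fun φ hφ => ?_
    obtain ⟨x', l, hl⟩ := dual_graph L φ
    have h0 : ∀ s, x' (D.h s) + ∑ a ∈ l.support, l a * θ a (D.h s) = 0 := fun s => by
      rw [← hφ _ (mem_range_self s), hl]
      simp only [hLh]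
    have h1 := hind l.support l ‖x'‖ fun s => by
      rw [eq_neg_of_add_eq_zero_right (h0 s), abs_neg]
      exact (x'.le_opNorm _).trans (mul_le_of_le_one_right (norm_nonneg _) (D.norm_h s))
    have h2 : x' = 0 := D.total x' fun s => by
      rw [← h0 s, Finset.sum_eq_zero fun a ha => by rw [h1 a ha, zero_mul], add_zero]
    ext e
    rw [← lift_proj L e, hl, h2, Finset.sum_eq_zero fun a ha => by rw [h1 a ha, zero_mul]]
    simp
  · refine separable_of_dual (range fun n => D.sep n ∘L proj L) (countable_range _) fun Λ hΛ => ?_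
    obtain ⟨e, he⟩ := hC4 Λ
    have h1 : e = 0 := hPinj ((D.sep_zero _ fun n => by
      rw [← hΛ _ (mem_range_self n), he]; rfl).trans (map_zero _).symm)
    ext φ
    rw [he, h1, map_zero]
    rfl
  · rw [show (range fun n => lift L (D.h (D.sib t n))) = lift L '' range fun n => D.h (D.sib t n)
      from range_comp _ _]
    refine bounded_graph L _ (C := 1) (by rintro _ ⟨n, rfl⟩; exact D.norm_h _) fun a => ?_
    obtain ⟨r, hr⟩ := (hθ a).1.bdd (N := range (D.sib t)) ⟨{t}, by simp⟩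
    exact ⟨r, by rintro _ ⟨n, rfl⟩; rw [hLh]; exact hr _ (mem_range_self n)⟩

end Sys

end Pool.Agent.MP_e733ef_an.Sep
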