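import Mathlib
import Pool.Agent.MP_e733ef_an.SepE

/-!
The system of indicator functions of cylinders of the Cantor space.
-/

open Set TopologicalSpace Filter Topology PiNat

namespace Pool.Agent.MP_e733ef_an.Sep

/-- The nodes that leave the branch `t` at their last step. -/
def sib (t : ℕ → Bool) (n : ℕ) : List Bool := (!t n) :: res t n

theorem sib_length (t : ℕ → Bool) (n : ℕ) : (sib t n).length = n + 1 := by simp [sib]

theorem sib_inj (t : ℕ → Bool) : Function.Injective (sib t) := fun n m h => by
  simpa [sib_length] using congrArg List.length h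

theorem res_suffix (t : ℕ → Bool) {m n : ℕ} (h : m ≤ n) : res t m <:+ res t n := by
  induction n, h using Nat.le_induction with
  | base => exact List.suffix_refl _
  | succ n _ ih => exact ih.trans (List.suffix_cons _ _)

theorem agree {u t : ℕ → Bool} {n j : ℕ} (h : res u (n + 1) <:+ sib t j) : res u n = res t n := by
  have h1 : res u n <:+ res t j := by
    rcases List.suffix_cons_iff.1 h with h | h
    · rw [(List.cons.inj h).2]
    · exact (List.suffix_cons _ _).trans h
  have h2 : n ≤ j := by simpa using h1.length_le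
  exact (List.suffix_of_suffix_length_le h1 (res_suffix t h2) (by simp)).eq_of_length (by simp)

theorem thin_of (u : ℕ → Bool) (s : ℕ → List Bool) (h1 : ∀ n, res u (n + 1) <:+ s n)
    (h2 : ∀ n j, s n ≠ sib u j) : Thin sib (range s) := by
  intro t
  by_cases h : u = t
  · subst h
    refine finite_empty.subset ?_
    rintro j ⟨n, hn⟩
    exact h2 n j hn
  obtain ⟨m, hm⟩ := Function.ne_iff.1 h
  refine (((finite_le_nat m).image s).preimage (sib_inj t).injOn).subset ?_
  rintro j ⟨n, hn⟩
  refine ⟨n, ?_, hn⟩
  by_contra hc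
  exact hm (res_eq_res.1 (agree (hn ▸ h1 n)) (not_le.1 hc))

theorem dich (N : Set (List Bool)) (hN : ¬ Small sib N) :
    ∃ N' ⊆ N, N'.Infinite ∧ Thin sib N' := by
  have h1 : ∀ s : List Bool, ∃ b : Bool, ¬ Small sib (N ∩ {s' | s <:+ s'}) →
      ¬ Small sib (N ∩ {s' | b :: s <:+ s'}) := by
    intro s
    by_contra hcon
    push Not at hcon
    refine (hcon true).1 ((((hcon true).2.union (hcon false).2).union
      (small_of_finite (finite_singleton s))).mono ?_)
    rintro _ ⟨hs, l, rfl⟩
    rcases List.eq_nil_or_concat l with rfl | ⟨l', b, rfl⟩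
    · exact Or.inr rfl
    · cases b
      · exact Or.inl (Or.inr ⟨hs, l', by simp⟩)
      · exact Or.inl (Or.inl ⟨hs, l', by simp⟩)
  choose b hb using h1
  let g : ℕ → List Bool := fun n => (fun s => b s :: s)^[n] []
  let u : ℕ → Bool := fun n => b (g n)
  have hg : ∀ n, res u n = g n ∧ ¬ Small sib (N ∩ {s' | g n <:+ s'}) := by
    intro n
    induction n with
    | zero => exact ⟨rfl, fun h => hN (h.mono fun s hs => ⟨hs, List.nil_suffix⟩)⟩
    | succ n ih =>
      have h2 : g (n + 1) = b (g n) :: g n := Function.iterate_succ_apply' _ _ _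
      rw [h2]
      exact ⟨by rw [res_succ, ih.1], hb _ ih.2⟩
  have h3 : ∀ n, ∃ s ∈ N, res u (n + 1) <:+ s ∧ ∀ j, s ≠ sib u j := by
    intro n
    by_contra hcon
    push Not at hcon
    refine (hg (n + 1)).2 ⟨{u}, finite_empty.subset fun s hs => hs.2 ?_⟩
    obtain ⟨j, hj⟩ := hcon s hs.1.1 (by rw [(hg _).1]; exact hs.1.2)
    simpa using ⟨j, hj.symm⟩
  choose s hs h4 h5 using h3
  refine ⟨range s, range_subset_iff.2 hs, fun hfin => ?_, thin_of u s h4 h5⟩
  obtain ⟨m, hm⟩ := (hfin.image List.length).bddAbove
  have h6 := (h4 m).length_le.trans (hm ⟨s m, mem_range_self m, rfl⟩)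
  simp at h6

theorem exists_pt (s : List Bool) :
    ∃ u : ℕ → Bool, res u s.length = s ∧ ∀ i, s.length ≤ i → u i = false := by
  induction s with
  | nil => exact ⟨fun _ => false, rfl, fun _ _ => rfl⟩
  | cons b s ih =>
    obtain ⟨u, h1, h2⟩ := ih
    refine ⟨Function.update u s.length b, ?_, fun i hi => ?_⟩
    · rw [List.length_cons, res_succ, Function.update_self,
        res_eq_res.2 fun m hm => Function.update_of_ne hm.ne _ _, h1]
    · rw [List.length_cons] at hi
      rw [Function.update_of_ne (by omega), h2 i (by omega)]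

theorem res_locallyConstant (n : ℕ) : IsLocallyConstant fun u : ℕ → Bool => res u n := by
  induction n with
  | zero => exact IsLocallyConstant.const _
  | succ n ih =>
    exact ((IsLocallyConstant.iff_continuous _).2 (continuous_apply n)).comp₂ ih List.cons

/-- The indicator function of the cylinder of the right successor of a node. -/
def bump (s : List Bool) : C(ℕ → Bool, ℝ) :=
  ⟨fun u => if res u (s.length + 1) = true :: s then 1 else 0,
    ((res_locallyConstant (s.length + 1)).comp
      fun l => if l = true :: s then (1 : ℝ) else 0).continuous⟩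

theorem bump_apply (s : List Bool) (u : ℕ → Bool) :
    bump s u = if res u (s.length + 1) = true :: s then 1 else 0 := rfl

/-- The closed span of the indicator functions. -/
noncomputable def XS : Submodule ℝ C(ℕ → Bool, ℝ) :=
  (Submodule.span ℝ (range bump)).topologicalClosure

/-- The closed span as a Banach space. -/
def XX : Type := XS

noncomputable instance : NormedAddCommGroup XX := inferInstanceAs (NormedAddCommGroup XS)

noncomputable instance : NormedSpace ℝ XX := inferInstanceAs (NormedSpace ℝ XS)

instance : CompleteSpace XX := (Submodule.isClosed_topologicalClosure _).completeSpace_coe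

/-- The indicator functions as elements of their closed span. -/
def hh (s : List Bool) : XX :=
  ⟨bump s, Submodule.le_topologicalClosure _ (Submodule.subset_span (mem_range_self s))⟩

/-- Point evaluations. -/
noncomputable def ev (u : ℕ → Bool) : XX →L[ℝ] ℝ :=
  (ContinuousMap.evalCLM ℝ u ∘L XS.subtypeL : XS →L[ℝ] ℝ)

theorem ev_le (u : ℕ → Bool) (x : XX) : |ev u x| ≤ ‖x‖ := x.1.norm_coe_le_norm u

theorem norm_le_ev (x : XX) {r : ℝ} (hr : 0 ≤ r) (h : ∀ u, |ev u x| ≤ r) : ‖x‖ ≤ r :=
  (x.1.norm_le hr).2 h

theorem ev_hh (u : ℕ → Bool) (s : List Bool) :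
    ev u (hh s) = if res u (s.length + 1) = true :: s then 1 else 0 := rfl

theorem norm_hh (s : List Bool) : ‖hh s‖ ≤ 1 :=
  norm_le_ev _ zero_le_one fun u => by rw [ev_hh]; split_ifs <;> simp

theorem total_hh (g : XX →L[ℝ] ℝ) (hg : ∀ s, g (hh s) = 0) : g = 0 := by
  obtain ⟨g', hg', -⟩ := exists_extension_norm_eq XS g
  have h1 : XS ≤ LinearMap.ker g'.toLinearMap :=
    Submodule.topologicalClosure_minimal _ (Submodule.span_le.2 (by
      rintro _ ⟨s, rfl⟩
      exact (hg' (hh s)).trans (hg s))) g'.isClosed_ker
  ext x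
  exact (hg' x).symm.trans (h1 x.2)

theorem inj_hh (c : List Bool → ℝ) (hc : c ∈ L1 (List Bool)) (h : ∑' s, c s • hh s = 0) :
    c = 0 := by
  have hs : Summable fun s => c s • hh s := Summable.of_norm_bounded hc fun s => by
    rw [norm_smul, Real.norm_eq_abs]
    exact mul_le_of_le_one_right (abs_nonneg _) (norm_hh s)
  have h1 : ∀ n, ∀ s : List Bool, s.length = n → c s = 0 := by
    intro n
    induction n using Nat.strong_induction_on with
    | _ n ih =>
      rintro s rfl
      obtain ⟨u, h1, h2⟩ := exists_pt (true :: s)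
      rw [List.length_cons] at h1 h2
      have h3 := (ev u).map_tsum hs
      rw [h, map_zero, tsum_eq_single s, map_smul, ev_hh, if_pos h1] at h3
      · simpa using h3.symm
      intro s' hs'
      rw [map_smul, ev_hh]
      split_ifs with h4
      · have h5 : s'.length < s.length + 1 := by
          by_contra hc
          have := (List.cons.inj h4).1
          rw [h2 _ (not_lt.1 hc)] at this
          exact Bool.false_ne_true this
        rcases (Nat.lt_succ_iff.1 h5).lt_or_eq with h6 | h6
        · rw [ih _ h6 s' rfl, zero_smul]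
        · rw [h6, h1] at h4
          exact absurd (List.cons.inj h4).2.symm hs'
      · simp
  exact funext fun s => h1 _ s rfl

theorem weak_hh (g : XX →L[ℝ] ℝ) : Adm sib fun s => g (hh s) := by
  intro t
  have h0 : ∀ u n, ev u (hh (sib t n)) ≠ 0 → u n ≠ t n ∧ ∀ m < n, u m = t m := by
    intro u n h
    rw [ev_hh, sib_length] at h
    have h1 : res u (n + 1 + 1) = true :: sib t n := by
      by_contra hc
      exact h (if_neg hc)
    have h2 := List.cons.inj (List.cons.inj h1).2
    exact ⟨by rw [h2.1]; simp, res_eq_res.1 h2.2⟩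
  have h1 : ∀ F : Finset ℕ, ∑ n ∈ F, |g (hh (sib t n))| ≤ ‖g‖ := by
    intro F
    have h2 : ∑ n ∈ F, |g (hh (sib t n))| =
        g (∑ n ∈ F, (SignType.sign (g (hh (sib t n))) : ℝ) • hh (sib t n)) := by
      rw [map_sum]
      refine Finset.sum_congr rfl fun j _ => ?_
      rw [map_smul, smul_eq_mul, sign_mul_self]
    have h3 : ‖∑ n ∈ F, (SignType.sign (g (hh (sib t n))) : ℝ) • hh (sib t n)‖ ≤ 1 := by
      refine norm_le_ev _ zero_le_one fun u => ?_
      rw [map_sum]
      by_cases h : ∃ n ∈ F, ev u (hh (sib t n)) ≠ 0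
      · obtain ⟨n, hn, h4⟩ := h
        rw [Finset.sum_eq_single_of_mem n hn, map_smul, smul_eq_mul, abs_mul]
        · refine mul_le_one₀ ?_ (abs_nonneg _) ((ev_le _ _).trans (norm_hh _))
          rcases SignType.trichotomy (SignType.sign (g (hh (sib t n)))) with h | h | h <;> simp [h]
        · intro m _ hm
          rw [map_smul, smul_eq_mul]
          refine mul_eq_zero_of_right _ ?_
          by_contra h5
          rcases lt_or_gt_of_ne hm with h6 | h6
          · exact (h0 u m h5).1 ((h0 u n h4).2 m h6)
          · exact (h0 u n h4).1 ((h0 u m h5).2 n h6)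
      · push Not at h
        rw [Finset.sum_eq_zero fun n hn => by rw [map_smul, h n hn, smul_zero]]
        simp
    rw [h2]
    exact (le_abs_self _).trans ((g.le_opNorm _).trans
      (mul_le_of_le_one_right (norm_nonneg _) h3))
  exact (tendsto_zero_iff_abs_tendsto_zero _).2
    (summable_of_sum_le (fun _ => abs_nonneg _) h1).tendsto_cofinite_zero

/-- The system. -/
noncomputable def sys : Sys XX (List Bool) (ℕ → Bool) where
  h := hh
  sib := sib
  ch := fun n => res (fun _ => false) (n + 1)
  sep := fun n => ev (denseSeq (ℕ → Bool) n)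
  norm_h := norm_hh
  total := total_hh
  inj := inj_hh
  sib_inj := sib_inj
  dich := dich
  ch_inj := fun n m h => by simpa using congrArg List.length h
  ch_thin := thin_of _ _ (fun _ => List.suffix_refl _) fun n j h => by
    simpa using (List.cons.inj h).1
  weak := weak_hh
  sep_zero := fun x hx => Subtype.ext (ContinuousMap.ext fun u =>
    congrFun ((denseRange_denseSeq (ℕ → Bool)).equalizer x.1.continuous continuous_const
      (funext hx)) u)

/-- The norm has a uniform corner along one of the distinguished sequences. -/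
theorem corner (x : XX) : ∃ t, ∀ τ > 0, ∀ η > 0, ∃ n,
    2 * ‖x‖ + τ - η ≤ ‖x + τ • hh (sib t n)‖ + ‖x + (-τ) • hh (sib t n)‖ := by
  obtain ⟨t, -, ht⟩ := isCompact_univ.exists_isMaxOn univ_nonempty
    x.1.continuous.abs.continuousOn
  have h0 : ‖x‖ ≤ |ev t x| := norm_le_ev x (abs_nonneg _) fun u => ht (mem_univ u)
  refine ⟨t, fun τ hτ η hη => ?_⟩
  let u : ℕ → ℕ → Bool := fun n => Function.update (Function.update t n (!t n)) (n + 1) true
  have h1 : Tendsto u atTop (𝓝 t) := tendsto_pi_nhds.2 fun i =>
    tendsto_const_nhds.congr' ((eventually_gt_atTop i).mono fun n hn => by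
      simp only [u]
      rw [Function.update_of_ne (by omega), Function.update_of_ne (by omega)])
  obtain ⟨n, hn⟩ := (Metric.tendsto_nhds.1 ((x.1.continuous.tendsto t).comp h1) η hη).exists
  have h2 : |ev (u n) x - ev t x| < η := hn
  have h3 : ev (u n) (hh (sib t n)) = 1 := by
    rw [ev_hh, sib_length, if_pos]
    rw [res_succ, res_succ, sib, (res_eq_res (y := t)).2 fun m hm => by
      simp only [u]
      rw [Function.update_of_ne (by omega), Function.update_of_ne (by omega)]]
    simp [u]
  have h4 : ev t (hh (sib t n)) = 0 := by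
    rw [ev_hh, sib_length, if_neg]
    intro h
    simpa using (List.cons.inj (List.cons.inj h).2).1
  have h5 := fun (v : ℕ → Bool) (σ : ℝ) => abs_le.1 (ev_le v (x + σ • hh (sib t n)))
  have a1 := h5 (u n) τ
  have a2 := h5 (u n) (-τ)
  have a3 := h5 t τ
  have a4 := h5 t (-τ)
  simp only [map_add, map_smul, h3, h4, smul_eq_mul, mul_one, mul_zero, add_zero] at a1 a2 a3 a4
  have a5 := abs_lt.1 h2
  refine ⟨n, ?_⟩
  rcases abs_cases (ev t x) with h | h <;> linarith [a1.1, a1.2, a2.1, a2.2, a3.1, a3.2, a4.1, a4.2]

end Pool.Agent.MP_e733ef_an.Sep
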