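import Mathlib

/-!
A semi-reflexive locally convex Baire space is reflexive.
-/

open Set Filter Topology

namespace Pool.Agent.MP_e733ef_an.Sep

theorem reflexive_of_baire {E : Type} [AddCommGroup E] [Module ℝ E] [TopologicalSpace E]
    [IsTopologicalAddGroup E] [ContinuousSMul ℝ E] [LocallyConvexSpace ℝ E] [T2Space E]
    [BaireSpace E] (h : ∀ Λ : StrongDual ℝ (StrongDual ℝ E), ∃ e : E, ∀ φ, Λ φ = φ e) :
    ∃ j : E ≃L[ℝ] StrongDual ℝ (StrongDual ℝ E), ∀ e φ, j e φ = φ e := by
  let j₀ : E →ₗ[ℝ] StrongDual ℝ (StrongDual ℝ E) :=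
    { toFun := fun e =>
        ⟨LinearMap.applyₗ e ∘ₗ ContinuousLinearMap.coeLM ℝ, continuous_eval_const e⟩
      map_add' := fun e e' => by ext φ; exact map_add φ e e'
      map_smul' := fun a e => by ext φ; exact map_smul φ a e }
  have hj : ∀ e φ, j₀ e φ = φ e := fun _ _ => rfl
  have hbij : Function.Bijective j₀ := by
    refine ⟨fun e e' hee => ?_, fun Λ => ?_⟩
    · by_contra hne
      obtain ⟨f, hf⟩ := geometric_hahn_banach_point_point hne
      exact hf.ne (by rw [← hj, hee, hj])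
    · obtain ⟨e, he⟩ := h Λ
      exact ⟨e, by ext φ; exact (he φ).symm⟩
  let j := LinearEquiv.ofBijective j₀ hbij
  have hinv : ∀ (Λ : StrongDual ℝ (StrongDual ℝ E)) (φ : StrongDual ℝ E),
      φ (j.symm Λ) = Λ φ := fun Λ φ => by
    rw [← hj]
    exact congrArg (fun Λ : StrongDual ℝ (StrongDual ℝ E) => Λ φ) (j.apply_symm_apply Λ)
  refine ⟨{ j with continuous_toFun := ?_, continuous_invFun := ?_ }, hj⟩
  · have : ContinuousAdd (StrongDual ℝ (StrongDual ℝ E)) :=
      ContinuousLinearMap.topologicalAddGroup.toContinuousAdd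
    refine continuous_of_tendsto_nhds_zero j₀ ?_
    rw [ContinuousLinearMap.hasBasis_nhds_zero.tendsto_right_iff]
    rintro ⟨A, V⟩ ⟨hA, hV⟩
    let _ := IsTopologicalAddGroup.rightUniformSpace E
    have : IsUniformAddGroup E := isUniformAddGroup_of_addCommGroup
    have h1 := (PolynormableSpace.banach_steinhaus (𝓕 := fun φ : A => φ.1) fun x =>
      (ContinuousLinearMap.isVonNBounded_image2_apply hA
        (Bornology.isVonNBounded_singleton x)).subset (by
          rintro _ ⟨φ, rfl⟩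
          exact mem_image2_of_mem φ.2 rfl)).equicontinuous 0
    obtain ⟨ε, hε, hεV⟩ := Metric.mem_nhds_iff.1 hV
    filter_upwards [Metric.equicontinuousAt_iff_right.1 h1 ε hε] with e he φ hφ
    refine hεV ?_
    simpa [hj] using he ⟨φ, hφ⟩
  · refine continuous_of_tendsto_nhds_zero j.symm ?_
    rw [(nhds_hasBasis_absConvex_closed ℝ E).tendsto_right_iff]
    rintro U ⟨hU, hUc, hUa⟩
    let A : Set (StrongDual ℝ E) := {φ | ∀ x ∈ U, |φ x| ≤ 1}
    have hA : Bornology.IsVonNBounded ℝ A := by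
      rw [ContinuousLinearMap.isVonNBounded_iff]
      intro s hs
      obtain ⟨r, hr, hrs⟩ := (hs hU).exists_pos
      rw [NormedSpace.isVonNBounded_iff']
      refine ⟨r, ?_⟩
      rintro _ ⟨φ, hφ, x, hx, rfl⟩
      obtain ⟨y, hy, rfl⟩ := hrs r (Real.norm_of_nonneg hr.le).ge hx
      simp only [map_smul, smul_eq_mul, Real.norm_eq_abs, abs_mul, abs_of_pos hr]
      exact mul_le_of_le_one_right hr.le (hφ y hy)
    filter_upwards [ContinuousLinearMap.hasBasis_nhds_zero.mem_of_mem
      (i := (A, Metric.closedBall (0 : ℝ) 1)) ⟨hA, Metric.closedBall_mem_nhds _ one_pos⟩]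
      with Λ hΛ
    by_contra hcon
    obtain ⟨f, u, h1, h2⟩ := geometric_hahn_banach_point_closed
      (by simpa using hUa.2) hUc hcon
    have h0 : u < 0 := by simpa using h2 0 (mem_of_mem_nhds hU)
    have h3 : u⁻¹ • f ∈ A := fun x hx => by
      have a1 := h2 x hx
      have a2 := h2 (-x) (hUa.1.neg_mem_iff.2 hx)
      rw [map_neg] at a2
      rw [_root_.smul_apply, smul_eq_mul, abs_mul, abs_inv, abs_of_neg h0,
        inv_mul_le_iff₀ (by linarith), mul_one, abs_le]
      constructor <;> linarith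
    have h4 := hΛ _ h3
    rw [mem_closedBall_zero_iff, ← hinv, _root_.smul_apply, smul_eq_mul, Real.norm_eq_abs, abs_mul,
      abs_inv, abs_of_neg h0, inv_mul_le_iff₀ (by linarith), mul_one, abs_le] at h4
    linarith [h4.1]

end Pool.Agent.MP_e733ef_an.Sep
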